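import Mathlib

open scoped BigOperators

namespace Pool.Agent.Helper495.NN

/-- average over a finite type -/
noncomputable def avg {T : Type} [Fintype T] (f : T → ℝ) : ℝ := (∑ x, f x) / (Fintype.card T : ℝ)

abbrev E (r : ℕ) := EuclideanSpace ℝ (Fin r)

def sgn (s : Bool) : ℝ := if s then 1 else -1

/-- number of elements of the image -/
noncomputable def im {X T : Type} [Fintype X] (f : X → T) : ℕ := Nat.card (Set.range f)

/-- all fibres are even -/
def EvenF {X T : Type} [Fintype X] (f : X → T) : Prop := ∀ t : T, Even (Nat.card {x : X // f x = t})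

/-- `f` is finer than `g` -/
def Finer {X S T : Type} (f : X → S) (g : X → T) : Prop := ∀ x y : X, f x = f y → g x = g y

/-- the operator `y ↦ ∑ q, ⟪Z' q, y⟫ Z q` -/
noncomputable def Bop {P : Type} [Fintype P] {r : ℕ} (Z Z' : P → E r) : E r →L[ℝ] E r :=
  ∑ q, (innerSL ℝ (Z' q)).smulRight (Z q)

/-- rows of the unnormalised sparse stack applied to the family `u` -/
noncomputable def Zst {n ζ b r : ℕ} (ω : Fin n → Fin ζ → Bool × Fin b) (u : Fin n → E r)
    (q : Fin ζ × Fin b) : E r :=
  ∑ i, (if (ω i q.1).2 = q.2 then sgn (ω i q.1).1 else 0) • u i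

/-- the multinomial model -/
noncomputable def XA {n r L : ℕ} {P : Type} [DecidableEq P] (i : Fin L → Fin n) (ρ : Fin L → P) (σ : Fin L → Bool)
    (u : Fin n → E r) (q : P) : E r :=
  ∑ a, (if ρ a = q then sgn (σ a) else 0) • u (i a)

/-- positions -/
abbrev Pos (p : ℕ) := Fin (p + 1) × Bool

/-- cyclic shift of positions: `(t,false) ↦ (t,true)`, `(t,true) ↦ (t+1,false)` -/
def e1 {p : ℕ} (x : Pos p) : Fin (p + 1) := if x.2 then x.1 else x.1 - 1

/-- coupled even labelled walks -/
noncomputable def wt {X S : Type} [Fintype X] (L : ℕ) (y : ℝ) (κ : X → S) : ℝ :=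
  by classical exact ∑ α : X → Fin L, if EvenF α ∧ Finer α κ then y ^ im α else 0


/-- product of the rank one operators `⟪u (i x), ·⟫ u (i x)`, head outermost -/
noncomputable def act {A I : Type} {r : ℕ} (u : I → E r) (i : A → I) (w : List A) (y : E r) : E r :=
  w.foldr (fun x z => (inner ℝ (u (i x)) z : ℝ) • u (i x)) y

/-- value of a trail with endpoints `τ.1`, `τ.2.2` and interior word `τ.2.1` -/
noncomputable def val {A I : Type} {r : ℕ} (u : I → E r) (i : A → I) (τ : A × List A × A) : ℝ :=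
  inner ℝ (u (i τ.1)) (act u i τ.2.1 (u (i τ.2.2)))

/-- letters of a trail -/
def lets {A : Type} (τ : A × List A × A) : List A := τ.1 :: τ.2.2 :: τ.2.1

/-- the operator of the sign matrix -/
noncomputable def signOp {N : ℕ} (G : Fin N → Fin N → Bool) : E N →L[ℝ] E N :=
  Matrix.toEuclideanCLM (𝕜 := ℝ) (Matrix.of (fun i j => sgn (G i j)))

/-- A sample of the randomness: for each row `i` and block `j` a sign and an index. -/
abbrev Sample (n ζ b : ℕ) := Fin n → Fin ζ → Bool × Fin b

/-- The SparseStack matrix; the columns are indexed by (block, position in the block). -/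
noncomputable def stack {n ζ b : ℕ} (ω : Sample n ζ b) : Matrix (Fin n) (Fin ζ × Fin b) ℝ :=
  fun i q => if (ω i q.1).2 = q.2 then sgn (ω i q.1).1 / Real.sqrt ζ else 0

/-- The sketch of `x`. -/
noncomputable def sketch {n ζ b : ℕ} (ω : Sample n ζ b) (x : EuclideanSpace ℝ (Fin n)) :
    EuclideanSpace ℝ (Fin ζ × Fin b) :=
  WithLp.toLp 2 ((stack ω).transpose.mulVec (fun i => x i))

/-- Probability under the uniform distribution on samples. -/
noncomputable def prob {n ζ b : ℕ} (S : Set (Sample n ζ b)) : ℝ :=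
  (Nat.card S : ℝ) / (Nat.card (Sample n ζ b) : ℝ)

/-- Oblivious subspace embedding for dimension `r`. -/
def IsOSE (n ζ b r : ℕ) (α β δ : ℝ) : Prop :=
  ∀ V : Submodule ℝ (EuclideanSpace ℝ (Fin n)), Module.finrank ℝ V = r →
    1 - δ ≤ prob {ω : Sample n ζ b | ∀ x ∈ V, α * ‖x‖ ≤ ‖sketch ω x‖ ∧ ‖sketch ω x‖ ≤ β * ‖x‖}

end Pool.Agent.Helper495.NN
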