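import Mathlib
import Pool.Agent.Helper495.NN.Defs

open scoped BigOperators

namespace Pool.Agent.Helper495.NN




noncomputable def dcc {n ζ b : ℕ} (ω : Fin n → Fin ζ → Bool × Fin b) (i : Fin n)
    (q : Fin ζ × Fin b) : ℝ := if (ω i q.1).2 = q.2 then sgn (ω i q.1).1 else 0

noncomputable def dcK {n ζ b : ℕ} (ω : Fin n → Fin ζ → Bool × Fin b) (i j : Fin n) : ℝ :=
  ∑ q, dcc ω i q * dcc ω j q

theorem dcK_self {n ζ b : ℕ} (ω : Fin n → Fin ζ → Bool × Fin b) (i : Fin n) :
    dcK ω i i = ζ := by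
  unfold dcK
  rw [Fintype.sum_prod_type]
  have h1 : ∀ k : Fin ζ, ∑ m : Fin b, dcc ω i (k, m) * dcc ω i (k, m) = 1 := by
    intro k
    have h2 : ∀ m : Fin b, dcc ω i (k, m) * dcc ω i (k, m) =
        if (ω i k).2 = m then 1 else 0 := by
      intro m
      unfold dcc sgn
      simp only
      split_ifs <;> norm_num
    simp only [h2]
    rw [Finset.sum_ite_eq]
    simp
  simp only [h1]
  simp

theorem dc_Bop {n ζ b r : ℕ} (ω : Fin n → Fin ζ → Bool × Fin b) (a c : Fin n → E r) (y : E r) :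
    Bop (Zst ω a) (Zst ω c) y = ∑ i, ∑ j, (dcK ω i j * inner ℝ (c j) y) • a i := by
  have h1 : ∀ q, inner ℝ (Zst ω c q) y = ∑ j, dcc ω j q * inner ℝ (c j) y := by
    intro q
    unfold Zst
    rw [sum_inner]
    refine Finset.sum_congr rfl fun j _ => ?_
    rw [inner_smul_left]
    rfl
  have h2 : Bop (Zst ω a) (Zst ω c) y = ∑ q, (inner ℝ (Zst ω c q) y) • Zst ω a q := by
    unfold Bop
    rw [ContinuousLinearMap.sum_apply]
    rfl
  rw [h2]
  have h3 : ∀ q, (inner ℝ (Zst ω c q) y) • Zst ω a q =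
      ∑ i, ∑ j, (dcc ω i q * dcc ω j q * inner ℝ (c j) y) • a i := by
    intro q
    rw [h1 q]
    unfold Zst
    rw [Finset.smul_sum]
    refine Finset.sum_congr rfl fun i _ => ?_
    rw [← Finset.sum_smul, smul_smul]
    congr 1
    rw [Finset.sum_mul]
    refine Finset.sum_congr rfl fun j _ => ?_
    show _ * dcc ω i q = _
    ring
  simp only [h3]
  rw [Finset.sum_comm]
  refine Finset.sum_congr rfl fun i _ => ?_
  rw [Finset.sum_comm]
  refine Finset.sum_congr rfl fun j _ => ?_
  rw [← Finset.sum_smul]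
  congr 1
  unfold dcK
  rw [Finset.sum_mul]

/-- flipping a coordinate -/
def dcflip {n : ℕ} (i : Fin n) : (Fin n → Bool) ≃ (Fin n → Bool) :=
  Function.Involutive.toPerm (fun χ => Function.update χ i (!χ i)) (by
    intro χ
    funext k
    by_cases hk : k = i
    · subst hk; simp
    · simp [Function.update_of_ne hk])

theorem dc_sum_sgn {n : ℕ} (i : Fin n) (g : (Fin n → Bool) → ℝ)
    (hg : ∀ χ, g (Function.update χ i (!χ i)) = g χ) :
    ∑ χ : Fin n → Bool, sgn (χ i) * g χ = 0 := by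
  have h1 : ∑ χ : Fin n → Bool, sgn (χ i) * g χ =
      ∑ χ : Fin n → Bool, sgn ((dcflip i χ) i) * g (dcflip i χ) :=
    (Equiv.sum_comp (dcflip i) (fun χ => sgn (χ i) * g χ)).symm
  have h2 : ∀ χ : Fin n → Bool, sgn ((dcflip i χ) i) * g (dcflip i χ) = -(sgn (χ i) * g χ) := by
    intro χ
    have e1 : g (dcflip i χ) = g χ := hg χ
    have e2 : (dcflip i χ) i = !χ i := by
      show Function.update χ i (!χ i) i = _
      simp
    rw [e1, e2]
    unfold sgn
    cases χ i <;> simp
  simp only [h2, Finset.sum_neg_distrib] at h1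
  linarith

theorem dc_ind {n : ℕ} (i j : Fin n) :
    ∑ χ : Fin n → Bool, (if χ i then (if χ j then (0:ℝ) else 1) else 0) =
      if i = j then 0 else (Fintype.card (Fin n → Bool) : ℝ) / 4 := by
  split_ifs with hij
  · subst hij
    refine Finset.sum_eq_zero fun χ _ => ?_
    split_ifs <;> rfl
  · have h1 : ∀ χ : Fin n → Bool, (if χ i then (if χ j then (0:ℝ) else 1) else 0) =
        (1 + sgn (χ i) * 1 - sgn (χ j) * 1 - sgn (χ i) * sgn (χ j)) / 4 := by
      intro χ
      unfold sgn
      cases χ i <;> cases χ j <;> norm_num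
    simp only [h1]
    rw [← Finset.sum_div, Finset.sum_sub_distrib, Finset.sum_sub_distrib, Finset.sum_add_distrib,
      dc_sum_sgn i (fun _ => 1) (fun _ => rfl), dc_sum_sgn j (fun _ => 1) (fun _ => rfl),
      dc_sum_sgn i (fun χ => sgn (χ j)) (fun χ => by
        rw [Function.update_of_ne (Ne.symm hij)])]
    simp


theorem decouple {n ζ b r : ℕ} (hζ : 0 < ζ) (ω : Fin n → Fin ζ → Bool × Fin b) (u : Fin n → E r) (p : ℕ) :
    ‖(1 / (ζ : ℝ)) • Bop (Zst ω u) (Zst ω u) - Bop u u‖ ^ (2 * (p + 1))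
      ≤ avg (fun χ : Fin n → Bool =>
        ‖(4 / (ζ : ℝ)) • Bop (Zst ω (fun i => if χ i then u i else 0)) (Zst ω (fun i => if χ i then 0 else u i))‖
          ^ (2 * (p + 1))) := by
  have hζ' : (ζ : ℝ) ≠ 0 := by exact_mod_cast hζ.ne'
  set N : ℝ := (Fintype.card (Fin n → Bool) : ℝ) with hN
  have hN0 : 0 < N := by
    rw [hN]
    exact_mod_cast Fintype.card_pos
  have hkey : (1 / (ζ : ℝ)) • Bop (Zst ω u) (Zst ω u) - Bop u u =
      (1 / N) • ∑ χ : Fin n → Bool, (4 / (ζ : ℝ)) • Bop (Zst ω (fun i => if χ i then u i else 0))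
        (Zst ω (fun i => if χ i then 0 else u i)) := by
    refine ContinuousLinearMap.ext fun y => ?_
    rw [ContinuousLinearMap.sub_apply, ContinuousLinearMap.smul_apply,
      ContinuousLinearMap.smul_apply, ContinuousLinearMap.sum_apply, dc_Bop]
    have h1 : ∀ χ : Fin n → Bool, ((4 / (ζ : ℝ)) • Bop (Zst ω (fun i => if χ i then u i else 0))
        (Zst ω (fun i => if χ i then 0 else u i))) y = (4 / (ζ : ℝ)) • ∑ i, ∑ j,
        (dcK ω i j * inner ℝ (u j) y * (if χ i then (if χ j then (0:ℝ) else 1) else 0)) • u i := by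
      intro χ
      rw [ContinuousLinearMap.smul_apply, dc_Bop]
      congr 1
      refine Finset.sum_congr rfl fun i _ => Finset.sum_congr rfl fun j _ => ?_
      split_ifs <;> simp
    simp only [h1]
    have h2 : ∑ χ : Fin n → Bool, ∑ i, ∑ j, (dcK ω i j * inner ℝ (u j) y *
        (if χ i then (if χ j then (0:ℝ) else 1) else 0)) • u i =
        ∑ i, ∑ j, (dcK ω i j * inner ℝ (u j) y * (if i = j then 0 else N / 4)) • u i := by
      rw [Finset.sum_comm]
      refine Finset.sum_congr rfl fun i _ => ?_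
      rw [Finset.sum_comm]
      refine Finset.sum_congr rfl fun j _ => ?_
      rw [← Finset.sum_smul, ← Finset.mul_sum, dc_ind]
    rw [← Finset.smul_sum, h2]
    have h3 : Bop u u y = ∑ i, (inner ℝ (u i) y : ℝ) • u i := by
      unfold Bop
      rw [ContinuousLinearMap.sum_apply]
      rfl
    rw [h3, smul_smul, Finset.smul_sum, Finset.smul_sum, ← Finset.sum_sub_distrib]
    refine Finset.sum_congr rfl fun i _ => ?_
    rw [← Finset.sum_smul, ← Finset.sum_smul, smul_smul, smul_smul, ← sub_smul]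
    congr 1
    rw [Finset.mul_sum, Finset.mul_sum]
    have h4 : ∀ j, 1 / (ζ : ℝ) * (dcK ω i j * inner ℝ (u j) y) =
        1 / N * (4 / (ζ : ℝ)) * (dcK ω i j * inner ℝ (u j) y * (if i = j then 0 else N / 4)) +
        (if i = j then inner ℝ (u i) y else 0) := by
      intro j
      split_ifs with hij
      · subst hij
        rw [dcK_self]
        field_simp
        ring
      · field_simp
        ring
    simp only [h4]
    rw [Finset.sum_add_distrib, Finset.sum_ite_eq]
    simp
  rw [hkey]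
  unfold avg
  rw [← hN]
  have e0 : ∀ f : (Fin n → Bool) → ℝ, (∑ x, f x) / N = ∑ x, 1 / N * f x := by
    intro f
    rw [Finset.sum_div]
    refine Finset.sum_congr rfl fun x _ => ?_
    ring
  rw [e0]
  have h5 : ‖(1 / N) • ∑ χ : Fin n → Bool, (4 / (ζ : ℝ)) •
      Bop (Zst ω (fun i => if χ i then u i else 0)) (Zst ω (fun i => if χ i then 0 else u i))‖ ≤
      ∑ χ : Fin n → Bool, 1 / N * ‖(4 / (ζ : ℝ)) •
      Bop (Zst ω (fun i => if χ i then u i else 0)) (Zst ω (fun i => if χ i then 0 else u i))‖ := by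
    rw [norm_smul, Real.norm_of_nonneg (by positivity), ← Finset.mul_sum]
    exact mul_le_mul_of_nonneg_left (norm_sum_le _ _) (by positivity)
  refine (pow_le_pow_left₀ (norm_nonneg _) h5 _).trans ?_
  refine Real.pow_arith_mean_le_arith_mean_pow Finset.univ (fun _ => 1 / N) _
    (fun _ _ => by positivity) ?_ (fun _ _ => norm_nonneg _) _
  rw [Finset.sum_const, Finset.card_univ, nsmul_eq_mul, ← hN]
  field_simp

end Pool.Agent.Helper495.NN
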