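import Mathlib
import Pool.Agent.Helper495.NN.Defs

open scoped BigOperators

namespace Pool.Agent.Helper495.NN





theorem indep {n ζ b r : ℕ} (hb : 0 < b) (u : Fin n → E r) (χ : Fin n → Bool)
    (G : ((Fin ζ × Fin b) → E r) → ((Fin ζ × Fin b) → E r) → ℝ) :
    avg (fun ω : Fin n → Fin ζ → Bool × Fin b =>
        G (Zst ω (fun i => if χ i then u i else 0)) (Zst ω (fun i => if χ i then 0 else u i)))
      = avg (fun ω : Fin n → Fin ζ → Bool × Fin b => avg (fun ω' : Fin n → Fin ζ → Bool × Fin b =>
        G (Zst ω (fun i => if χ i then u i else 0)) (Zst ω' (fun i => if χ i then 0 else u i)))) := by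
  classical
  haveI : Nonempty (Fin b) := ⟨⟨0, hb⟩⟩
  have hne : Nonempty (Fin n → Fin ζ → Bool × Fin b) := inferInstance
  let Om := Fin n → Fin ζ → Bool × Fin b
  let nu : Om × Om → Om × Om := fun w =>
    (fun i => if χ i then w.1 i else w.2 i, fun i => if χ i then w.2 i else w.1 i)
  have hinv : ∀ w, nu (nu w) = w := by
    intro w
    apply Prod.ext
    · funext i
      by_cases h : χ i = true <;> simp [nu, h]
    · funext i
      by_cases h : χ i = true <;> simp [nu, h]
  have h1 : ∀ w : Om × Om, Zst (nu w).1 (fun i => if χ i then u i else 0)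
      = Zst w.1 (fun i => if χ i then u i else 0) := by
    intro w
    funext q
    unfold Zst
    refine Finset.sum_congr rfl fun i _ => ?_
    by_cases h : χ i = true <;> simp [nu, h]
  have h2 : ∀ w : Om × Om, Zst (nu w).1 (fun i => if χ i then 0 else u i)
      = Zst w.2 (fun i => if χ i then 0 else u i) := by
    intro w
    funext q
    unfold Zst
    refine Finset.sum_congr rfl fun i _ => ?_
    by_cases h : χ i = true <;> simp [nu, h]
  have hcard : (Fintype.card Om : ℝ) ≠ 0 := by
    have : 0 < Fintype.card Om := Fintype.card_pos_iff.mpr hne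
    exact_mod_cast this.ne'
  let H : Om → ℝ := fun ω =>
    G (Zst ω (fun i => if χ i then u i else 0)) (Zst ω (fun i => if χ i then 0 else u i))
  let F : Om → Om → ℝ := fun ω ω' =>
    G (Zst ω (fun i => if χ i then u i else 0)) (Zst ω' (fun i => if χ i then 0 else u i))
  have hkey : ∑ ω : Om, ∑ ω' : Om, F ω ω' = (Fintype.card Om : ℝ) * ∑ ω : Om, H ω := by
    calc ∑ ω : Om, ∑ ω' : Om, F ω ω' = ∑ w : Om × Om, F w.1 w.2 := by
          rw [Fintype.sum_prod_type]
      _ = ∑ w : Om × Om, H (nu w).1 := by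
          refine Finset.sum_congr rfl fun w _ => ?_
          simp only [F, H]
          rw [h1 w, h2 w]
      _ = ∑ w : Om × Om, H w.1 := by
          exact Equiv.sum_comp (⟨nu, nu, hinv, hinv⟩ : (Om × Om) ≃ (Om × Om)) (fun w => H w.1)
      _ = (Fintype.card Om : ℝ) * ∑ ω : Om, H ω := by
          rw [Fintype.sum_prod_type]
          simp only [Finset.sum_const, Finset.card_univ, nsmul_eq_mul]
          rw [Finset.mul_sum]
  show (∑ ω : Om, H ω) / (Fintype.card Om : ℝ)
      = (∑ ω : Om, ((∑ ω' : Om, F ω ω') / (Fintype.card Om : ℝ))) / (Fintype.card Om : ℝ)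
  rw [← Finset.sum_div, hkey]
  field_simp

end Pool.Agent.Helper495.NN
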