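import Mathlib
import Pool.Agent.Helper495.NN.Defs

open scoped BigOperators

namespace Pool.Agent.Helper495.NN





/-- fixed pattern `δ` of cells -/
theorem jensen_one {D S W : Type} [Fintype D] [DecidableEq D] [Fintype S] [Nonempty S]
    [AddCommGroup W] [Module ℝ W] (Ψ : D → S → W) (ν : S ≃ S) (hν : ∀ d s, Ψ d (ν s) = - Ψ d s)
    (G : W → ℝ) (hG : ConvexOn ℝ Set.univ G) (L : ℕ) (δ : Fin L → D) :
    avg (fun ω : D → S => G (∑ d ∈ Finset.univ.image δ, Ψ d (ω d)))
      ≤ avg (fun τ : Fin L → S => G (∑ a, Ψ (δ a) (τ a))) := by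
  classical
  let s : Set.range δ → Fin L := Set.rangeSplitting δ
  have hs : ∀ x : Set.range δ, δ (s x) = x := fun x => Set.apply_rangeSplitting δ x
  let fst : Fin L → Prop := fun a => s ⟨δ a, Set.mem_range_self a⟩ = a
  have hfst : ∀ (d : D) (h : d ∈ Set.range δ), fst (s ⟨d, h⟩) := by
    intro d h
    have h1 : (⟨δ (s ⟨d, h⟩), Set.mem_range_self _⟩ : Set.range δ) = ⟨d, h⟩ :=
      Subtype.ext (hs ⟨d, h⟩)
    change s ⟨δ (s ⟨d, h⟩), Set.mem_range_self _⟩ = s ⟨d, h⟩
    rw [h1]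
  let Φ : ((Fin L → S) × (D → S)) → ((Fin L → S) × (D → S)) := fun x =>
    (fun a => if fst a then x.2 (δ a) else x.1 a,
     fun d => if h : d ∈ Set.range δ then x.1 (s ⟨d, h⟩) else x.2 d)
  have hΦ : Function.Involutive Φ := by
    rintro ⟨τ, ω⟩
    apply Prod.ext
    · funext a
      by_cases h : fst a
      · have h1 : δ a ∈ Set.range δ := Set.mem_range_self a
        have h2 : s ⟨δ a, h1⟩ = a := h
        simp only [Φ, h, if_true, h1, dif_pos, h2]
      · simp only [Φ, h, if_false]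
    · funext d
      by_cases h : d ∈ Set.range δ
      · simp only [Φ, h, dif_pos, hfst d h, if_true, hs]
      · simp only [Φ, h, dif_neg, not_false_eq_true]
  let F : (Fin L → S) → W := fun τ => ∑ a, Ψ (δ a) (τ a)
  let C : (D → S) → W := fun ω => ∑ d ∈ Finset.univ.image δ, Ψ d (ω d)
  let Q : (Fin L → S) → W := fun τ => ∑ a ∈ Finset.univ.filter (fun a => ¬ fst a), Ψ (δ a) (τ a)
  have hC : ∀ ω, C ω = ∑ a ∈ Finset.univ.filter (fun a => fst a), Ψ (δ a) (ω (δ a)) := by
    intro ω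
    have h1 : Finset.univ.image δ = (Finset.univ.filter (fun a => fst a)).image δ := by
      ext d
      simp only [Finset.mem_image, Finset.mem_univ, true_and, Finset.mem_filter]
      constructor
      · rintro ⟨a, rfl⟩
        exact ⟨s ⟨δ a, Set.mem_range_self a⟩, hfst _ _, hs _⟩
      · rintro ⟨a, _, rfl⟩
        exact ⟨a, rfl⟩
    change ∑ d ∈ Finset.univ.image δ, Ψ d (ω d) = _
    rw [h1, Finset.sum_image]
    intro a ha b hb hab
    have ha' : fst a := by simpa using ha
    have hb' : fst b := by simpa using hb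
    have ha2 : s ⟨δ a, Set.mem_range_self a⟩ = a := ha'
    have hb2 : s ⟨δ b, Set.mem_range_self b⟩ = b := hb'
    rw [← ha2, ← hb2]
    congr 1
    exact Subtype.ext hab
  have hF : ∀ τ ω, F (Φ (τ, ω)).1 = C ω + Q τ := by
    intro τ ω
    rw [hC ω]
    change ∑ a, Ψ (δ a) ((Φ (τ, ω)).1 a) = _
    rw [← Finset.sum_filter_add_sum_filter_not Finset.univ (fun a => fst a)]
    congr 1
    · refine Finset.sum_congr rfl fun a ha => ?_
      have h : fst a := by simpa using ha
      simp only [Φ, h, if_true]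
    · refine Finset.sum_congr rfl fun a ha => ?_
      have h : ¬ fst a := by simpa using ha
      simp only [Φ, h, if_false]
  -- inner inequality
  have hin : ∀ c : W, (Fintype.card (Fin L → S) : ℝ) * G c ≤ ∑ τ : Fin L → S, G (c + Q τ) := by
    intro c
    let N : (Fin L → S) ≃ (Fin L → S) := Equiv.piCongrRight (fun _ => ν)
    have hN : ∀ τ, Q (N τ) = - Q τ := by
      intro τ
      change ∑ a ∈ Finset.univ.filter (fun a => ¬ fst a), Ψ (δ a) (ν (τ a)) =
        - ∑ a ∈ Finset.univ.filter (fun a => ¬ fst a), Ψ (δ a) (τ a)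
      rw [← Finset.sum_neg_distrib]
      exact Finset.sum_congr rfl fun a _ => hν _ _
    have h1 : ∑ τ : Fin L → S, G (c - Q τ) = ∑ τ : Fin L → S, G (c + Q τ) := by
      rw [← Equiv.sum_comp N (fun τ => G (c + Q τ))]
      refine Finset.sum_congr rfl fun τ _ => ?_
      rw [hN τ, sub_eq_add_neg]
    have h2 : ∀ τ : Fin L → S, 2 * G c ≤ G (c + Q τ) + G (c - Q τ) := by
      intro τ
      have h3 := hG.2 (Set.mem_univ (c + Q τ)) (Set.mem_univ (c - Q τ))
        (by norm_num : (0:ℝ) ≤ 1/2) (by norm_num : (0:ℝ) ≤ 1/2) (by norm_num)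
      have h4 : (1/2 : ℝ) • (c + Q τ) + (1/2 : ℝ) • (c - Q τ) = c := by module
      rw [h4, smul_eq_mul, smul_eq_mul] at h3
      linarith
    have h5 : ∑ τ : Fin L → S, 2 * G c ≤ ∑ τ : Fin L → S, (G (c + Q τ) + G (c - Q τ)) :=
      Finset.sum_le_sum fun τ _ => h2 τ
    rw [Finset.sum_add_distrib, h1, Finset.sum_const, Finset.card_univ, nsmul_eq_mul] at h5
    linarith
  -- the pair sum
  have hpair : ∑ x : (Fin L → S) × (D → S), G (F x.1) =
      ∑ x : (Fin L → S) × (D → S), G (F (Φ x).1) :=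
    (Equiv.sum_comp hΦ.toPerm (fun x => G (F x.1))).symm
  have hl : ∑ x : (Fin L → S) × (D → S), G (F x.1) =
      (Fintype.card (D → S) : ℝ) * ∑ τ : Fin L → S, G (F τ) := by
    rw [Fintype.sum_prod_type]
    simp only [Finset.sum_const, Finset.card_univ, nsmul_eq_mul]
    rw [Finset.mul_sum]
  have hr : (Fintype.card (Fin L → S) : ℝ) * ∑ ω : D → S, G (C ω) ≤
      ∑ x : (Fin L → S) × (D → S), G (F (Φ x).1) := by
    rw [Fintype.sum_prod_type_right, Finset.mul_sum]
    refine Finset.sum_le_sum fun ω _ => ?_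
    refine (hin (C ω)).trans (le_of_eq ?_)
    exact Finset.sum_congr rfl fun τ _ => by rw [hF τ ω]
  have hcT : (0 : ℝ) < (Fintype.card (Fin L → S) : ℝ) := by
    exact_mod_cast Fintype.card_pos
  have hcD : (0 : ℝ) < (Fintype.card (D → S) : ℝ) := by
    exact_mod_cast Fintype.card_pos
  have hmain : (Fintype.card (Fin L → S) : ℝ) * ∑ ω : D → S, G (C ω) ≤
      (Fintype.card (D → S) : ℝ) * ∑ τ : Fin L → S, G (F τ) := by
    rw [← hl, hpair]; exact hr
  unfold avg
  rw [div_le_div_iff₀ hcD hcT]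
  change (∑ ω : D → S, G (C ω)) * _ ≤ (∑ τ : Fin L → S, G (F τ)) * _
  linarith

end Pool.Agent.Helper495.NN
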