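import Mathlib
import Pool.Agent.Helper495.NN.Defs

open scoped BigOperators

namespace Pool.Agent.Helper495.NN





theorem jensen_two {D W : Type} [Fintype D] [DecidableEq D] [Nonempty D]
    [AddCommGroup W] [Module ℝ W] (w : D → W)
    (G : W → ℝ) (hG : ConvexOn ℝ Set.univ G) (L : ℕ) :
    G ((1 - (1 - 1 / (Fintype.card D : ℝ)) ^ L) • ∑ d, w d)
      ≤ avg (fun δ : Fin L → D => G (∑ d ∈ Finset.univ.image δ, w d)) := by
  classical
  have hN : 0 < Fintype.card D := Fintype.card_pos
  have hN0 : (Fintype.card D : ℝ) ≠ 0 := by positivity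
  have hcT : (Fintype.card (Fin L → D) : ℝ) = (Fintype.card D : ℝ) ^ L := by
    rw [Fintype.card_fun, Fintype.card_fin]
    push_cast
    rfl
  have hT0 : (Fintype.card (Fin L → D) : ℝ) ≠ 0 := by
    rw [hcT]
    positivity
  have hcount : ∀ d : D, (((Finset.univ : Finset (Fin L → D)).filter
      (fun δ => d ∈ Finset.univ.image δ)).card : ℝ) =
      (Fintype.card D : ℝ) ^ L - ((Fintype.card D : ℝ) - 1) ^ L := by
    intro d
    have h1 := Finset.card_filter_add_card_filter_not (s := (Finset.univ : Finset (Fin L → D)))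
      (fun δ => d ∈ Finset.univ.image δ)
    have h2 : (Finset.univ : Finset (Fin L → D)).filter (fun δ => ¬ d ∈ Finset.univ.image δ) =
        Fintype.piFinset (fun _ : Fin L => Finset.univ.erase d) := by
      ext δ
      simp only [Finset.mem_filter, Finset.mem_univ, true_and, Finset.mem_image, not_exists,
        Fintype.mem_piFinset, Finset.mem_erase, and_true, ne_eq]
    have h3 : (Fintype.piFinset (fun _ : Fin L => (Finset.univ : Finset D).erase d)).card =
        (Fintype.card D - 1) ^ L := by
      rw [Fintype.card_piFinset]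
      simp [Finset.card_erase_of_mem]
    rw [h2, h3, Finset.card_univ] at h1
    have h4 : ((((Finset.univ : Finset (Fin L → D)).filter
      (fun δ => d ∈ Finset.univ.image δ)).card : ℝ) + ((Fintype.card D : ℝ) - 1) ^ L) =
      (Fintype.card D : ℝ) ^ L := by
      rw [← hcT, ← h1]
      push_cast [Nat.cast_sub (Nat.succ_le_of_lt hN)]
      rfl
    linarith
  have hvec : ∑ δ : Fin L → D, (1 / (Fintype.card (Fin L → D) : ℝ)) •
      (∑ d ∈ Finset.univ.image δ, w d) =
      (1 - (1 - 1 / (Fintype.card D : ℝ)) ^ L) • ∑ d, w d := by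
    rw [← Finset.smul_sum]
    have h1 : ∀ δ : Fin L → D, ∑ d ∈ Finset.univ.image δ, w d =
        ∑ d, (if d ∈ Finset.univ.image δ then w d else 0) := by
      intro δ
      rw [← Finset.sum_filter]
      refine Finset.sum_congr ?_ (fun _ _ => rfl)
      ext d
      simp
    rw [Finset.sum_congr rfl (fun δ _ => h1 δ), Finset.sum_comm]
    have h2 : ∀ d : D, ∑ δ : Fin L → D, (if d ∈ Finset.univ.image δ then w d else 0) =
        ((Fintype.card D : ℝ) ^ L - ((Fintype.card D : ℝ) - 1) ^ L) • w d := by
      intro d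
      rw [← Finset.sum_filter, Finset.sum_const, ← hcount d, Nat.cast_smul_eq_nsmul]
    rw [Finset.sum_congr rfl (fun d _ => h2 d), ← Finset.smul_sum, smul_smul]
    congr 1
    rw [hcT]
    have h3 : (1 - 1 / (Fintype.card D : ℝ)) = ((Fintype.card D : ℝ) - 1) / (Fintype.card D : ℝ) := by
      field_simp
    rw [h3, div_pow]
    field_simp
  have hJ := hG.map_sum_le (t := (Finset.univ : Finset (Fin L → D)))
    (w := fun _ => 1 / (Fintype.card (Fin L → D) : ℝ))
    (p := fun δ => ∑ d ∈ Finset.univ.image δ, w d) (fun _ _ => by positivity) (by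
      rw [Finset.sum_const, Finset.card_univ, nsmul_eq_mul, mul_one_div, div_self hT0])
      (fun _ _ => Set.mem_univ _)
  rw [hvec] at hJ
  refine hJ.trans (le_of_eq ?_)
  unfold avg
  rw [Finset.sum_div]
  refine Finset.sum_congr rfl (fun δ _ => ?_)
  rw [smul_eq_mul]
  ring

end Pool.Agent.Helper495.NN
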