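import Mathlib
import Pool.Agent.Helper495.NN.Defs
import Pool.Agent.Helper495.NN.JensenOne
import Pool.Agent.Helper495.NN.JensenTwo

open scoped BigOperators

namespace Pool.Agent.Helper495.NN










private theorem ja_avg_le {T : Type} [Fintype T] {f g : T → ℝ} (h : ∀ x, f x ≤ g x) :
    avg f ≤ avg g := by
  unfold avg
  exact div_le_div_of_nonneg_right (Finset.sum_le_sum (fun x _ => h x)) (Nat.cast_nonneg _)

private theorem ja_avg_prod {X Y : Type} [Fintype X] [Fintype Y] (f : X → Y → ℝ) :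
    avg (fun x => avg (fun y => f x y)) = avg (fun p : X × Y => f p.1 p.2) := by
  unfold avg
  rw [Fintype.sum_prod_type, Fintype.card_prod, ← Finset.sum_div, div_div]
  push_cast
  rw [mul_comm]

private theorem ja_avg_equiv {X Y : Type} [Fintype X] [Fintype Y] (e : X ≃ Y) (f : Y → ℝ) :
    avg (fun x => f (e x)) = avg f := by
  unfold avg
  rw [Fintype.card_congr e, Equiv.sum_comp e f]

private theorem ja_avg_comm {X Y : Type} [Fintype X] [Fintype Y] (f : X → Y → ℝ) :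
    avg (fun x => avg (fun y => f x y)) = avg (fun y => avg (fun x => f x y)) := by
  rw [ja_avg_prod, ja_avg_prod (fun y x => f x y)]
  exact ja_avg_equiv (Equiv.prodComm X Y) (fun p : Y × X => f p.2 p.1)

/-- the atoms -/
private noncomputable def jaPsi {n ζ b r : ℕ} (u : Fin n → E r) (d : Fin n × Fin ζ) (s : Bool × Fin b) :
    (Fin ζ × Fin b) → E r :=
  fun q => (if (d.2, s.2) = q then sgn s.1 else 0) • u d.1

private theorem ja_sgn (s : Bool) : sgn (!s) = -sgn s := by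
  cases s <;> simp [sgn]

private theorem ja_psi_neg {n ζ b r : ℕ} (u : Fin n → E r) (d : Fin n × Fin ζ) (s : Bool × Fin b) :
    jaPsi u d ((Equiv.prodCongr Equiv.boolNot (Equiv.refl (Fin b))) s) = -jaPsi u d s := by
  funext q
  have h1 : (Equiv.prodCongr Equiv.boolNot (Equiv.refl (Fin b))) s = (!s.1, s.2) := rfl
  rw [h1]
  simp only [jaPsi, Pi.neg_apply, ja_sgn]
  split_ifs
  · rw [neg_smul]
  · rw [zero_smul, neg_zero]

private theorem ja_Zst {n ζ b r : ℕ} (u : Fin n → E r) (ω : Fin n × Fin ζ → Bool × Fin b) :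
    Zst (fun i s => ω (i, s)) u = ∑ d, jaPsi u d (ω d) := by
  funext q
  rw [Finset.sum_apply, Fintype.sum_prod_type]
  unfold Zst
  refine Finset.sum_congr rfl (fun i _ => ?_)
  rw [Finset.sum_eq_single q.1]
  · simp only [jaPsi]
    by_cases h : (ω (i, q.1)).2 = q.2
    · have h2 : (q.1, (ω (i, q.1)).2) = q := Prod.ext rfl h
      rw [if_pos h, if_pos h2]
    · have h2 : ¬ (q.1, (ω (i, q.1)).2) = q := fun h2 => h (congrArg Prod.snd h2)
      rw [if_neg h, if_neg h2]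
  · intro s _ hs
    simp only [jaPsi]
    rw [if_neg (fun h2 => hs (congrArg Prod.fst h2)), zero_smul]
  · intro h
    exact absurd (Finset.mem_univ _) h

/-- regrouping -/
private def jaEquiv (n ζ b L : ℕ) : ((Fin L → Fin n × Fin ζ) × (Fin L → Bool × Fin b)) ≃
    ((Fin L → Fin n) × (Fin L → Fin ζ × Fin b) × (Fin L → Bool)) where
  toFun p := (fun a => (p.1 a).1, fun a => ((p.1 a).2, (p.2 a).2), fun a => (p.2 a).1)
  invFun t := (fun a => (t.1 a, (t.2.1 a).1), fun a => (t.2.2 a, (t.2.1 a).2))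
  left_inv p := rfl
  right_inv t := rfl


theorem jensen_atoms {n ζ b r : ℕ} (hn : 0 < n) (hζ : 0 < ζ) (hb : 0 < b) (u : Fin n → E r)
    (G : ((Fin ζ × Fin b) → E r) → ℝ) (hG : ConvexOn ℝ Set.univ G) :
    avg (fun ω : Fin n → Fin ζ → Bool × Fin b =>
        G ((1 - (1 - 1 / ((n * ζ : ℕ) : ℝ)) ^ (n * ζ)) • Zst ω u))
      ≤ avg (fun A : (Fin (n * ζ) → Fin n) × (Fin (n * ζ) → Fin ζ × Fin b) × (Fin (n * ζ) → Bool) =>
        G (XA A.1 A.2.1 A.2.2 u)) := by
  have hD : Nonempty (Fin n × Fin ζ) := ⟨(⟨0, hn⟩, ⟨0, hζ⟩)⟩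
  have hS : Nonempty (Bool × Fin b) := ⟨(true, ⟨0, hb⟩)⟩
  set L := n * ζ with hL
  -- the left hand side
  have h1 : avg (fun ω : Fin n → Fin ζ → Bool × Fin b =>
        G ((1 - (1 - 1 / ((L : ℕ) : ℝ)) ^ L) • Zst ω u))
      = avg (fun ω : Fin n × Fin ζ → Bool × Fin b =>
        G ((1 - (1 - 1 / ((L : ℕ) : ℝ)) ^ L) • ∑ d, jaPsi u d (ω d))) := by
    rw [← ja_avg_equiv (Equiv.curry (Fin n) (Fin ζ) (Bool × Fin b))]
    congr 1
    funext ω
    rw [← ja_Zst]
    rfl
  rw [h1]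
  have h2 : ∀ ω : Fin n × Fin ζ → Bool × Fin b,
      G ((1 - (1 - 1 / ((L : ℕ) : ℝ)) ^ L) • ∑ d, jaPsi u d (ω d))
        ≤ avg (fun δ : Fin L → Fin n × Fin ζ =>
          G (∑ d ∈ Finset.univ.image δ, jaPsi u d (ω d))) := by
    intro ω
    have h3 := jensen_two (fun d => jaPsi u d (ω d)) G hG L
    have h4 : Fintype.card (Fin n × Fin ζ) = L := by
      rw [Fintype.card_prod, Fintype.card_fin, Fintype.card_fin]
    rw [h4] at h3
    exact h3
  refine (ja_avg_le h2).trans ?_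
  rw [ja_avg_comm]
  have h5 : ∀ δ : Fin L → Fin n × Fin ζ,
      avg (fun ω : Fin n × Fin ζ → Bool × Fin b =>
          G (∑ d ∈ Finset.univ.image δ, jaPsi u d (ω d)))
        ≤ avg (fun τ : Fin L → Bool × Fin b => G (∑ a, jaPsi u (δ a) (τ a))) := by
    intro δ
    exact jensen_one (fun d s => jaPsi u d s)
      (Equiv.prodCongr Equiv.boolNot (Equiv.refl (Fin b))) (ja_psi_neg u) G hG L δ
  refine (ja_avg_le h5).trans ?_
  rw [ja_avg_prod, ← ja_avg_equiv (jaEquiv n ζ b L)]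
  apply le_of_eq
  congr 1
  funext p
  congr 1
  funext q
  rw [Finset.sum_apply]
  rfl

end Pool.Agent.Helper495.NN
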