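import Mathlib
import Pool.Agent.Helper495.NN.Defs

open scoped BigOperators

namespace Pool.Agent.Helper495.NN








open Classical in
/-- the functions that agree with `c` off `T` -/
noncomputable def PP {A I : Type} [Fintype A] [DecidableEq A] [Fintype I] (T : Finset A)
    (c : A → I) : Finset (A → I) := Finset.univ.filter (fun i => ∀ x, x ∉ T → i x = c x)

lemma mem_PP {A I : Type} [Fintype A] [DecidableEq A] [Fintype I] (T : Finset A)
    (c i : A → I) : i ∈ PP T c ↔ ∀ x, x ∉ T → i x = c x := by simp [PP]

lemma sum_PP_insert {A I M : Type} [Fintype A] [DecidableEq A] [Fintype I] [AddCommMonoid M]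
    (T : Finset A) (x : A) (hx : x ∉ T) (c : A → I) (f : (A → I) → M) :
    ∑ i ∈ PP (insert x T) c, f i = ∑ v : I, ∑ i ∈ PP T (Function.update c x v), f i := by
  classical
  rw [← Finset.sum_fiberwise (PP (insert x T) c) (fun i => i x) f]
  refine Finset.sum_congr rfl fun v _ => Finset.sum_congr ?_ fun _ _ => rfl
  ext i
  simp only [Finset.mem_filter, mem_PP]
  constructor
  · rintro ⟨h1, h2⟩ y hy
    by_cases hyx : y = x
    · subst hyx; simpa using h2
    · rw [Function.update_of_ne hyx]; exact h1 y (by simp [hyx, hy])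
  · intro h
    refine ⟨fun y hy => ?_, ?_⟩
    · simp only [Finset.mem_insert, not_or] at hy
      have := h y hy.2
      rwa [Function.update_of_ne hy.1] at this
    · simpa using h x hx

lemma sum_PP_update {A I M : Type} [Fintype A] [DecidableEq A] [Fintype I] [AddCommMonoid M]
    (T : Finset A) (x : A) (hx : x ∉ T) (c : A → I) (v : I) (f : (A → I) → M)
    (hf : ∀ i v, f (Function.update i x v) = f i) :
    ∑ i ∈ PP T (Function.update c x v), f i = ∑ i ∈ PP T c, f i := by
  refine Finset.sum_nbij' (fun i => Function.update i x (c x)) (fun i => Function.update i x v)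
    ?_ ?_ ?_ ?_ ?_
  · intro i hi
    rw [mem_PP] at hi ⊢
    intro y hy
    by_cases hyx : y = x
    · subst hyx; simp
    · have := hi y hy
      rw [Function.update_of_ne hyx] at this ⊢
      exact this
  · intro i hi
    rw [mem_PP] at hi ⊢
    intro y hy
    by_cases hyx : y = x
    · subst hyx; simp
    · rw [Function.update_of_ne hyx, Function.update_of_ne hyx]
      exact hi y hy
  · intro i hi
    rw [mem_PP] at hi
    have := hi x hx
    rw [Function.update_self] at this
    simp [← this]
  · intro i hi
    rw [mem_PP] at hi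
    have := hi x hx
    simp [← this]
  · intro i hi
    exact (hf _ _).symm

lemma sum_PP_insert' {A I M : Type} [Fintype A] [DecidableEq A] [Fintype I] [AddCommMonoid M]
    (T : Finset A) (x : A) (hx : x ∉ T) (c : A → I) (f : (A → I) → M) :
    ∑ i ∈ PP (insert x T) c, f i = ∑ i ∈ PP T c, ∑ v : I, f (Function.update i x v) := by
  rw [sum_PP_insert T x hx, Finset.sum_comm]
  refine Finset.sum_congr rfl fun v _ => ?_
  rw [← sum_PP_update T x hx c v (fun i => f (Function.update i x v)) (fun i v' => by simp)]
  refine Finset.sum_congr rfl fun i hi => ?_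
  rw [mem_PP] at hi
  have := hi x hx
  rw [Function.update_self] at this
  subst this
  simp

lemma act_update {A I : Type} [DecidableEq A] {r : ℕ} (u : I → E r) (i : A → I) (x : A) (v : I)
    (w : List A) (hx : x ∉ w) (y : E r) : act u (Function.update i x v) w y = act u i w y := by
  induction w with
  | nil => rfl
  | cons b w ih =>
    simp only [List.mem_cons, not_or] at hx
    have ih := ih hx.2
    unfold act at ih ⊢
    rw [List.foldr_cons, List.foldr_cons, ih, Function.update_of_ne (Ne.symm hx.1)]

lemma act_cons {A I : Type} {r : ℕ} (u : I → E r) (i : A → I) (x : A)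
    (w : List A) (y : E r) :
    act u i (x :: w) y = (inner ℝ (u (i x)) (act u i w y) : ℝ) • u (i x) := rfl

lemma act_lin {A I : Type} {r : ℕ} (u : I → E r) (i : A → I) (w : List A) :
    ∃ L : E r →ₗ[ℝ] E r, ∀ y, act u i w y = L y := by
  induction w with
  | nil => exact ⟨LinearMap.id, fun y => rfl⟩
  | cons b w ih =>
    obtain ⟨L, hL⟩ := ih
    refine ⟨((innerSL ℝ (u (i b))).toLinearMap.smulRight (u (i b))) ∘ₗ L, fun y => ?_⟩
    rw [act_cons, hL]
    simp

section
variable {I : Type} [Fintype I] {r : ℕ} (u : I → E r)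
    (hu : ∀ y : E r, ∑ i, (inner ℝ (u i) y) ^ 2 ≤ ‖y‖ ^ 2)
include hu

lemma comb_le (c : I → ℝ) : ‖∑ i, c i • u i‖ ^ 2 ≤ ∑ i, c i ^ 2 := by
  set s := ∑ i, c i • u i with hs
  have h1 : ‖s‖ ^ 2 = ∑ i, c i * inner ℝ (u i) s := by
    rw [← real_inner_self_eq_norm_sq]
    conv_lhs => rw [hs]
    rw [← hs, sum_inner]
    exact Finset.sum_congr rfl fun i _ => by rw [real_inner_smul_left]
  have h2 : ∑ i, c i * inner ℝ (u i) s ≤ ∑ i, (c i ^ 2 / 2 + (inner ℝ (u i) s) ^ 2 / 2) :=
    Finset.sum_le_sum fun i _ => by nlinarith [sq_nonneg (c i - inner ℝ (u i) s)]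
  rw [Finset.sum_add_distrib, ← Finset.sum_div, ← Finset.sum_div] at h2
  have h3 := hu s
  linarith

lemma inner_le (i : I) (z : E r) : (inner ℝ (u i) z) ^ 2 ≤ ‖z‖ ^ 2 :=
  (Finset.single_le_sum (f := fun i => (inner ℝ (u i) z) ^ 2) (fun i _ => sq_nonneg _)
    (Finset.mem_univ i)).trans (hu z)

lemma unorm (i : I) : ‖u i‖ ^ 2 ≤ 1 := by
  have h := inner_le u hu i (u i)
  rw [real_inner_self_eq_norm_sq] at h
  nlinarith [sq_nonneg ‖u i‖]

lemma E_sq (i : I) (z : E r) : ‖(inner ℝ (u i) z : ℝ) • u i‖ ^ 2 ≤ (inner ℝ (u i) z) ^ 2 := by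
  rw [norm_smul, mul_pow, Real.norm_eq_abs, sq_abs]
  have := unorm u hu i
  nlinarith [sq_nonneg (inner ℝ (u i) z : ℝ)]

end

lemma word {A I : Type} [Fintype A] [DecidableEq A] [Fintype I] {r : ℕ} (u : I → E r)
    (hu : ∀ y : E r, ∑ i, (inner ℝ (u i) y) ^ 2 ≤ ‖y‖ ^ 2) :
    ∀ (w : List A) (T S : Finset A), Disjoint T S → (∀ x ∈ T, x ∈ w) → (∀ x ∈ S, x ∈ w) →
    ∀ (c0 : A → I) (y : E r),
    ∑ c ∈ PP S c0, ‖∑ i ∈ PP T c, act u i w y‖ ^ 2 ≤ ‖y‖ ^ 2 := by
  intro w
  induction w with
  | nil =>
    intro T S _ hT hS c0 y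
    have hT0 : T = ∅ := by
      rw [Finset.eq_empty_iff_forall_notMem]; intro x hx; simpa using hT x hx
    have hS0 : S = ∅ := by
      rw [Finset.eq_empty_iff_forall_notMem]; intro x hx; simpa using hS x hx
    have hP : ∀ c : A → I, PP (∅ : Finset A) c = {c} := by
      intro c
      ext i
      rw [mem_PP, Finset.mem_singleton]
      constructor
      · intro h; funext x; exact h x (by simp)
      · rintro rfl x _; rfl
    subst hT0 hS0
    rw [hP, Finset.sum_singleton, hP, Finset.sum_singleton]
    exact le_refl _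
  | cons x w ih =>
    intro T S hTS hT hS c0 y
    by_cases hxT : x ∈ T
    · obtain ⟨T', hxT', rfl⟩ : ∃ T', x ∉ T' ∧ insert x T' = T :=
        ⟨T.erase x, Finset.notMem_erase x T, Finset.insert_erase hxT⟩
      have hxS : x ∉ S := Finset.disjoint_left.mp hTS hxT
      have hT'S : Disjoint T' S := hTS.mono_left (Finset.subset_insert _ _)
      have hstep : ∀ c : A → I, ∑ i ∈ PP (insert x T') c, act u i (x :: w) y
          = ∑ v : I, (inner ℝ (u v) (∑ i ∈ PP T' (Function.update c x v), act u i w y) : ℝ)
              • u v := by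
        intro c
        rw [sum_PP_insert T' x hxT']
        refine Finset.sum_congr rfl fun v _ => ?_
        rw [inner_sum, Finset.sum_smul]
        refine Finset.sum_congr rfl fun i hi => ?_
        rw [mem_PP] at hi
        have := hi x hxT'
        rw [Function.update_self] at this
        rw [act_cons, this]
      have hT'w : ∀ z ∈ T', z ∈ w := by
        intro z hz
        have h1 := hT z (Finset.mem_insert_of_mem hz)
        rcases List.mem_cons.mp h1 with h1 | h1
        · subst h1; exact absurd hz hxT'
        · exact h1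
      have hSw : ∀ z ∈ S, z ∈ w := by
        intro z hz
        rcases List.mem_cons.mp (hS z hz) with h1 | h1
        · subst h1; exact absurd hz hxS
        · exact h1
      simp_rw [hstep]
      by_cases hxw : x ∈ w
      · have h1 : ∀ c ∈ PP S c0, ‖∑ v : I, (inner ℝ (u v)
            (∑ i ∈ PP T' (Function.update c x v), act u i w y) : ℝ) • u v‖ ^ 2
            ≤ ∑ v : I, ‖∑ i ∈ PP T' (Function.update c x v), act u i w y‖ ^ 2 := by
          intro c _
          exact (comb_le u hu _).trans (Finset.sum_le_sum fun v _ => inner_le u hu v _)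
        refine (Finset.sum_le_sum h1).trans ?_
        rw [← sum_PP_insert' S x hxS c0 (fun c => ‖∑ i ∈ PP T' c, act u i w y‖ ^ 2)]
        refine ih T' (insert x S) ?_ hT'w ?_ c0 y
        · rw [Finset.disjoint_insert_right]; exact ⟨hxT', hT'S⟩
        · intro z hz
          rcases Finset.mem_insert.mp hz with rfl | hz
          · exact hxw
          · exact hSw z hz
      · refine (Finset.sum_le_sum ?_).trans (ih T' S hT'S hT'w hSw c0 y)
        intro c _
        have h2 : ∀ v : I, ∑ i ∈ PP T' (Function.update c x v), act u i w y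
            = ∑ i ∈ PP T' c, act u i w y := fun v =>
          sum_PP_update T' x hxT' c v _ (fun i v' => act_update u i x v' w hxw y)
        simp_rw [h2]
        exact (comb_le u hu _).trans (hu _)
    · have hTw : ∀ z ∈ T, z ∈ w := by
        intro z hz
        rcases List.mem_cons.mp (hT z hz) with h1 | h1
        · subst h1; exact absurd hz hxT
        · exact h1
      have hstep : ∀ c : A → I, ∑ i ∈ PP T c, act u i (x :: w) y
          = (inner ℝ (u (c x)) (∑ i ∈ PP T c, act u i w y) : ℝ) • u (c x) := by
        intro c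
        rw [inner_sum, Finset.sum_smul]
        refine Finset.sum_congr rfl fun i hi => ?_
        rw [mem_PP] at hi
        rw [act_cons, hi x hxT]
      simp_rw [hstep]
      by_cases hc : (∀ z ∈ S, z ∈ w)
      · refine (Finset.sum_le_sum ?_).trans (ih T S hTS hTw hc c0 y)
        intro c _
        exact (E_sq u hu _ _).trans (inner_le u hu _ _)
      · have hxw : x ∉ w := by
          intro hxw
          apply hc
          intro z hz
          rcases List.mem_cons.mp (hS z hz) with h1 | h1
          · rw [h1]; exact hxw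
          · exact h1
        have hxS : x ∈ S := by
          by_contra hxS
          apply hc
          intro z hz
          rcases List.mem_cons.mp (hS z hz) with h1 | h1
          · subst h1; exact absurd hz hxS
          · exact h1
        obtain ⟨S', hxS', rfl⟩ : ∃ S', x ∉ S' ∧ insert x S' = S :=
          ⟨S.erase x, Finset.notMem_erase x S, Finset.insert_erase hxS⟩
        have hS'w : ∀ z ∈ S', z ∈ w := by
          intro z hz
          have h1 := hS z (Finset.mem_insert_of_mem hz)
          rcases List.mem_cons.mp h1 with h1 | h1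
          · subst h1; exact absurd hz hxS'
          · exact h1
        rw [sum_PP_insert' S' x hxS']
        refine (Finset.sum_le_sum ?_).trans (ih T S' (hTS.mono_right (Finset.subset_insert _ _))
          hTw hS'w c0 y)
        intro c _
        have h2 : ∀ v : I, ∑ i ∈ PP T (Function.update c x v), act u i w y
            = ∑ i ∈ PP T c, act u i w y := fun v =>
          sum_PP_update T x hxT c v _ (fun i v' => act_update u i x v' w hxw y)
        simp_rw [h2, Function.update_self]
        exact (Finset.sum_le_sum fun v _ => E_sq u hu v _).trans (hu _)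



theorem closed_word {A I : Type} [Fintype A] [DecidableEq A] [Fintype I] {r : ℕ} (u : I → E r)
    (hu : ∀ y : E r, ∑ i, (inner ℝ (u i) y) ^ 2 ≤ ‖y‖ ^ 2)
    (a : A) (w : List A) (hw : ∀ x, x = a ∨ x ∈ w) :
    |∑ i : A → I, val u i (a, w, a)| ≤ r := by
  rcases isEmpty_or_nonempty (A → I) with hE | ⟨⟨c0⟩⟩
  · simp
  have hop : ∀ y : E r, ‖∑ i : A → I, act u i (a :: w) y‖ ≤ ‖y‖ := by
    intro y
    have h := word u hu (a :: w) Finset.univ ∅ (Finset.disjoint_empty_right _)
      (fun x _ => List.mem_cons.mpr (hw x)) (fun x hx => absurd hx (Finset.notMem_empty x)) c0 y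
    have hP : PP (∅ : Finset A) c0 = {c0} := by
      ext i
      rw [mem_PP, Finset.mem_singleton]
      constructor
      · intro h; funext x; exact h x (by simp)
      · rintro rfl x _; rfl
    have hP2 : PP (Finset.univ : Finset A) c0 = Finset.univ := by
      ext i
      rw [mem_PP]
      simp
    rw [hP, Finset.sum_singleton, hP2] at h
    exact (sq_le_sq₀ (norm_nonneg _) (norm_nonneg _)).mp h
  let b := EuclideanSpace.basisFun (Fin r) ℝ
  have htr : ∀ i : A → I, val u i (a, w, a) = ∑ k, inner ℝ (b k) (act u i (a :: w) (b k)) := by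
    intro i
    obtain ⟨L, hL⟩ := act_lin u i w
    unfold val
    simp only [act_cons, hL, inner_smul_right]
    conv_lhs => rw [← b.sum_repr' (u (i a))]
    rw [map_sum, inner_sum]
    refine Finset.sum_congr rfl fun k _ => ?_
    rw [map_smul, inner_smul_right]
    rw [b.sum_repr' (u (i a))]
    ring
  have h1 : ∑ i : A → I, val u i (a, w, a)
      = ∑ k, inner ℝ (b k) (∑ i : A → I, act u i (a :: w) (b k)) := by
    simp_rw [htr, inner_sum]
    rw [Finset.sum_comm]
  rw [h1]
  refine (Finset.abs_sum_le_sum_abs _ _).trans ?_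
  refine (Finset.sum_le_sum (g := fun _ => (1:ℝ)) fun k _ => ?_).trans (by simp)
  refine (abs_real_inner_le_norm _ _).trans ?_
  have h2 := hop (b k)
  have h3 : ‖b k‖ = 1 := b.orthonormal.1 k
  rw [h3] at h2 ⊢
  linarith

end Pool.Agent.Helper495.NN
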