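import Mathlib
import Pool.Agent.Helper495.NN.Defs
import Pool.Agent.Helper495.NN.ClosedWord

open scoped BigOperators

namespace Pool.Agent.Helper495.NN










theorem act_map' {A B I : Type} {r : ℕ} (u : I → E r) (i : A → I) (f : B → A) (w : List B)
    (y : E r) : act u i (w.map f) y = act u (fun b => i (f b)) w y := by
  unfold act
  rw [List.foldr_map]

theorem act_congr' {A I : Type} {r : ℕ} (u : I → E r) (i j : A → I) (w : List A)
    (h : ∀ x ∈ w, i x = j x) (y : E r) : act u i w y = act u j w y := by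
  induction w with
  | nil => rfl
  | cons a w ih =>
    have := ih (fun x hx => h x (List.mem_cons_of_mem _ hx))
    unfold act at this ⊢
    simp only [List.foldr_cons]
    rw [this, h a List.mem_cons_self]

theorem val_congr' {A I : Type} {r : ℕ} (u : I → E r) (i j : A → I) (τ : A × List A × A)
    (h : ∀ x ∈ lets τ, i x = j x) : val u i τ = val u j τ := by
  unfold val
  rw [act_congr' u i j τ.2.1 (fun x hx => h x (by simp [lets, hx])), h τ.1 (by simp [lets]),
    h τ.2.2 (by simp [lets])]

theorem indep' {A I : Type} [Fintype A] [DecidableEq A] [Fintype I] (B : A → Prop)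
    [DecidablePred B] (F G : (A → I) → ℝ)
    (hF : ∀ i j, (∀ x, B x → i x = j x) → F i = F j)
    (hG : ∀ i j, (∀ x, ¬ B x → i x = j x) → G i = G j) :
    (∑ i, F i * G i) * (Fintype.card (A → I) : ℝ) = (∑ i, F i) * (∑ i, G i) := by
  let s : (A → I) × (A → I) → (A → I) × (A → I) := fun p =>
    (fun x => if B x then p.1 x else p.2 x, fun x => if B x then p.2 x else p.1 x)
  have hs : Function.Involutive s := by
    intro p
    apply Prod.ext
    · funext x
      by_cases hx : B x <;> simp [s, hx]
    · funext x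
      by_cases hx : B x <;> simp [s, hx]
  have h1 : (∑ i, F i) * (∑ i, G i) = ∑ p : (A → I) × (A → I), F p.1 * G p.2 := by
    rw [Fintype.sum_mul_sum, Fintype.sum_prod_type]
  have h2 : ∀ p : (A → I) × (A → I), F p.1 * G p.2 = F (s p).1 * G (s p).1 := by
    intro p
    rw [hF p.1 (s p).1 (fun x hx => by simp [s, hx]), hG p.2 (s p).1 (fun x hx => by simp [s, hx])]
  have h3 : ∑ p : (A → I) × (A → I), F (s p).1 * G (s p).1
      = ∑ p : (A → I) × (A → I), F p.1 * G p.1 :=
    Equiv.sum_comp (Function.Involutive.toPerm s hs) (fun p => F p.1 * G p.1)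
  rw [h1, Finset.sum_congr rfl (fun p _ => h2 p), h3, Fintype.sum_prod_type]
  simp only [Finset.sum_const, Finset.card_univ, nsmul_eq_mul]
  rw [← Finset.mul_sum, mul_comm]

theorem sum_sub0' {A I : Type} [Fintype A] [DecidableEq A] [Fintype I] (p : A → Prop)
    [DecidablePred p] (H : ({x // p x} → I) → ℝ) :
    (∑ i : A → I, H (fun x => i x.1)) * (Fintype.card ({x // p x} → I) : ℝ)
      = (Fintype.card (A → I) : ℝ) * ∑ j, H j := by
  have h1 : ∑ i : A → I, H (fun x => i x.1)
      = ∑ q : ({x // p x} → I) × ({x // ¬ p x} → I), H q.1 := by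
    rw [← Equiv.sum_comp (Equiv.piEquivPiSubtypeProd p (fun _ : A => I)) (fun q => H q.1)]
    rfl
  rw [h1, Fintype.sum_prod_type]
  simp only [Finset.sum_const, Finset.card_univ, nsmul_eq_mul]
  rw [← Finset.mul_sum]
  have h2 : Fintype.card (A → I)
      = Fintype.card ({x // p x} → I) * Fintype.card ({x // ¬ p x} → I) := by
    rw [← Fintype.card_prod]
    exact Fintype.card_congr (Equiv.piEquivPiSubtypeProd p (fun _ : A => I))
  rw [h2]
  push_cast
  ring

theorem sum_sub' {A I : Type} [Fintype A] [DecidableEq A] [Fintype I] (p : A → Prop)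
    [hp : DecidablePred p] [inst : Fintype ({x // p x} → I)] (H : ({x // p x} → I) → ℝ) :
    (∑ i : A → I, H (fun x => i x.1)) * (Fintype.card ({x // p x} → I) : ℝ)
      = (Fintype.card (A → I) : ℝ) * ∑ j, H j := by
  have h := sum_sub0' (A := A) (I := I) p H
  have hi : inst = Pi.instFintype := Subsingleton.elim _ _
  subst hi
  exact h

theorem one_trail' {A I : Type} [Fintype A] [DecidableEq A] [Fintype I] {r : ℕ} (u : I → E r)
    (hu : ∀ y : E r, ∑ i, (inner ℝ (u i) y) ^ 2 ≤ ‖y‖ ^ 2)
    (τ : A × List A × A) (hcl : τ.1 = τ.2.2) :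
    |∑ i : A → I, val u i τ| * (Fintype.card I : ℝ) ^ (lets τ).toFinset.card
      ≤ (Fintype.card (A → I) : ℝ) * r := by
  obtain ⟨a, w, b⟩ := τ
  simp only at hcl
  subst hcl
  have ha : a ∈ lets (a, w, a) := by simp [lets]
  have hwm : ∀ x ∈ w, x ∈ lets (a, w, a) := fun x hx => by simp [lets, hx]
  let a' : {x // x ∈ lets (a, w, a)} := ⟨a, ha⟩
  let w' : List {x // x ∈ lets (a, w, a)} := w.attach.map (fun x => ⟨x.1, hwm x.1 x.2⟩)
  have hw' : w'.map (fun x => x.1) = w := by
    simp only [w', List.map_map]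
    exact List.attach_map_subtype_val w
  have h1 := closed_word (A := {x // x ∈ lets (a, w, a)}) u hu a' w' (by
    rintro ⟨x, hx⟩
    have hx' : x = a ∨ x ∈ w := by simpa [lets] using hx
    rcases hx' with h | h
    · left; exact Subtype.ext h
    · right
      simp only [w', List.mem_map]
      exact ⟨⟨x, h⟩, List.mem_attach _ _, rfl⟩)
  have h2 : ∀ i : A → I, val u i (a, w, a) = val u (fun x : {x // x ∈ lets (a, w, a)} => i x.1)
      (a', w', a') := by
    intro i
    unfold val
    simp only
    rw [← act_map' u i (fun x : {x // x ∈ lets (a, w, a)} => x.1) w', hw']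
  have h3 := sum_sub' (I := I) (fun x => x ∈ lets (a, w, a))
    (fun j => val u j (a', w', a'))
  have hcard : Fintype.card ({x // x ∈ lets (a, w, a)} → I)
      = Fintype.card I ^ (lets (a, w, a)).toFinset.card := by
    rw [← Nat.card_eq_fintype_card, Nat.card_fun, Nat.card_eq_fintype_card,
      Nat.card_eq_fintype_card]
    congr 1
    exact Fintype.card_of_subtype _ (fun x => by simp)
  rw [hcard] at h3
  push_cast at h3
  rw [Finset.sum_congr rfl (fun i _ => h2 i), ← abs_of_nonneg
    (show (0 : ℝ) ≤ (Fintype.card I : ℝ) ^ (lets (a, w, a)).toFinset.card by positivity),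
    ← abs_mul]
  rw [h3, abs_mul, abs_of_nonneg (show (0 : ℝ) ≤ (Fintype.card (A → I) : ℝ) by positivity)]
  exact mul_le_mul_of_nonneg_left h1 (by positivity)

theorem many_trails' {A I : Type} [Fintype A] [DecidableEq A] [Fintype I] [Nonempty I] {r : ℕ}
    (u : I → E r)
    (hu : ∀ y : E r, ∑ i, (inner ℝ (u i) y) ^ 2 ≤ ‖y‖ ^ 2)
    (T : List (A × List A × A)) (hcl : ∀ τ ∈ T, τ.1 = τ.2.2)
    (hdisj : T.Pairwise (fun τ τ' => ∀ x, x ∈ lets τ → x ∉ lets τ')) :
    |∑ i : A → I, (T.map (val u i)).prod|
        * (Fintype.card I : ℝ) ^ (T.map (fun τ => (lets τ).toFinset.card)).sum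
      ≤ (Fintype.card (A → I) : ℝ) * r ^ T.length := by
  induction T with
  | nil => simp
  | cons τ T ih =>
    rw [List.pairwise_cons] at hdisj
    have h1 := ih (fun τ' h => hcl τ' (List.mem_cons_of_mem _ h)) hdisj.2
    have h2 := one_trail' u hu τ (hcl τ List.mem_cons_self)
    have h3 := indep' (I := I) (fun x => x ∈ lets τ) (fun i => val u i τ)
      (fun i => (T.map (val u i)).prod)
      (fun i j h => val_congr' u i j τ h)
      (fun i j h => by
        congr 1
        apply List.map_congr_left
        intro τ' hτ'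
        apply val_congr'
        intro x hx
        apply h
        intro hx'
        exact hdisj.1 τ' hτ' x hx' hx)
    simp only [List.map_cons, List.prod_cons, List.sum_cons, List.length_cons]
    have hN : (0 : ℝ) < (Fintype.card (A → I) : ℝ) := by
      have : 0 < Fintype.card (A → I) := Fintype.card_pos
      exact_mod_cast this
    have h4 : |∑ i : A → I, val u i τ * (T.map (val u i)).prod| * (Fintype.card (A → I) : ℝ)
        = |∑ i : A → I, val u i τ| * |∑ i : A → I, (T.map (val u i)).prod| := by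
      rw [← abs_mul, ← h3, abs_mul, abs_of_pos hN]
    refine le_of_mul_le_mul_right ?_ hN
    calc |∑ i : A → I, val u i τ * (T.map (val u i)).prod|
          * (Fintype.card I : ℝ) ^ ((lets τ).toFinset.card
              + (T.map (fun τ => (lets τ).toFinset.card)).sum) * (Fintype.card (A → I) : ℝ)
        = (|∑ i : A → I, val u i τ| * (Fintype.card I : ℝ) ^ (lets τ).toFinset.card)
          * (|∑ i : A → I, (T.map (val u i)).prod|
            * (Fintype.card I : ℝ) ^ (T.map (fun τ => (lets τ).toFinset.card)).sum) := by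
          rw [pow_add]
          linear_combination ((Fintype.card I : ℝ) ^ (lets τ).toFinset.card
            * (Fintype.card I : ℝ) ^ (T.map (fun τ => (lets τ).toFinset.card)).sum) * h4
      _ ≤ ((Fintype.card (A → I) : ℝ) * r) * ((Fintype.card (A → I) : ℝ) * r ^ T.length) :=
          mul_le_mul h2 h1 (by positivity) (by positivity)
      _ = (Fintype.card (A → I) : ℝ) * r ^ (T.length + 1) * (Fintype.card (A → I) : ℝ) := by
          ring

theorem cover' {A : Type} [DecidableEq A] (T : List (A × List A × A)) (s : Finset A)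
    (h : ∀ x ∈ s, ∃ τ ∈ T, x ∈ lets τ) :
    s.card ≤ (T.map (fun τ => (lets τ).toFinset.card)).sum := by
  induction T generalizing s with
  | nil =>
    have : s = ∅ := by
      rw [Finset.eq_empty_iff_forall_notMem]
      intro x hx
      obtain ⟨τ, hτ, -⟩ := h x hx
      simp at hτ
    simp [this]
  | cons τ T ih =>
    have h1 := ih (s \ (lets τ).toFinset) (by
      intro x hx
      rw [Finset.mem_sdiff] at hx
      obtain ⟨τ', hτ', hx'⟩ := h x hx.1
      rcases List.mem_cons.1 hτ' with rfl | h'
      · exact absurd (List.mem_toFinset.2 hx') hx.2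
      · exact ⟨τ', h', hx'⟩)
    have h2 : s.card ≤ (s \ (lets τ).toFinset).card + (lets τ).toFinset.card := by
      have := Finset.le_card_sdiff (lets τ).toFinset s
      omega
    simp only [List.map_cons, List.sum_cons]
    omega

theorem count' {A : Type} [Fintype A] {r : ℕ}
    (T : List (A × List A × A))
    (hdisj : T.Pairwise (fun τ τ' => ∀ x, x ∈ lets τ → x ∉ lets τ'))
    (hall : ∀ x : A, ∃ τ ∈ T, x ∈ lets τ) :
    r ^ T.length ≤ Nat.card {l : A → Fin r // ∀ τ ∈ T, ∀ x ∈ lets τ, l x = l τ.1} := by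
  classical
  have hex : ∀ x : A, ∃ j : Fin T.length, x ∈ lets (T.get j) := by
    intro x
    obtain ⟨τ, hτ, hx⟩ := hall x
    obtain ⟨j, hj⟩ := List.mem_iff_get.1 hτ
    exact ⟨j, by rw [hj]; exact hx⟩
  choose blk hblk using hex
  rw [List.pairwise_iff_get] at hdisj
  have huniq : ∀ (x : A) (j : Fin T.length), x ∈ lets (T.get j) → blk x = j := by
    intro x j hx
    rcases lt_trichotomy (blk x) j with h | h | h
    · exact absurd hx (hdisj _ _ h x (hblk x))
    · exact h
    · exact absurd (hblk x) (hdisj _ _ h x hx)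
  have hself : ∀ τ : A × List A × A, τ.1 ∈ lets τ := fun τ => by simp [lets]
  let Φ : (Fin T.length → Fin r) → {l : A → Fin r // ∀ τ ∈ T, ∀ x ∈ lets τ, l x = l τ.1} :=
    fun g => ⟨fun x => g (blk x), by
      intro τ hτ x hx
      obtain ⟨j, rfl⟩ := List.mem_iff_get.1 hτ
      show g (blk x) = g (blk (T.get j).1)
      rw [huniq x j hx, huniq _ j (hself _)]⟩
  have hΦ : Function.Injective Φ := by
    intro g g' h
    funext j
    have := congrFun (congrArg Subtype.val h) (T.get j).1
    change g (blk (T.get j).1) = g' (blk (T.get j).1) at this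
    rwa [huniq _ j (hself _)] at this
  have h1 := Nat.card_le_card_of_injective Φ hΦ
  rwa [Nat.card_eq_fintype_card, Fintype.card_fun, Fintype.card_fin, Fintype.card_fin] at h1



theorem disjoint_closed {A I : Type} [Fintype A] [DecidableEq A] [Fintype I] {r : ℕ} (u : I → E r)
    (hu : ∀ y : E r, ∑ i, (inner ℝ (u i) y) ^ 2 ≤ ‖y‖ ^ 2)
    (T : List (A × List A × A)) (hcl : ∀ τ ∈ T, τ.1 = τ.2.2)
    (hdisj : T.Pairwise (fun τ τ' => ∀ x, x ∈ lets τ → x ∉ lets τ'))
    (hall : ∀ x : A, ∃ τ ∈ T, x ∈ lets τ) :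
    |∑ i : A → I, (T.map (val u i)).prod|
      ≤ (Nat.card {l : A → Fin r // ∀ τ ∈ T, ∀ x ∈ lets τ, l x = l τ.1} : ℝ) := by
  have hc := count' (r := r) T hdisj hall
  refine le_trans ?_ (show ((r : ℝ) ^ T.length ≤ _) by exact_mod_cast hc)
  rcases isEmpty_or_nonempty A with hA | hA
  · cases T with
    | nil => simp
    | cons τ T => exact (hA.false τ.1).elim
  rcases isEmpty_or_nonempty I with hI | hI
  · rw [Fintype.sum_empty, abs_zero]
    positivity
  have h1 := many_trails' (I := I) u hu T hcl hdisj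
  have h2 := cover' T (Finset.univ : Finset A) (fun x _ => hall x)
  rw [Finset.card_univ] at h2
  have hI1 : (1 : ℝ) ≤ (Fintype.card I : ℝ) := by
    have : 0 < Fintype.card I := Fintype.card_pos
    exact_mod_cast this
  have hcf : (Fintype.card (A → I) : ℝ) = (Fintype.card I : ℝ) ^ Fintype.card A := by
    rw [Fintype.card_fun]; push_cast; rfl
  rw [hcf] at h1
  have h3 : (Fintype.card I : ℝ) ^ Fintype.card A
      ≤ (Fintype.card I : ℝ) ^ (T.map (fun τ => (lets τ).toFinset.card)).sum :=
    pow_le_pow_right₀ hI1 h2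
  have hpos : (0 : ℝ) < (Fintype.card I : ℝ) ^ Fintype.card A := by positivity
  refine le_of_mul_le_mul_left ?_ hpos
  calc (Fintype.card I : ℝ) ^ Fintype.card A * |∑ i : A → I, (T.map (val u i)).prod|
      ≤ (Fintype.card I : ℝ) ^ (T.map (fun τ => (lets τ).toFinset.card)).sum
        * |∑ i : A → I, (T.map (val u i)).prod| :=
        mul_le_mul_of_nonneg_right h3 (abs_nonneg _)
    _ ≤ _ := by rw [mul_comm]; exact h1

end Pool.Agent.Helper495.NN
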