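import Mathlib
import Pool.Agent.Helper495.NN.Defs
import Pool.Agent.Helper495.NN.DisjointClosed

open scoped BigOperators

namespace Pool.Agent.Helper495.NN










/- helper lemmas for the target -/

theorem mb_act_smul {A I : Type} {r : ℕ} (u : I → E r) (i : A → I) (w : List A) (c : ℝ) (y : E r) :
    act u i w (c • y) = c • act u i w y := by
  induction w with
  | nil => rfl
  | cons x w ih =>
    change (inner ℝ (u (i x)) (act u i w (c • y)) : ℝ) • u (i x) = c • ((inner ℝ (u (i x)) (act u i w y) : ℝ) • u (i x))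
    rw [ih, inner_smul_right, smul_smul]

theorem mb_act_append {A I : Type} {r : ℕ} (u : I → E r) (i : A → I) (w w' : List A) (y : E r) :
    act u i (w ++ w') y = act u i w (act u i w' y) := by
  unfold act
  rw [List.foldr_append]

theorem mb_act_symm {A I : Type} {r : ℕ} (u : I → E r) (i : A → I) (w : List A) (y z : E r) :
    (inner ℝ z (act u i w y) : ℝ) = inner ℝ (act u i w.reverse z) y := by
  induction w generalizing z with
  | nil => rfl
  | cons x w ih =>
    rw [List.reverse_cons, mb_act_append]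
    change (inner ℝ z ((inner ℝ (u (i x)) (act u i w y) : ℝ) • u (i x)) : ℝ) =
      inner ℝ (act u i w.reverse ((inner ℝ (u (i x)) z : ℝ) • u (i x))) y
    rw [inner_smul_right, mb_act_smul, real_inner_smul_left, ih, real_inner_comm z (u (i x))]
    ring

theorem mb_val_rev {A I : Type} {r : ℕ} (u : I → E r) (i : A → I) (a b : A) (w : List A) :
    val u i (a, w, b) = val u i (b, w.reverse, a) := by
  unfold val
  rw [mb_act_symm]
  exact real_inner_comm _ _

theorem mb_val_merge {A I : Type} {r : ℕ} (u : I → E r) (i : A → I) (a b c : A) (w w' : List A) :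
    val u i (a, w ++ b :: w', c) = val u i (a, w, b) * val u i (b, w', c) := by
  unfold val
  simp only
  rw [mb_act_append]
  change (inner ℝ (u (i a)) (act u i w ((inner ℝ (u (i b)) (act u i w' (u (i c))) : ℝ) • u (i b))) : ℝ) = _
  rw [mb_act_smul, inner_smul_right]
  ring

/-- endpoint count -/
def mb_cnt {A : Type} [DecidableEq A] (x : A) (τ : A × List A × A) : ℕ :=
  (if τ.1 = x then 1 else 0) + (if τ.2.2 = x then 1 else 0)

/-- equivalent trails -/
structure mb_Eqv {A I : Type} [DecidableEq A] {r : ℕ} (u : I → E r) (σ σ' : A × List A × A) : Prop where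
  v : ∀ i : A → I, val u i σ = val u i σ'
  l : ∀ x, x ∈ lets σ ↔ x ∈ lets σ'
  c : ∀ x, mb_cnt x σ % 2 = mb_cnt x σ' % 2

theorem mb_Eqv.refl {A I : Type} [DecidableEq A] {r : ℕ} (u : I → E r) (σ : A × List A × A) :
    mb_Eqv u σ σ := ⟨fun _ => rfl, fun _ => Iff.rfl, fun _ => rfl⟩

theorem mb_eqv_rev {A I : Type} [DecidableEq A] {r : ℕ} (u : I → E r) (a b : A) (w : List A) :
    mb_Eqv u (a, w, b) (b, w.reverse, a) := by
  refine ⟨fun i => mb_val_rev u i a b w, fun x => ?_, fun x => ?_⟩
  · simp only [lets, List.mem_cons, List.mem_reverse]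
    tauto
  · simp only [mb_cnt]
    rw [add_comm]

theorem mb_eqv_rot {A I : Type} [DecidableEq A] {r : ℕ} (u : I → E r) (a : A) (w : List A) (x : A)
    (hx : x ∈ lets (a, w, a)) : ∃ v, mb_Eqv u (a, w, a) (x, v, x) := by
  by_cases hxa : x = a
  · subst hxa
    exact ⟨w, mb_Eqv.refl u _⟩
  · have hxw : x ∈ w := by
      simp only [lets, List.mem_cons] at hx
      tauto
    obtain ⟨w1, w2, rfl⟩ := List.append_of_mem hxw
    refine ⟨w2 ++ a :: w1, fun i => ?_, fun y => ?_, fun y => ?_⟩
    · rw [mb_val_merge, mb_val_merge, mul_comm]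
    · simp only [lets, List.mem_cons, List.mem_append]
      tauto
    · simp only [mb_cnt]
      by_cases h1 : a = y <;> by_cases h2 : x = y <;> simp [h1, h2]

/-- constraint of a trail -/
theorem mb_con_iff {A : Type} {r : ℕ} (l : A → Fin r) (τ : A × List A × A) :
    (∀ x ∈ lets τ, l x = l τ.1) ↔ (∀ x ∈ lets τ, ∀ y ∈ lets τ, l x = l y) := by
  constructor
  · intro h x hx y hy
    rw [h x hx, h y hy]
  · intro h x hx
    exact h x hx _ (by simp [lets])

theorem mb_step {A I : Type} [DecidableEq A] {r : ℕ} (u : I → E r)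
    (T T2 : List (A × List A × A)) (τ τ' : A × List A × A) (hT : T.Perm (τ :: τ' :: T2))
    (a b c : A) (w w' : List A) (h1 : mb_Eqv u τ (a, w, b)) (h2 : mb_Eqv u τ' (b, w', c))
    (heven : ∀ x : A, Even ((T.map (mb_cnt x)).sum))
    (hall : ∀ x : A, ∃ τ ∈ T, x ∈ lets τ) :
    ∃ T' : List (A × List A × A), T'.length < T.length ∧
      (∀ i : A → I, (T.map (val u i)).prod = (T'.map (val u i)).prod) ∧
      (∀ x : A, Even ((T'.map (mb_cnt x)).sum)) ∧ (∀ x : A, ∃ τ ∈ T', x ∈ lets τ) ∧
      (∀ l : A → Fin r, (∀ τ ∈ T, ∀ x ∈ lets τ, l x = l τ.1) ↔ (∀ τ ∈ T', ∀ x ∈ lets τ, l x = l τ.1)) := by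
  have hlm : ∀ x, x ∈ lets (a, w ++ b :: w', c) ↔ (x ∈ lets τ ∨ x ∈ lets τ') := by
    intro x
    rw [h1.l x, h2.l x]
    simp only [lets, List.mem_cons, List.mem_append]
    tauto
  refine ⟨(a, w ++ b :: w', c) :: T2, ?_, ?_, ?_, ?_, ?_⟩
  · rw [hT.length_eq]
    simp
  · intro i
    rw [(hT.map (val u i)).prod_eq]
    simp only [List.map_cons, List.prod_cons]
    rw [mb_val_merge, h1.v i, h2.v i]
    ring
  · intro x
    have h := heven x
    rw [(hT.map (mb_cnt x)).sum_eq] at h
    simp only [List.map_cons, List.sum_cons] at h ⊢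
    have c1 := h1.c x
    have c2 := h2.c x
    rw [Nat.even_iff] at h ⊢
    have hm : mb_cnt x (a, w ++ b :: w', c) + 2 * (if b = x then 1 else 0) =
        mb_cnt x (a, w, b) + mb_cnt x (b, w', c) := by
      simp only [mb_cnt]
      ring
    omega
  · intro x
    obtain ⟨σ, hσ, hxσ⟩ := hall x
    have hσ' := hT.mem_iff.1 hσ
    rw [List.mem_cons, List.mem_cons] at hσ'
    rcases hσ' with rfl | rfl | hσ'
    · exact ⟨_, List.mem_cons_self, (hlm x).2 (Or.inl hxσ)⟩
    · exact ⟨_, List.mem_cons_self, (hlm x).2 (Or.inr hxσ)⟩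
    · exact ⟨σ, List.mem_cons_of_mem _ hσ', hxσ⟩
  · intro l
    have hb1 : b ∈ lets τ := (h1.l b).2 (by simp [lets])
    have hb2 : b ∈ lets τ' := (h2.l b).2 (by simp [lets])
    constructor
    · intro h σ hσ
      rw [List.mem_cons] at hσ
      rcases hσ with rfl | hσ
      · have k1 := (mb_con_iff l τ).1 (h τ (hT.mem_iff.2 (by simp)))
        have k2 := (mb_con_iff l τ').1 (h τ' (hT.mem_iff.2 (by simp)))
        have key : ∀ x ∈ lets (a, w ++ b :: w', c), l x = l b := by
          intro x hx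
          rcases (hlm x).1 hx with hx | hx
          · exact k1 x hx b hb1
          · exact k2 x hx b hb2
        intro x hx
        rw [key x hx, key a (by simp [lets])]
      · exact h σ (hT.mem_iff.2 (by simp [hσ]))
    · intro h σ hσ
      have k := (mb_con_iff l (a, w ++ b :: w', c)).1 (h _ List.mem_cons_self)
      have hσ' := hT.mem_iff.1 hσ
      rw [List.mem_cons, List.mem_cons] at hσ'
      rcases hσ' with rfl | rfl | hσ'
      · rw [mb_con_iff]
        intro x hx y hy
        exact k x ((hlm x).2 (Or.inl hx)) y ((hlm y).2 (Or.inl hy))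
      · rw [mb_con_iff]
        intro x hx y hy
        exact k x ((hlm x).2 (Or.inr hx)) y ((hlm y).2 (Or.inr hy))
      · exact h σ (List.mem_cons_of_mem _ hσ')

theorem mb_perm_of_mem {α : Type} {T : List α} {τ : α} (h : τ ∈ T) : ∃ T1, T.Perm (τ :: T1) := by
  obtain ⟨s, t, rfl⟩ := List.append_of_mem h
  exact ⟨s ++ t, List.perm_middle⟩

theorem mb_not_pairwise {α : Type} {R : α → α → Prop} {T : List α} (h : ¬ T.Pairwise R) :
    ∃ τ τ' T2, T.Perm (τ :: τ' :: T2) ∧ ¬ R τ τ' := by
  induction T with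
  | nil => exact absurd List.Pairwise.nil h
  | cons σ T ih =>
    rw [List.pairwise_cons] at h
    by_cases h1 : ∀ a' ∈ T, R σ a'
    · have h2 : ¬ T.Pairwise R := fun h' => h ⟨h1, h'⟩
      obtain ⟨τ, τ', T2, hp, hR⟩ := ih h2
      refine ⟨τ, τ', σ :: T2, ?_, hR⟩
      refine (hp.cons σ).trans ?_
      refine (List.Perm.swap τ σ _).trans ?_
      exact (List.Perm.swap τ' σ _).cons τ
    · push Not at h1
      obtain ⟨τ', hτ', hR⟩ := h1
      obtain ⟨T2, hp⟩ := mb_perm_of_mem hτ'
      exact ⟨σ, τ', T2, hp.cons σ, hR⟩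

theorem mb_even_sum {T : List ℕ} (h : ∀ x ∈ T, Even x) : Even T.sum := by
  induction T with
  | nil => simp
  | cons a T ih =>
    rw [List.sum_cons]
    exact (h a List.mem_cons_self).add (ih (fun x hx => h x (List.mem_cons_of_mem _ hx)))


theorem merge_bound {A I : Type} [Fintype A] [DecidableEq A] [Fintype I] {r : ℕ} (u : I → E r)
    (hu : ∀ y : E r, ∑ i, (inner ℝ (u i) y) ^ 2 ≤ ‖y‖ ^ 2)
    (T : List (A × List A × A))
    (heven : ∀ x : A, Even ((T.map (fun τ => (if τ.1 = x then 1 else 0) + (if τ.2.2 = x then 1 else 0))).sum : ℕ))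
    (hall : ∀ x : A, ∃ τ ∈ T, x ∈ lets τ) :
    |∑ i : A → I, (T.map (val u i)).prod|
      ≤ (Nat.card {l : A → Fin r // ∀ τ ∈ T, ∀ x ∈ lets τ, l x = l τ.1} : ℝ) := by
  have heven' : ∀ x : A, Even ((T.map (mb_cnt x)).sum) := heven
  clear heven
  induction hn : T.length using Nat.strong_induction_on generalizing T with
  | _ n ih =>
    have step : (∃ T' : List (A × List A × A), T'.length < T.length ∧
      (∀ i : A → I, (T.map (val u i)).prod = (T'.map (val u i)).prod) ∧
      (∀ x : A, Even ((T'.map (mb_cnt x)).sum)) ∧ (∀ x : A, ∃ τ ∈ T', x ∈ lets τ) ∧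
      (∀ l : A → Fin r, (∀ τ ∈ T, ∀ x ∈ lets τ, l x = l τ.1) ↔ (∀ τ ∈ T', ∀ x ∈ lets τ, l x = l τ.1))) →
      |∑ i : A → I, (T.map (val u i)).prod|
      ≤ (Nat.card {l : A → Fin r // ∀ τ ∈ T, ∀ x ∈ lets τ, l x = l τ.1} : ℝ) := by
      rintro ⟨T', hlen, hprod, hev, hal, hcon⟩
      have := ih T'.length (by omega) T' hal hev rfl
      rw [Finset.sum_congr rfl (fun i _ => hprod i)]
      rw [Nat.card_congr (Equiv.subtypeEquivRight hcon)]
      exact this
    by_cases hcl : ∀ τ ∈ T, τ.1 = τ.2.2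
    · by_cases hdisj : T.Pairwise (fun τ τ' => ∀ x, x ∈ lets τ → x ∉ lets τ')
      · exact disjoint_closed u hu T hcl hdisj hall
      · apply step
        obtain ⟨τ, τ', T2, hp, hR⟩ := mb_not_pairwise hdisj
        push Not at hR
        obtain ⟨x, hx1, hx2⟩ := hR
        obtain ⟨a, w, a1⟩ := τ
        obtain ⟨b, w', b1⟩ := τ'
        have e1 : a = a1 := hcl (a, w, a1) (hp.mem_iff.2 (by simp))
        have e2 : b = b1 := hcl (b, w', b1) (hp.mem_iff.2 (by simp))
        subst e1
        subst e2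
        obtain ⟨v, hv⟩ := mb_eqv_rot u a w x hx1
        obtain ⟨v', hv'⟩ := mb_eqv_rot u b w' x hx2
        exact mb_step u T T2 _ _ hp x x x v v' hv hv' heven' hall
    · push Not at hcl
      obtain ⟨τ, hτ, hne⟩ := hcl
      obtain ⟨a, w, b⟩ := τ
      simp only at hne
      obtain ⟨T1, hp⟩ := mb_perm_of_mem hτ
      have h := heven' b
      rw [(hp.map (mb_cnt b)).sum_eq] at h
      simp only [List.map_cons, List.sum_cons] at h
      have hc : mb_cnt b (a, w, b) = 1 := by
        simp [mb_cnt, hne]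
      rw [hc] at h
      have hex : ∃ τ' ∈ T1, ¬ Even (mb_cnt b τ') := by
        by_contra hcon
        push Not at hcon
        have : Even ((T1.map (mb_cnt b)).sum) := by
          apply mb_even_sum
          intro y hy
          obtain ⟨τ', hτ', rfl⟩ := List.mem_map.1 hy
          have := hcon τ' hτ'
          simpa using this
        rw [Nat.even_iff] at this h
        omega
      obtain ⟨τ', hτ', hodd⟩ := hex
      obtain ⟨T2, hp2⟩ := mb_perm_of_mem hτ'
      have hp3 : T.Perm ((a, w, b) :: τ' :: T2) := hp.trans (hp2.cons _)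
      apply step
      obtain ⟨c, w', d⟩ := τ'
      by_cases h1 : c = b
      · subst h1
        exact mb_step u T T2 _ _ hp3 a c d w w' (mb_Eqv.refl u _) (mb_Eqv.refl u _) heven' hall
      · by_cases h2 : d = b
        · subst h2
          exact mb_step u T T2 _ _ hp3 a d c w w'.reverse (mb_Eqv.refl u _) (mb_eqv_rev u _ _ _) heven' hall
        · exfalso
          apply hodd
          simp [mb_cnt, h1, h2]

end Pool.Agent.Helper495.NN
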