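import Mathlib
import Pool.Agent.Helper495.NN.Defs
import Pool.Agent.Helper495.NN.MergeBound

open scoped BigOperators

namespace Pool.Agent.Helper495.NN











theorem edges_bound {A I : Type} [Fintype A] [DecidableEq A] [Fintype I] {r m : ℕ} (u : I → E r)
    (hu : ∀ y : E r, ∑ i, (inner ℝ (u i) y) ^ 2 ≤ ‖y‖ ^ 2)
    (a b : Fin m → A)
    (heven : ∀ x : A, Even ((Finset.univ.filter (fun t => a t = x)).card + (Finset.univ.filter (fun t => b t = x)).card))
    (hall : ∀ x : A, ∃ t, a t = x ∨ b t = x) :
    |∑ i : A → I, ∏ t, (inner ℝ (u (i (a t))) (u (i (b t))) : ℝ)|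
      ≤ (Nat.card {l : A → Fin r // ∀ t, l (a t) = l (b t)} : ℝ) := by
  classical
  set T : List (A × List A × A) := List.ofFn (fun t => (a t, ([] : List A), b t)) with hT
  have hprod : ∀ i : A → I, (T.map (val u i)).prod =
      ∏ t, (inner ℝ (u (i (a t))) (u (i (b t))) : ℝ) := by
    intro i
    rw [hT, List.map_ofFn, List.prod_ofFn]
    rfl
  have heven' : ∀ x : A, Even ((T.map (fun τ => (if τ.1 = x then 1 else 0) +
      (if τ.2.2 = x then 1 else 0))).sum : ℕ) := by
    intro x
    rw [hT, List.map_ofFn, List.sum_ofFn]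
    have h := heven x
    rw [Finset.card_filter, Finset.card_filter, ← Finset.sum_add_distrib] at h
    exact h
  have hall' : ∀ x : A, ∃ τ ∈ T, x ∈ lets τ := by
    intro x
    obtain ⟨t, ht⟩ := hall x
    refine ⟨(a t, [], b t), ?_, ?_⟩
    · rw [hT, List.mem_ofFn]
      exact ⟨t, rfl⟩
    · unfold lets
      rcases ht with h | h
      · simp [h]
      · simp [h]
  have hmain := merge_bound u hu T heven' hall'
  have hcard : (Nat.card {l : A → Fin r // ∀ τ ∈ T, ∀ x ∈ lets τ, l x = l τ.1} : ℝ) =
      (Nat.card {l : A → Fin r // ∀ t, l (a t) = l (b t)} : ℝ) := by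
    congr 1
    apply Nat.card_congr
    apply Equiv.subtypeEquivRight
    intro l
    constructor
    · intro h t
      have h1 := h (a t, [], b t) (by rw [hT, List.mem_ofFn]; exact ⟨t, rfl⟩) (b t)
        (by simp [lets])
      exact h1.symm
    · intro h τ hτ x hx
      rw [hT, List.mem_ofFn] at hτ
      obtain ⟨t, rfl⟩ := hτ
      simp only [lets, List.mem_cons, List.not_mem_nil, or_false] at hx
      rcases hx with hx | hx
      · rw [hx]
      · rw [hx]
        exact (h t).symm
  rw [hcard] at hmain
  simp_rw [hprod] at hmain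
  exact hmain

end Pool.Agent.Helper495.NN
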