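import Mathlib
import Pool.Agent.Helper495.NN.Defs
import Pool.Agent.Helper495.NN.EdgesBound

open scoped BigOperators

namespace Pool.Agent.Helper495.NN










theorem euler_avg_card {r L p : ℕ} (α : Pos p → Fin L) :
    Nat.card {l : {x : Fin L // x ∈ Set.range α} → Fin r //
      ∀ t : Fin (p + 1), l ⟨α (t, false), (t, false), rfl⟩ = l ⟨α (t, true), (t, true), rfl⟩} ≤
    Nat.card {l : Fin (p + 1) → Fin r // Finer α (fun x => l x.1)} := by
  have hx : ∀ (l : {x : Fin L // x ∈ Set.range α} → Fin r),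
      (∀ t : Fin (p + 1), l ⟨α (t, false), (t, false), rfl⟩ = l ⟨α (t, true), (t, true), rfl⟩) →
      ∀ x : Pos p, l ⟨α x, x, rfl⟩ = l ⟨α (x.1, false), (x.1, false), rfl⟩ := by
    rintro l hl ⟨t, b⟩
    cases b
    · rfl
    · exact (hl t).symm
  apply Nat.card_le_card_of_injective (fun l =>
    (⟨fun t => l.1 ⟨α (t, false), (t, false), rfl⟩, by
      intro x y hxy
      show l.1 ⟨α (x.1, false), (x.1, false), rfl⟩ = l.1 ⟨α (y.1, false), (y.1, false), rfl⟩
      rw [← hx l.1 l.2 x, ← hx l.1 l.2 y]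
      exact congrArg l.1 (Subtype.mk_eq_mk.2 hxy)⟩ : {l : Fin (p + 1) → Fin r // Finer α (fun x => l x.1)}))
  intro l1 l2 h
  apply Subtype.ext
  funext x
  obtain ⟨x, y, rfl⟩ := x
  rw [hx l1.1 l1.2 y, hx l2.1 l2.2 y]
  exact congrFun (Subtype.ext_iff.1 h) y.1

theorem euler_avg_avg {n L : ℕ} (hn : 0 < n) (q : Fin L → Prop) [DecidablePred q]
    (F : ({x : Fin L // q x} → Fin n) → ℝ) :
    avg (fun i : Fin L → Fin n => F (fun x => i x.1)) =
      (1 / (n : ℝ)) ^ (Fintype.card {x : Fin L // q x}) * ∑ j : {x : Fin L // q x} → Fin n, F j := by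
  unfold avg
  rw [← (Equiv.piEquivPiSubtypeProd q (fun _ => Fin n)).symm.sum_comp, Fintype.sum_prod_type]
  have h1 : ∀ (j : {x : Fin L // q x} → Fin n) (k : {x : Fin L // ¬ q x} → Fin n),
      F (fun x => ((Equiv.piEquivPiSubtypeProd q (fun _ => Fin n)).symm (j, k)) x.1) = F j := by
    intro j k
    congr 1
    funext x
    simp [Equiv.piEquivPiSubtypeProd, x.2]
  simp only [h1, Finset.sum_const, Finset.card_univ, nsmul_eq_mul]
  rw [← Finset.mul_sum]
  have hn' : (n : ℝ) ≠ 0 := by exact_mod_cast hn.ne'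
  have hc : Fintype.card {x : Fin L // q x} + Fintype.card {x : Fin L // ¬ q x} = L := by
    have := Fintype.card_subtype_compl q
    have h2 := Fintype.card_subtype_le q
    rw [Fintype.card_fin] at this h2
    omega
  simp only [Fintype.card_pi, Fintype.card_fin, Finset.prod_const, Finset.card_univ]
  push_cast
  have h3 : (n : ℝ) ^ L = (n : ℝ) ^ (Fintype.card {x : Fin L // q x})
      * (n : ℝ) ^ (Fintype.card {x : Fin L // ¬ q x}) := by
    rw [← pow_add, hc]
  rw [h3, one_div, inv_pow]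
  field_simp


theorem euler_avg {n r L p : ℕ} (hn : 0 < n) (u : Fin n → E r)
    (hu : ∀ y : E r, ∑ i, (inner ℝ (u i) y) ^ 2 ≤ ‖y‖ ^ 2)
    (α : Pos p → Fin L) (hα : EvenF α) :
    |avg (fun i : Fin L → Fin n => ∏ t : Fin (p + 1), inner ℝ (u (i (α (t, false)))) (u (i (α (t, true)))))|
      ≤ (Nat.card {l : Fin (p + 1) → Fin r // Finer α (fun x => l x.1)} : ℝ)
        * (1 / (n : ℝ)) ^ (im α) := by
  classical
  set q : Fin L → Prop := fun x => x ∈ Set.range α with hq
  let a : Fin (p + 1) → {x : Fin L // q x} := fun t => ⟨α (t, false), (t, false), rfl⟩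
  let b : Fin (p + 1) → {x : Fin L // q x} := fun t => ⟨α (t, true), (t, true), rfl⟩
  have h1 := euler_avg_avg hn q (fun j : {x : Fin L // q x} → Fin n =>
    ∏ t : Fin (p + 1), (inner ℝ (u (j (a t))) (u (j (b t))) : ℝ))
  have h2 : avg (fun i : Fin L → Fin n => ∏ t : Fin (p + 1),
      (inner ℝ (u (i (α (t, false)))) (u (i (α (t, true)))) : ℝ))
      = (1 / (n : ℝ)) ^ (Fintype.card {x : Fin L // q x}) * ∑ j : {x : Fin L // q x} → Fin n,
        ∏ t : Fin (p + 1), (inner ℝ (u (j (a t))) (u (j (b t))) : ℝ) := by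
    have hi : (Set.fintypeRange α : Fintype {x : Fin L // q x}) = Subtype.fintype q := Subsingleton.elim _ _
    rw [hi]
    exact h1
  rw [h2]
  have him : im α = Fintype.card {x : Fin L // q x} := by
    unfold im
    rw [Nat.card_eq_fintype_card]
  have hb := edges_bound u hu a b ?_ ?_
  · rw [abs_mul, abs_of_nonneg (by positivity : (0:ℝ) ≤ (1 / (n : ℝ)) ^ (Fintype.card {x : Fin L // q x})),
      him, mul_comm]
    apply mul_le_mul_of_nonneg_right _ (by positivity)
    refine hb.trans ?_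
    have := euler_avg_card (r := r) α
    exact_mod_cast this
  · intro x
    have hx := hα x.1
    rw [Nat.card_eq_fintype_card, Fintype.card_subtype, Finset.card_filter, Fintype.sum_prod_type] at hx
    simp only [Fintype.sum_bool, Finset.sum_add_distrib] at hx
    rw [← Finset.card_filter, ← Finset.card_filter] at hx
    have e1 : (Finset.univ.filter (fun t => a t = x)) = (Finset.univ.filter (fun t => α (t, false) = x.1)) := by
      ext t; simp [a, Subtype.ext_iff]
    have e2 : (Finset.univ.filter (fun t => b t = x)) = (Finset.univ.filter (fun t => α (t, true) = x.1)) := by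
      ext t; simp [b, Subtype.ext_iff]
    rw [e1, e2, add_comm]
    exact hx
  · rintro ⟨x, ⟨t, bb⟩, rfl⟩
    refine ⟨t, ?_⟩
    cases bb
    · left; rfl
    · right; rfl

end Pool.Agent.Helper495.NN
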