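import Mathlib
import Pool.Agent.Helper495.NN.Defs

open scoped BigOperators

namespace Pool.Agent.Helper495.NN




open scoped Matrix.Norms.L2Operator in
theorem norm_trace_aux {r : ℕ} (M : Matrix (Fin r) (Fin r) ℝ) (p : ℕ) :
    ‖Matrix.toEuclideanCLM (n := Fin r) (𝕜 := ℝ) M‖ ^ (2 * (p + 1)) ≤
      Matrix.trace ((M * M.transpose) ^ (p + 1)) := by
  have hct : M.transpose = M.conjTranspose := by
    ext i j; simp [Matrix.conjTranspose_apply]
  rw [hct, Matrix.l2_opNorm_toEuclideanCLM]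
  have hps : (M * M.conjTranspose).PosSemidef := Matrix.posSemidef_self_mul_conjTranspose M
  have hA := hps.isHermitian
  have hn : ‖M‖ ^ 2 = ‖M * M.conjTranspose‖ := by
    have := CStarRing.norm_self_mul_star (x := M)
    rw [Matrix.star_eq_conjTranspose] at this
    rw [this, sq]
  rw [pow_mul, hn]
  set A := M * M.conjTranspose with hAdef
  have hspec := hA.spectral_theorem
  set U := hA.eigenvectorUnitary
  have e1 : ‖A‖ = ‖(hA.eigenvalues : Fin r → ℝ)‖ := by
    conv_lhs => rw [hspec]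
    have hU2 : star (U : Matrix (Fin r) (Fin r) ℝ) ∈ unitary (Matrix (Fin r) (Fin r) ℝ) :=
      (star U).2
    rw [Unitary.conjStarAlgAut_apply, CStarRing.norm_mul_mem_unitary _ hU2,
      CStarRing.norm_mem_unitary_mul _ U.2, Matrix.l2_opNorm_diagonal]
    rfl
  have e2 : Matrix.trace (A ^ (p + 1)) = ∑ i, (hA.eigenvalues i) ^ (p + 1) := by
    conv_lhs => rw [hspec]
    rw [← map_pow, Matrix.diagonal_pow, Unitary.conjStarAlgAut_apply, Matrix.trace_mul_cycle]
    simp [Matrix.trace_diagonal]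
  rw [e1, e2]
  have hnn : ∀ i, 0 ≤ hA.eigenvalues i := fun i => hps.eigenvalues_nonneg i
  have hbd : ‖(hA.eigenvalues : Fin r → ℝ)‖ ^ (p + 1) ≤ ∑ i, (hA.eigenvalues i) ^ (p + 1) := by
    rcases isEmpty_or_nonempty (Fin r) with h | h
    · have : ‖(hA.eigenvalues : Fin r → ℝ)‖ = 0 := by
        rw [norm_eq_zero]; exact Subsingleton.elim _ _
      rw [this]; simp
    · obtain ⟨i, hi⟩ := Finite.exists_max hA.eigenvalues
      have h1 : ‖(hA.eigenvalues : Fin r → ℝ)‖ ≤ hA.eigenvalues i := by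
        rw [pi_norm_le_iff_of_nonneg (hnn i)]
        intro j
        rw [Real.norm_eq_abs, abs_of_nonneg (hnn j)]
        exact hi j
      calc ‖(hA.eigenvalues : Fin r → ℝ)‖ ^ (p + 1) ≤ (hA.eigenvalues i) ^ (p + 1) :=
            pow_le_pow_left₀ (norm_nonneg _) h1 _
        _ ≤ _ := Finset.single_le_sum (f := fun i => hA.eigenvalues i ^ (p + 1))
            (fun j _ => pow_nonneg (hnn j) _) (Finset.mem_univ i)
  exact hbd


theorem norm_trace {P : Type} [Fintype P] {r : ℕ} (Z Z' : P → E r) (p : ℕ) (M : Matrix (Fin r) (Fin r) ℝ)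
    (hM : ∀ c d, M c d = ∑ q, Z q c * Z' q d) :
    ‖Bop Z Z'‖ ^ (2 * (p + 1)) ≤ Matrix.trace ((M * M.transpose) ^ (p + 1)) := by
  have h : Bop Z Z' = Matrix.toEuclideanCLM (n := Fin r) (𝕜 := ℝ) M := by
    ext y c
    have h1 : (Matrix.toEuclideanCLM (n := Fin r) (𝕜 := ℝ) M y) c = ∑ d, M c d * y d := rfl
    rw [h1]
    unfold Bop
    rw [sum_apply]
    simp only [ContinuousLinearMap.smulRight_apply, innerSL_apply_apply]
    rw [WithLp.ofLp_sum, Finset.sum_apply]
    simp only [PiLp.smul_apply, smul_eq_mul, PiLp.inner_apply, hM]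
    simp only [Finset.sum_mul]
    rw [Finset.sum_comm]
    apply Finset.sum_congr rfl
    intro d _
    apply Finset.sum_congr rfl
    intro q _
    simp
    ring
  rw [h]
  exact norm_trace_aux M p

end Pool.Agent.Helper495.NN
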