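import Mathlib
import Pool.Agent.Helper495.NN.Defs

open scoped BigOperators

namespace Pool.Agent.Helper495.NN




lemma avg_ind {X P : Type} [Fintype X] [Fintype P] [DecidableEq P] [Nonempty P] {L : ℕ}
    (α : X → Fin L) (g : X → P) :
    avg (fun ρ : Fin L → P => if (∀ x, ρ (α x) = g x) then (1:ℝ) else 0) =
      @ite _ (Finer α g) (Classical.propDecidable _) ((1 / (Fintype.card P : ℝ)) ^ im α) 0 := by
  classical
  by_cases hF : Finer α g
  · rw [if_pos hF]
    -- extend g to the labels
    obtain ⟨g', hg'⟩ : ∃ g' : Fin L → P, ∀ x, g' (α x) = g x := by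
      refine ⟨fun l => if h : ∃ x, α x = l then g h.choose else Classical.arbitrary P, fun x => ?_⟩
      have h : ∃ y, α y = α x := ⟨x, rfl⟩
      simp only [dif_pos h]
      exact hF _ _ h.choose_spec
    have h1 : ∀ ρ : Fin L → P, (if (∀ x, ρ (α x) = g x) then (1:ℝ) else 0) =
        ∏ l, (if l ∈ Set.range α then (if ρ l = g' l then (1:ℝ) else 0) else 1) := by
      intro ρ
      by_cases h : ∀ x, ρ (α x) = g x
      · rw [if_pos h, Finset.prod_eq_one]
        intro l _
        by_cases hl : l ∈ Set.range α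
        · rw [if_pos hl]
          obtain ⟨x, rfl⟩ := hl
          rw [if_pos (by rw [h x, hg' x])]
        · rw [if_neg hl]
      · rw [if_neg h]
        push Not at h
        obtain ⟨x, hx⟩ := h
        symm
        apply Finset.prod_eq_zero (Finset.mem_univ (α x))
        rw [if_pos ⟨x, rfl⟩, if_neg (by rw [hg' x]; exact hx)]
    have h2 : ∑ ρ : Fin L → P, ∏ l,
        (if l ∈ Set.range α then (if ρ l = g' l then (1:ℝ) else 0) else 1) =
        ∏ l : Fin L, ∑ p : P, (if l ∈ Set.range α then (if p = g' l then (1:ℝ) else 0) else 1) := by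
      rw [Finset.prod_univ_sum, Fintype.piFinset_univ]
    have h3 : ∀ l : Fin L, ∑ p : P, (if l ∈ Set.range α then (if p = g' l then (1:ℝ) else 0) else 1)
        = if l ∈ Set.range α then 1 else (Fintype.card P : ℝ) := by
      intro l
      by_cases hl : l ∈ Set.range α
      · simp [hl]
      · simp [hl]
    have hN : (Fintype.card P : ℝ) ≠ 0 := by
      exact_mod_cast Fintype.card_ne_zero
    unfold avg
    simp_rw [h1]
    rw [h2]
    simp_rw [h3]
    have hcard : ((Fintype.card (Fin L → P) : ℕ) : ℝ) = ∏ l : Fin L, (Fintype.card P : ℝ) := by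
      simp
    rw [hcard, ← Finset.prod_div_distrib]
    have h4 : ∀ l : Fin L, ((if l ∈ Set.range α then 1 else (Fintype.card P : ℝ)) / Fintype.card P) =
        if l ∈ Set.range α then 1 / (Fintype.card P : ℝ) else 1 := by
      intro l
      by_cases hl : l ∈ Set.range α
      · rw [if_pos hl, if_pos hl]
      · rw [if_neg hl, if_neg hl, div_self hN]
    simp_rw [h4]
    rw [Finset.prod_ite, Finset.prod_const_one, mul_one, Finset.prod_const]
    congr 1
    unfold im
    rw [Nat.card_eq_fintype_card, ← Set.toFinset_card]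
    congr 1
    ext l
    simp
  · rw [if_neg hF]
    have h0 : ∀ ρ : Fin L → P, (if (∀ x, ρ (α x) = g x) then (1:ℝ) else 0) = 0 := by
      intro ρ
      rw [if_neg]
      intro h
      apply hF
      intro x y hxy
      rw [← h x, ← h y, hxy]
    unfold avg
    simp [h0]


theorem rho_avg {X P : Type} [Fintype X] [Fintype P] [DecidableEq P] [Nonempty P] {L : ℕ}
    (α β : X → Fin L) :
    avg (fun ρ : Fin L → P => avg (fun ρ' : Fin L → P =>
        ∏ x, (if ρ (α x) = ρ' (β x) then (1:ℝ) else 0)))
      = (Nat.card {g : X → P // Finer α g ∧ Finer β g} : ℝ)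
        * (1 / (Fintype.card P : ℝ)) ^ (im α + im β) := by
  classical
  have h1 : ∀ ρ ρ' : Fin L → P, ∏ x, (if ρ (α x) = ρ' (β x) then (1:ℝ) else 0) =
      ∑ g : X → P, (if (∀ x, ρ (α x) = g x) then (1:ℝ) else 0) *
        (if (∀ x, ρ' (β x) = g x) then (1:ℝ) else 0) := by
    intro ρ ρ'
    rw [Finset.sum_eq_single (fun x => ρ (α x))]
    · rw [if_pos (fun _ => rfl), one_mul]
      by_cases h : ∀ x, ρ' (β x) = ρ (α x)
      · rw [if_pos h, Finset.prod_eq_one]
        intro x _
        rw [if_pos (h x).symm]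
      · rw [if_neg h]
        push Not at h
        obtain ⟨x, hx⟩ := h
        apply Finset.prod_eq_zero (Finset.mem_univ x)
        rw [if_neg (fun h => hx h.symm)]
    · intro g _ hg
      rw [if_neg, zero_mul]
      intro h
      exact hg (funext fun x => (h x).symm)
    · intro h
      exact absurd (Finset.mem_univ _) h
  have h2 : avg (fun ρ : Fin L → P => avg (fun ρ' : Fin L → P =>
        ∏ x, (if ρ (α x) = ρ' (β x) then (1:ℝ) else 0))) =
      ∑ g : X → P, avg (fun ρ : Fin L → P => if (∀ x, ρ (α x) = g x) then (1:ℝ) else 0) *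
        avg (fun ρ : Fin L → P => if (∀ x, ρ (β x) = g x) then (1:ℝ) else 0) := by
    unfold avg
    simp_rw [h1]
    have e1 : ∀ ρ : Fin L → P, (∑ ρ' : Fin L → P, ∑ g : X → P,
        (if (∀ x, ρ (α x) = g x) then (1:ℝ) else 0) * (if (∀ x, ρ' (β x) = g x) then (1:ℝ) else 0)) =
        ∑ g : X → P, (if (∀ x, ρ (α x) = g x) then (1:ℝ) else 0) *
          ∑ ρ' : Fin L → P, (if (∀ x, ρ' (β x) = g x) then (1:ℝ) else 0) := by
      intro ρ
      rw [Finset.sum_comm]
      apply Finset.sum_congr rfl
      intro g _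
      rw [Finset.mul_sum]
    simp_rw [e1]
    rw [← Finset.sum_div, Finset.sum_comm]
    simp_rw [← Finset.sum_mul]
    rw [div_div, Finset.sum_div]
    apply Finset.sum_congr rfl
    intro g _
    rw [div_mul_div_comm]
  rw [h2]
  simp_rw [avg_ind]
  have h3 : ∀ g : X → P, (if Finer α g then (1 / (Fintype.card P : ℝ)) ^ im α else 0) *
      (if Finer β g then (1 / (Fintype.card P : ℝ)) ^ im β else 0) =
      if (Finer α g ∧ Finer β g) then (1 / (Fintype.card P : ℝ)) ^ (im α + im β) else 0 := by
    intro g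
    by_cases ha : Finer α g <;> by_cases hb : Finer β g <;> simp [ha, hb, pow_add]
  simp_rw [h3]
  rw [← Finset.sum_filter, Finset.sum_const, nsmul_eq_mul]
  congr 1
  rw [Nat.card_eq_fintype_card, Fintype.card_subtype]

end Pool.Agent.Helper495.NN
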