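import Mathlib
import Pool.Agent.Helper495.NN.Defs

open scoped BigOperators

namespace Pool.Agent.Helper495.NN





theorem sign_avg {X : Type} [Fintype X] {L : ℕ} (α : X → Fin L) [Decidable (EvenF α)] :
    avg (fun σ : Fin L → Bool => ∏ x, sgn (σ (α x))) = if EvenF α then 1 else 0 := by
  classical
  obtain ⟨m, hm⟩ : ∃ m : Fin L → ℕ, m = fun a => (Finset.univ.filter (fun x : X => α x = a)).card :=
    ⟨_, rfl⟩
  have hmN : ∀ a, Nat.card {x : X // α x = a} = m a := by
    intro a
    rw [hm, Nat.card_eq_fintype_card, Fintype.card_subtype]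
  have h1 : ∀ σ : Fin L → Bool, ∏ x, sgn (σ (α x)) = ∏ a, sgn (σ a) ^ m a := by
    intro σ
    rw [← Finset.prod_fiberwise' (s := Finset.univ) (g := α) (f := fun a => sgn (σ a))]
    refine Finset.prod_congr rfl fun a _ => ?_
    rw [Finset.prod_const, hm]
  have h2 : ∑ σ : Fin L → Bool, ∏ a, sgn (σ a) ^ m a = ∏ a, ∑ b : Bool, sgn b ^ m a := by
    rw [Finset.prod_univ_sum, Fintype.piFinset_univ]
  have h3 : ∀ a, ∑ b : Bool, sgn b ^ m a = if Even (m a) then 2 else 0 := by
    intro a
    rw [Fintype.sum_bool]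
    simp only [sgn, if_true, one_pow, Bool.false_eq_true, if_false]
    split_ifs with h
    · rw [h.neg_one_pow]; norm_num
    · rw [(Nat.not_even_iff_odd.1 h).neg_one_pow]; norm_num
  unfold avg
  simp only [h1]
  rw [h2]
  simp only [h3]
  have hc : (Fintype.card (Fin L → Bool) : ℝ) = 2 ^ L := by simp
  rw [hc]
  split_ifs with h
  · have : ∀ a, Even (m a) := fun a => by rw [← hmN a]; exact h a
    simp only [this, if_true, Finset.prod_const, Finset.card_univ, Fintype.card_fin]
    exact div_self (by positivity)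
  · have : ∃ a, ¬ Even (m a) := by
      by_contra h'
      push Not at h'
      exact h fun a => by rw [hmN a]; exact h' a
    obtain ⟨a, ha⟩ := this
    rw [Finset.prod_eq_zero (Finset.mem_univ a) (if_neg ha), zero_div]

end Pool.Agent.Helper495.NN
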