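import Mathlib
import Pool.Agent.Helper495.NN.Defs

open scoped BigOperators

namespace Pool.Agent.Helper495.NN




theorem cyc_cons_snoc {ι : Type} {n : ℕ} (k j : ι) (x : Fin n → ι) (t : Fin (n + 1)) :
    (Fin.snoc (Fin.cons k x : Fin (n + 1) → ι) j : Fin (n + 2) → ι) t.succ =
      (Fin.snoc x j : Fin (n + 1) → ι) t := by
  have := Fin.cons_snoc_eq_snoc_cons (β := ι) k x j
  rw [← this]
  rfl

theorem pow_entry {ι : Type} [Fintype ι] [DecidableEq ι] (W : Matrix ι ι ℝ) (n : ℕ) : ∀ (i j : ι),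
    (W ^ (n + 1)) i j = ∑ x : Fin n → ι, ∏ t : Fin (n + 1),
      W ((Fin.cons i x : Fin (n + 1) → ι) t) ((Fin.snoc x j : Fin (n + 1) → ι) t) := by
  induction n with
  | zero =>
    intro i j
    rw [Fintype.sum_unique]
    simp [Fin.snoc]
  | succ n ih =>
    intro i j
    rw [pow_succ', Matrix.mul_apply]
    simp only [ih]
    rw [← (Fin.consEquiv (fun _ : Fin (n + 1) => ι)).sum_comp, Fintype.sum_prod_type]
    refine Finset.sum_congr rfl fun k _ => ?_
    rw [Finset.mul_sum]
    refine Finset.sum_congr rfl fun x _ => ?_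
    rw [Fin.prod_univ_succ (n := n + 1)]
    have h1 : ∀ t : Fin (n + 1), (Fin.snoc ((Fin.consEquiv (fun _ : Fin (n + 1) => ι)) (k, x)) j :
        Fin (n + 2) → ι) t.succ = (Fin.snoc x j : Fin (n + 1) → ι) t := fun t => cyc_cons_snoc k j x t
    have h2 : (Fin.snoc ((Fin.consEquiv (fun _ : Fin (n + 1) => ι)) (k, x)) j :
        Fin (n + 2) → ι) 0 = k := by
      show (Fin.snoc (Fin.cons k x : Fin (n + 1) → ι) j : Fin (n + 2) → ι) 0 = k
      rw [← Fin.cons_snoc_eq_snoc_cons (β := ι) k x j]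
      rfl
    rw [h2]
    congr 1
    refine Finset.prod_congr rfl fun t _ => ?_
    rw [h1]
    rfl

theorem trace_pow {ι : Type} [Fintype ι] [DecidableEq ι] (W : Matrix ι ι ℝ) (p : ℕ) :
    Matrix.trace (W ^ (p + 1)) = ∑ y : Fin (p + 1) → ι, ∏ t : Fin (p + 1), W (y t) (y (t + 1)) := by
  rw [Matrix.trace, ← (Fin.consEquiv (fun _ : Fin (p + 1) => ι)).sum_comp, Fintype.sum_prod_type]
  refine Finset.sum_congr rfl fun i _ => ?_
  rw [Matrix.diag_apply, pow_entry]
  refine Finset.sum_congr rfl fun x _ => ?_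
  refine Finset.prod_congr rfl fun t _ => ?_
  congr 1
  show (Fin.snoc x i : Fin (p + 1) → ι) t = (Fin.cons i x : Fin (p + 1) → ι) (t + 1)
  refine Fin.lastCases ?_ (fun s => ?_) t
  · rw [Fin.snoc_last, Fin.last_add_one]; rfl
  · rw [Fin.snoc_castSucc, Fin.coeSucc_eq_succ]; rfl

/-- functions on positions -/
def posE (p : ℕ) (ι : Type) : (Fin (p + 1) → ι) × (Fin (p + 1) → ι) ≃ (Pos p → ι) where
  toFun q := fun x => if x.2 then q.2 x.1 else q.1 x.1
  invFun α := (fun t => α (t, false), fun t => α (t, true))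
  left_inv q := rfl
  right_inv α := by
    funext x
    obtain ⟨t, b⟩ := x
    cases b <;> rfl


theorem trace_expand {L r p : ℕ} (c : Fin L → Fin L → ℝ) (U V : Fin L → E r)
    (M : Matrix (Fin r) (Fin r) ℝ) (hM : ∀ x y, M x y = ∑ a, ∑ b, c a b * U a x * V b y) :
    Matrix.trace ((M * M.transpose) ^ (p + 1))
      = ∑ α : Pos p → Fin L, ∑ β : Pos p → Fin L, (∏ x, c (α x) (β x))
        * (∏ t : Fin (p + 1), inner ℝ (U (α (t, true))) (U (α (t + 1, false))))
        * ∏ t : Fin (p + 1), inner ℝ (V (β (t, false))) (V (β (t, true))) := by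
  let Um : Matrix (Fin L) (Fin r) ℝ := fun a x => U a x
  let Vm : Matrix (Fin L) (Fin r) ℝ := fun a x => V a x
  let C : Matrix (Fin L) (Fin L) ℝ := c
  have hMm : M = Um.transpose * (C * Vm) := by
    ext x y
    rw [hM, Matrix.mul_apply]
    refine Finset.sum_congr rfl fun a _ => ?_
    rw [Matrix.mul_apply, Finset.mul_sum]
    refine Finset.sum_congr rfl fun b _ => ?_
    show c a b * U a x * V b y = U a x * (c a b * V b y)
    ring
  have hcyc : ∀ (A : Matrix (Fin r) (Fin L) ℝ) (B : Matrix (Fin L) (Fin r) ℝ) (n : ℕ),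
      Matrix.trace ((A * B) ^ (n + 1)) = Matrix.trace ((B * A) ^ (n + 1)) := by
    intro A B n
    have : ∀ n : ℕ, (A * B) ^ n * A = A * (B * A) ^ n := by
      intro n
      induction n with
      | zero => simp
      | succ n ih => rw [pow_succ', pow_succ', Matrix.mul_assoc, ih]; simp only [Matrix.mul_assoc]
    rw [pow_succ, ← Matrix.mul_assoc, this, Matrix.mul_assoc, Matrix.trace_mul_comm, Matrix.mul_assoc,
      pow_succ]
  have hW : M * M.transpose = Um.transpose * (C * (Vm * Vm.transpose) * C.transpose * Um) := by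
    rw [hMm]
    simp only [Matrix.transpose_mul, Matrix.transpose_transpose, Matrix.mul_assoc]
  rw [hW, hcyc, trace_pow]
  have hentry : ∀ a a2 : Fin L, (C * (Vm * Vm.transpose) * C.transpose * Um * Um.transpose) a a2 =
      ∑ q : Fin L × Fin L × Fin L, c a q.2.1 * c q.1 q.2.2 * inner ℝ (U q.1) (U a2) *
        inner ℝ (V q.2.1) (V q.2.2) := by
    intro a a2
    have hin : ∀ x y : E r, inner ℝ x y = ∑ i, x i * y i := by
      intro x y
      rw [PiLp.inner_apply]
      refine Finset.sum_congr rfl fun i _ => ?_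
      simp [mul_comm]
    have hU : ∀ a a2 : Fin L, (Um * Um.transpose) a a2 = inner ℝ (U a) (U a2) := by
      intro a a2
      rw [hin, Matrix.mul_apply]; rfl
    have hV : ∀ a a2 : Fin L, (Vm * Vm.transpose) a a2 = inner ℝ (V a) (V a2) := by
      intro a a2
      rw [hin, Matrix.mul_apply]; rfl
    rw [Matrix.mul_assoc _ Um Um.transpose, Matrix.mul_apply, Fintype.sum_prod_type]
    refine Finset.sum_congr rfl fun a' _ => ?_
    rw [hU, Fintype.sum_prod_type, Matrix.mul_apply, Finset.sum_mul, Finset.sum_comm]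
    refine Finset.sum_congr rfl fun b' _ => ?_
    rw [Matrix.mul_apply, Finset.sum_mul, Finset.sum_mul]
    refine Finset.sum_congr rfl fun b _ => ?_
    rw [hV]
    show c a b * inner ℝ (V b) (V b') * c a' b' * inner ℝ (U a') (U a2) = _
    ring
  simp only [hentry, Finset.prod_univ_sum, Fintype.piFinset_univ]
  rw [← (posE p (Fin L)).sum_comp, Fintype.sum_prod_type]
  refine Finset.sum_congr rfl fun y _ => ?_
  let ee : (Fin (p + 1) → Fin L × Fin L × Fin L) ≃
      (Fin (p + 1) → Fin L) × ((Fin (p + 1) → Fin L) × (Fin (p + 1) → Fin L)) :=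
    { toFun := fun f => (fun t => (f t).1, (fun t => (f t).2.1, fun t => (f t).2.2))
      invFun := fun g t => (g.1 t, g.2.1 t, g.2.2 t)
      left_inv := fun f => rfl
      right_inv := fun g => rfl }
  rw [← ee.symm.sum_comp, Fintype.sum_prod_type]
  refine Finset.sum_congr rfl fun a' _ => ?_
  rw [← (posE p (Fin L)).sum_comp]
  refine Finset.sum_congr rfl fun bb _ => ?_
  have hpos : ∀ f : Pos p → ℝ, ∏ x, f x = ∏ t : Fin (p + 1), (f (t, false) * f (t, true)) := by
    intro f
    rw [Fintype.prod_prod_type]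
    refine Finset.prod_congr rfl fun t _ => ?_
    simp [mul_comm]
  rw [hpos, ← Finset.prod_mul_distrib, ← Finset.prod_mul_distrib]
  rfl

end Pool.Agent.Helper495.NN
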