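import Mathlib
import Pool.Agent.Helper495.NN.Defs
import Pool.Agent.Helper495.NN.NormTrace
import Pool.Agent.Helper495.NN.TraceExpand
import Pool.Agent.Helper495.NN.SignAvg
import Pool.Agent.Helper495.NN.RhoAvg
import Pool.Agent.Helper495.NN.EulerAvg

open scoped BigOperators

namespace Pool.Agent.Helper495.NN



















theorem avg_sum {T ι : Type} [Fintype T] (s : Finset ι) (f : ι → T → ℝ) :
    avg (fun x => ∑ i ∈ s, f i x) = ∑ i ∈ s, avg (f i) := by
  unfold avg
  rw [Finset.sum_comm, Finset.sum_div]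

theorem avg_mono {T : Type} [Fintype T] {f g : T → ℝ} (h : ∀ x, f x ≤ g x) : avg f ≤ avg g :=
  div_le_div_of_nonneg_right (Finset.sum_le_sum fun x _ => h x) (Nat.cast_nonneg _)

theorem avg_mul_const {T : Type} [Fintype T] (c : ℝ) (f : T → ℝ) :
    avg (fun x => f x * c) = avg f * c := by
  unfold avg
  rw [← Finset.sum_mul, div_mul_eq_mul_div]

theorem avg_prod {T S : Type} [Fintype T] [Fintype S] (a : T → ℝ) (b : S → ℝ) :
    avg (fun p : T × S => a p.1 * b p.2) = avg a * avg b := by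
  unfold avg
  rw [Fintype.sum_prod_type, Fintype.card_prod, Nat.cast_mul, div_mul_div_comm,
    Finset.sum_mul_sum]

theorem avg_prod3 {T S R : Type} [Fintype T] [Fintype S] [Fintype R] (a : T → ℝ) (b : S → ℝ)
    (c : R → ℝ) :
    avg (fun p : T × S × R => a p.1 * (b p.2.1 * c p.2.2)) = avg a * (avg b * avg c) := by
  rw [← avg_prod b c, ← avg_prod a (fun q : S × R => b q.1 * c q.2)]

/-- the bijection of positions -/
def shiftE (p : ℕ) : Pos p ≃ Pos p where
  toFun x := if x.2 then (x.1 + 1, false) else (x.1, true)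
  invFun x := if x.2 then (x.1, false) else (x.1 - 1, true)
  left_inv := by
    rintro ⟨t, b⟩
    cases b <;> simp
  right_inv := by
    rintro ⟨t, b⟩
    cases b <;> simp

theorem e1_shift {p : ℕ} (x : Pos p) : e1 (shiftE p x) = x.1 := by
  obtain ⟨t, b⟩ := x
  cases b <;> simp [e1, shiftE]

theorem evenF_comp {X T : Type} [Fintype X] (e : X ≃ X) (f : X → T) (h : EvenF f) :
    EvenF (f ∘ e) := by
  intro t
  have h1 : Nat.card {x : X // (f ∘ e) x = t} = Nat.card {x : X // f x = t} :=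
    Nat.card_congr (e.subtypeEquiv fun x => Iff.rfl)
  rw [h1]
  exact h t

theorem im_comp {X T : Type} [Fintype X] (e : X ≃ X) (f : X → T) : im (f ∘ e) = im f := by
  unfold im
  rw [Set.range_comp, e.surjective.range_eq, Set.image_univ]

theorem finer_comp {L r p : ℕ} (α : Pos p → Fin L) (l : Fin (p + 1) → Fin r) :
    Finer (α ∘ shiftE p) (fun x => l x.1) ↔ Finer α (fun x => l (e1 x)) := by
  constructor
  · intro h x y hxy
    have := h ((shiftE p).symm x) ((shiftE p).symm y) (by simpa using hxy)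
    simp only at this
    rw [← e1_shift ((shiftE p).symm x), ← e1_shift ((shiftE p).symm y)] at this
    simpa using this
  · intro h x y hxy
    have := h (shiftE p x) (shiftE p y) hxy
    simp only [e1_shift] at this
    exact this

theorem euler_avg' {n r L p : ℕ} (hn : 0 < n) (u : Fin n → E r)
    (hu : ∀ y : E r, ∑ i, (inner ℝ (u i) y) ^ 2 ≤ ‖y‖ ^ 2)
    (α : Pos p → Fin L) (hα : EvenF α) :
    |avg (fun i : Fin L → Fin n => ∏ t : Fin (p + 1),
      inner ℝ (u (i (α (t, true)))) (u (i (α (t + 1, false)))))|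
      ≤ (Nat.card {l : Fin (p + 1) → Fin r // Finer α (fun x => l (e1 x))} : ℝ)
        * (1 / (n : ℝ)) ^ (im α) := by
  have h := euler_avg hn u hu (α ∘ shiftE p) (evenF_comp _ _ hα)
  rw [im_comp] at h
  have h1 : Nat.card {l : Fin (p + 1) → Fin r // Finer (α ∘ shiftE p) (fun x => l x.1)} =
      Nat.card {l : Fin (p + 1) → Fin r // Finer α (fun x => l (e1 x))} :=
    Nat.card_congr (Equiv.subtypeEquivRight fun l => finer_comp α l)
  rw [h1] at h
  exact h

theorem XA_apply {n r L : ℕ} {P : Type} [DecidableEq P] (i : Fin L → Fin n) (ρ : Fin L → P)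
    (σ : Fin L → Bool) (u : Fin n → E r) (q : P) (x : Fin r) :
    XA i ρ σ u q x = ∑ a, (if ρ a = q then sgn (σ a) else 0) * u (i a) x := by
  unfold XA
  simp
  refine Finset.sum_congr rfl fun a _ => ?_
  split_ifs <;> simp

theorem XA_sum {n r L : ℕ} {P : Type} [Fintype P] [DecidableEq P] (i j : Fin L → Fin n)
    (ρ ρ' : Fin L → P) (σ τ : Fin L → Bool) (u v : Fin n → E r) (x y : Fin r) :
    ∑ q, XA i ρ σ u q x * XA j ρ' τ v q y =
      ∑ a, ∑ b, (sgn (σ a) * sgn (τ b) * (if ρ a = ρ' b then (1 : ℝ) else 0)) * u (i a) x *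
        v (j b) y := by
  simp only [XA_apply, Finset.sum_mul_sum]
  rw [Finset.sum_comm]
  refine Finset.sum_congr rfl fun a _ => ?_
  rw [Finset.sum_comm]
  refine Finset.sum_congr rfl fun b _ => ?_
  have h : ∀ q : P, (if ρ a = q then sgn (σ a) else 0) * u (i a) x *
      ((if ρ' b = q then sgn (τ b) else 0) * v (j b) y) =
      if ρ a = q then (if ρ' b = ρ a then sgn (σ a) * sgn (τ b) * u (i a) x * v (j b) y else 0)
        else 0 := by
    intro q
    by_cases h1 : ρ a = q
    · subst h1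
      by_cases h2 : ρ' b = ρ a
      · simp only [h2, if_true]; ring
      · simp only [h2, if_true, if_false]; ring
    · simp only [h1, if_false]; ring
  rw [Finset.sum_congr rfl fun q _ => h q, Finset.sum_ite_eq]
  simp only [Finset.mem_univ, if_true]
  by_cases h2 : ρ' b = ρ a
  · simp only [h2, if_true]; ring
  · have h3 : ¬ ρ a = ρ' b := fun h => h2 h.symm
    simp only [h2, h3, if_false]; ring

theorem norm_le_sum {n r L p : ℕ} {P : Type} [Fintype P] [DecidableEq P]
    (i j : Fin L → Fin n) (ρ ρ' : Fin L → P) (σ τ : Fin L → Bool) (u v : Fin n → E r) :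
    ‖Bop (XA i ρ σ u) (XA j ρ' τ v)‖ ^ (2 * (p + 1)) ≤
      ∑ α : Pos p → Fin L, ∑ β : Pos p → Fin L,
        ((∏ t : Fin (p + 1), inner ℝ (u (i (α (t, true)))) (u (i (α (t + 1, false))))) *
          ((∏ t : Fin (p + 1), inner ℝ (v (j (β (t, false)))) (v (j (β (t, true))))) *
            ((∏ x, (if ρ (α x) = ρ' (β x) then (1:ℝ) else 0)) * (∏ x, sgn (τ (β x))))) *
              (∏ x, sgn (σ (α x)))) := by
  refine (norm_trace (XA i ρ σ u) (XA j ρ' τ v) p
    (Matrix.of fun x y => ∑ q, XA i ρ σ u q x * XA j ρ' τ v q y) (fun _ _ => rfl)).trans ?_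
  rw [trace_expand (fun a b => sgn (σ a) * sgn (τ b) * (if ρ a = ρ' b then (1 : ℝ) else 0))
    (fun a => u (i a)) (fun b => v (j b)) _ (fun x y => by
      rw [Matrix.of_apply]; exact XA_sum i j ρ ρ' σ τ u v x y)]
  refine le_of_eq (Finset.sum_congr rfl fun α _ => Finset.sum_congr rfl fun β _ => ?_)
  rw [Finset.prod_mul_distrib, Finset.prod_mul_distrib]
  ring

theorem sum_ind {T : Type} [Fintype T] (Q : T → Prop) [DecidablePred Q] :
    ∑ x : T, (if Q x then (1 : ℝ) else 0) = (Nat.card {x // Q x} : ℝ) := by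
  rw [Finset.sum_boole, Nat.card_eq_fintype_card, Fintype.card_subtype]

theorem finer_pair {X S T : Type} {L : ℕ} (α : X → Fin L) (g : X → S) (l : X → T) :
    Finer α (fun x => (g x, l x)) ↔ Finer α g ∧ Finer α l := by
  constructor
  · intro h
    exact ⟨fun x y hxy => (Prod.mk.inj (h x y hxy)).1, fun x y hxy => (Prod.mk.inj (h x y hxy)).2⟩
  · rintro ⟨h1, h2⟩ x y hxy
    exact Prod.ext (h1 x y hxy) (h2 x y hxy)

open Classical in
theorem wt_eq {X S : Type} [Fintype X] [hd : DecidableEq X] (L : ℕ) (y : ℝ) (κ : X → S) :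
    wt L y κ = ∑ α : X → Fin L, if EvenF α ∧ Finer α κ then y ^ im α else 0 := by
  have hi : hd = fun a b => Classical.propDecidable (a = b) := Subsingleton.elim _ _
  subst hi
  rfl

open Classical in
theorem rhs_eq {r L p : ℕ} {P : Type} [Fintype P] (Y : ℝ) :
    ∑ g : Pos p → P, ∑ l : Fin (p + 1) → Fin r, ∑ m : Fin (p + 1) → Fin r,
        wt L Y (fun x => (g x, l (e1 x))) * wt L Y (fun x => (g x, m x.1)) =
    ∑ α : Pos p → Fin L, ∑ β : Pos p → Fin L, (if EvenF α ∧ EvenF β then
      (Nat.card {g : Pos p → P // Finer α g ∧ Finer β g} : ℝ) *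
      (Nat.card {l : Fin (p + 1) → Fin r // Finer α (fun x => l (e1 x))} : ℝ) *
      (Nat.card {m : Fin (p + 1) → Fin r // Finer β (fun x => m x.1)} : ℝ) *
        Y ^ (im α + im β) else 0) := by
  have h1 : ∀ (g : Pos p → P) (l m : Fin (p + 1) → Fin r),
      wt L Y (fun x => (g x, l (e1 x))) * wt L Y (fun x => (g x, m x.1)) =
      ∑ α : Pos p → Fin L, ∑ β : Pos p → Fin L,
        ((if EvenF α ∧ EvenF β then Y ^ (im α + im β) else 0) *
          ((if Finer α g ∧ Finer β g then (1 : ℝ) else 0) *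
          ((if Finer α (fun x => l (e1 x)) then (1 : ℝ) else 0) *
          (if Finer β (fun x => m x.1) then (1 : ℝ) else 0)))) := by
    intro g l m
    rw [wt_eq, wt_eq, Finset.sum_mul_sum]
    refine Finset.sum_congr rfl fun α _ => Finset.sum_congr rfl fun β _ => ?_
    simp only [finer_pair]
    by_cases a1 : EvenF α <;> by_cases a2 : EvenF β <;> by_cases a3 : Finer α g <;>
      by_cases a4 : Finer β g <;> by_cases a5 : Finer α (fun x => l (e1 x)) <;>
      by_cases a6 : Finer β (fun x => m x.1) <;>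
      simp only [a1, a2, a3, a4, a5, a6, and_self, and_true, true_and, and_false, false_and,
        if_true, if_false, mul_zero, zero_mul, mul_one, pow_add]
  simp only [h1]
  -- exchange the sums
  have h2 : ∀ g : Pos p → P, ∀ l : Fin (p + 1) → Fin r,
      ∑ m : Fin (p + 1) → Fin r, ∑ α : Pos p → Fin L, ∑ β : Pos p → Fin L,
        ((if EvenF α ∧ EvenF β then Y ^ (im α + im β) else 0) *
          ((if Finer α g ∧ Finer β g then (1 : ℝ) else 0) *
          ((if Finer α (fun x => l (e1 x)) then (1 : ℝ) else 0) *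
          (if Finer β (fun x => m x.1) then (1 : ℝ) else 0)))) =
      ∑ α : Pos p → Fin L, ∑ β : Pos p → Fin L,
        ((if EvenF α ∧ EvenF β then Y ^ (im α + im β) else 0) *
          ((if Finer α g ∧ Finer β g then (1 : ℝ) else 0) *
          ((if Finer α (fun x => l (e1 x)) then (1 : ℝ) else 0) *
          (Nat.card {m : Fin (p + 1) → Fin r // Finer β (fun x => m x.1)} : ℝ)))) := by
    intro g l
    rw [Finset.sum_comm]
    refine Finset.sum_congr rfl fun α _ => ?_
    rw [Finset.sum_comm]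
    refine Finset.sum_congr rfl fun β _ => ?_
    rw [← Finset.mul_sum, ← Finset.mul_sum, ← Finset.mul_sum, sum_ind]
  simp only [h2]
  have h3 : ∀ g : Pos p → P,
      ∑ l : Fin (p + 1) → Fin r, ∑ α : Pos p → Fin L, ∑ β : Pos p → Fin L,
        ((if EvenF α ∧ EvenF β then Y ^ (im α + im β) else 0) *
          ((if Finer α g ∧ Finer β g then (1 : ℝ) else 0) *
          ((if Finer α (fun x => l (e1 x)) then (1 : ℝ) else 0) *
          (Nat.card {m : Fin (p + 1) → Fin r // Finer β (fun x => m x.1)} : ℝ)))) =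
      ∑ α : Pos p → Fin L, ∑ β : Pos p → Fin L,
        ((if EvenF α ∧ EvenF β then Y ^ (im α + im β) else 0) *
          ((if Finer α g ∧ Finer β g then (1 : ℝ) else 0) *
          ((Nat.card {l : Fin (p + 1) → Fin r // Finer α (fun x => l (e1 x))} : ℝ) *
          (Nat.card {m : Fin (p + 1) → Fin r // Finer β (fun x => m x.1)} : ℝ)))) := by
    intro g
    rw [Finset.sum_comm]
    refine Finset.sum_congr rfl fun α _ => ?_
    rw [Finset.sum_comm]
    refine Finset.sum_congr rfl fun β _ => ?_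
    rw [← Finset.mul_sum, ← Finset.mul_sum, ← Finset.sum_mul, sum_ind]
  simp only [h3]
  rw [Finset.sum_comm]
  refine Finset.sum_congr rfl fun α _ => ?_
  rw [Finset.sum_comm]
  refine Finset.sum_congr rfl fun β _ => ?_
  rw [← Finset.mul_sum, ← Finset.sum_mul, sum_ind]
  by_cases h : EvenF α ∧ EvenF β
  · rw [if_pos h, if_pos h]; ring
  · rw [if_neg h, if_neg h, zero_mul]


theorem moment_le {n r L p : ℕ} {P : Type} [Fintype P] [DecidableEq P] [Nonempty P] (hn : 0 < n)
    (u v : Fin n → E r)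
    (hu : ∀ y : E r, ∑ i, (inner ℝ (u i) y) ^ 2 ≤ ‖y‖ ^ 2)
    (hv : ∀ y : E r, ∑ i, (inner ℝ (v i) y) ^ 2 ≤ ‖y‖ ^ 2) :
    avg (fun A : (Fin L → Fin n) × (Fin L → P) × (Fin L → Bool) =>
      avg (fun B : (Fin L → Fin n) × (Fin L → P) × (Fin L → Bool) =>
        ‖Bop (XA A.1 A.2.1 A.2.2 u) (XA B.1 B.2.1 B.2.2 v)‖ ^ (2 * (p + 1))))
      ≤ ∑ g : Pos p → P, ∑ l : Fin (p + 1) → Fin r, ∑ m : Fin (p + 1) → Fin r,
        wt L (1 / ((n : ℝ) * Fintype.card P)) (fun x => (g x, l (e1 x)))
          * wt L (1 / ((n : ℝ) * Fintype.card P)) (fun x => (g x, m x.1)) := by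
  classical
  rw [rhs_eq]
  -- insert the expansion
  have h1 : avg (fun A : (Fin L → Fin n) × (Fin L → P) × (Fin L → Bool) =>
      avg (fun B : (Fin L → Fin n) × (Fin L → P) × (Fin L → Bool) =>
        ‖Bop (XA A.1 A.2.1 A.2.2 u) (XA B.1 B.2.1 B.2.2 v)‖ ^ (2 * (p + 1)))) ≤
      avg (fun A : (Fin L → Fin n) × (Fin L → P) × (Fin L → Bool) =>
      avg (fun B : (Fin L → Fin n) × (Fin L → P) × (Fin L → Bool) =>
        ∑ α : Pos p → Fin L, ∑ β : Pos p → Fin L,
        ((∏ t : Fin (p + 1), inner ℝ (u (A.1 (α (t, true)))) (u (A.1 (α (t + 1, false))))) *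
          ((∏ t : Fin (p + 1), inner ℝ (v (B.1 (β (t, false)))) (v (B.1 (β (t, true))))) *
            ((∏ x, (if A.2.1 (α x) = B.2.1 (β x) then (1:ℝ) else 0)) *
              (∏ x, sgn (B.2.2 (β x))))) * (∏ x, sgn (A.2.2 (α x)))))) :=
    avg_mono fun A => avg_mono fun B => norm_le_sum A.1 B.1 A.2.1 B.2.1 A.2.2 B.2.2 u v
  refine h1.trans ?_
  have h2 : avg (fun A : (Fin L → Fin n) × (Fin L → P) × (Fin L → Bool) =>
      avg (fun B : (Fin L → Fin n) × (Fin L → P) × (Fin L → Bool) =>
        ∑ α : Pos p → Fin L, ∑ β : Pos p → Fin L,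
        ((∏ t : Fin (p + 1), inner ℝ (u (A.1 (α (t, true)))) (u (A.1 (α (t + 1, false))))) *
          ((∏ t : Fin (p + 1), inner ℝ (v (B.1 (β (t, false)))) (v (B.1 (β (t, true))))) *
            ((∏ x, (if A.2.1 (α x) = B.2.1 (β x) then (1:ℝ) else 0)) *
              (∏ x, sgn (B.2.2 (β x))))) * (∏ x, sgn (A.2.2 (α x)))))) =
      ∑ α : Pos p → Fin L, ∑ β : Pos p → Fin L,
        (avg (fun i : Fin L → Fin n =>
            ∏ t : Fin (p + 1), inner ℝ (u (i (α (t, true)))) (u (i (α (t + 1, false))))) *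
          (avg (fun ρ : Fin L → P => avg (fun ρ' : Fin L → P =>
            ∏ x, (if ρ (α x) = ρ' (β x) then (1:ℝ) else 0))) *
            avg (fun σ : Fin L → Bool => ∏ x, sgn (σ (α x))))) *
        (avg (fun j : Fin L → Fin n =>
            ∏ t : Fin (p + 1), inner ℝ (v (j (β (t, false)))) (v (j (β (t, true))))) *
          avg (fun τ : Fin L → Bool => ∏ x, sgn (τ (β x)))) := by
    have e1 : ∀ A : (Fin L → Fin n) × (Fin L → P) × (Fin L → Bool),
        avg (fun B : (Fin L → Fin n) × (Fin L → P) × (Fin L → Bool) =>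
        ∑ α : Pos p → Fin L, ∑ β : Pos p → Fin L,
        ((∏ t : Fin (p + 1), inner ℝ (u (A.1 (α (t, true)))) (u (A.1 (α (t + 1, false))))) *
          ((∏ t : Fin (p + 1), inner ℝ (v (B.1 (β (t, false)))) (v (B.1 (β (t, true))))) *
            ((∏ x, (if A.2.1 (α x) = B.2.1 (β x) then (1:ℝ) else 0)) *
              (∏ x, sgn (B.2.2 (β x))))) * (∏ x, sgn (A.2.2 (α x))))) =
        ∑ α : Pos p → Fin L, ∑ β : Pos p → Fin L,
          ((∏ t : Fin (p + 1), inner ℝ (u (A.1 (α (t, true)))) (u (A.1 (α (t + 1, false))))) *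
            (avg (fun ρ' : Fin L → P => ∏ x, (if A.2.1 (α x) = ρ' (β x) then (1:ℝ) else 0)) *
              (∏ x, sgn (A.2.2 (α x))))) *
          (avg (fun j : Fin L → Fin n =>
            ∏ t : Fin (p + 1), inner ℝ (v (j (β (t, false)))) (v (j (β (t, true))))) *
          avg (fun τ : Fin L → Bool => ∏ x, sgn (τ (β x)))) := by
      intro A
      rw [avg_sum]
      refine Finset.sum_congr rfl fun α _ => ?_
      rw [avg_sum]
      refine Finset.sum_congr rfl fun β _ => ?_
      have e2 := avg_prod3 (T := Fin L → Fin n) (S := Fin L → P) (R := Fin L → Bool)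
        (fun j => ∏ t : Fin (p + 1), inner ℝ (v (j (β (t, false)))) (v (j (β (t, true)))))
        (fun ρ' => ∏ x, (if A.2.1 (α x) = ρ' (β x) then (1:ℝ) else 0))
        (fun τ => ∏ x, sgn (τ (β x)))
      have e3 := avg_mul_const
        ((∏ t : Fin (p + 1), inner ℝ (u (A.1 (α (t, true)))) (u (A.1 (α (t + 1, false))))) *
          (∏ x, sgn (A.2.2 (α x))))
        (fun B : (Fin L → Fin n) × (Fin L → P) × (Fin L → Bool) =>
          ((∏ t : Fin (p + 1), inner ℝ (v (B.1 (β (t, false)))) (v (B.1 (β (t, true))))) *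
            ((∏ x, (if A.2.1 (α x) = B.2.1 (β x) then (1:ℝ) else 0)) *
              (∏ x, sgn (B.2.2 (β x))))))
      rw [e2] at e3
      refine Eq.trans ?_ (e3.trans (by ring))
      congr 1
      funext B
      ring
    simp only [e1]
    rw [avg_sum]
    refine Finset.sum_congr rfl fun α _ => ?_
    rw [avg_sum]
    refine Finset.sum_congr rfl fun β _ => ?_
    rw [avg_mul_const]
    congr 1
    exact avg_prod3 (T := Fin L → Fin n) (S := Fin L → P) (R := Fin L → Bool)
      (fun i => ∏ t : Fin (p + 1), inner ℝ (u (i (α (t, true)))) (u (i (α (t + 1, false)))))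
      (fun ρ => avg (fun ρ' : Fin L → P => ∏ x, (if ρ (α x) = ρ' (β x) then (1:ℝ) else 0)))
      (fun σ => ∏ x, sgn (σ (α x)))
  rw [h2]
  refine Finset.sum_le_sum fun α _ => Finset.sum_le_sum fun β _ => ?_
  rw [rho_avg, sign_avg, sign_avg]
  by_cases hα : EvenF α
  · by_cases hβ : EvenF β
    · rw [if_pos hα, if_pos hβ, if_pos ⟨hα, hβ⟩, mul_one, mul_one]
      have hU := euler_avg' hn u hu α hα
      have hV := euler_avg hn v hv β hβ
      set U := avg (fun i : Fin L → Fin n =>
            ∏ t : Fin (p + 1), inner ℝ (u (i (α (t, true)))) (u (i (α (t + 1, false)))))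
      set V := avg (fun j : Fin L → Fin n =>
            ∏ t : Fin (p + 1), inner ℝ (v (j (β (t, false)))) (v (j (β (t, true)))))
      set cg : ℝ := (Nat.card {g : Pos p → P // Finer α g ∧ Finer β g} : ℝ)
      set cl : ℝ := (Nat.card {l : Fin (p + 1) → Fin r // Finer α (fun x => l (e1 x))} : ℝ)
      set cm : ℝ := (Nat.card {m : Fin (p + 1) → Fin r // Finer β (fun x => m x.1)} : ℝ)
      have hcg : 0 ≤ cg := Nat.cast_nonneg _
      have hcl : 0 ≤ cl := Nat.cast_nonneg _
      have hcm : 0 ≤ cm := Nat.cast_nonneg _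
      have hP0 : (0 : ℝ) ≤ (1 / (Fintype.card P : ℝ)) ^ (im α + im β) := by positivity
      calc U * (cg * (1 / (Fintype.card P : ℝ)) ^ (im α + im β)) * V
          ≤ |U * (cg * (1 / (Fintype.card P : ℝ)) ^ (im α + im β)) * V| := le_abs_self _
        _ = |U| * (cg * (1 / (Fintype.card P : ℝ)) ^ (im α + im β)) * |V| := by
            rw [abs_mul, abs_mul, abs_of_nonneg (mul_nonneg hcg hP0)]
        _ ≤ (cl * (1 / (n : ℝ)) ^ (im α)) * (cg * (1 / (Fintype.card P : ℝ)) ^ (im α + im β)) *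
            (cm * (1 / (n : ℝ)) ^ (im β)) := by
            refine mul_le_mul ?_ hV (abs_nonneg _) (by positivity)
            exact mul_le_mul_of_nonneg_right hU (mul_nonneg hcg hP0)
        _ = cg * cl * cm * (1 / ((n : ℝ) * Fintype.card P)) ^ (im α + im β) := by
            rw [one_div, one_div, one_div, mul_inv, mul_pow (n : ℝ)⁻¹, pow_add (n : ℝ)⁻¹]
            ring
    · rw [if_neg hβ, if_neg (fun h : EvenF α ∧ EvenF β => hβ h.2), mul_zero, mul_zero]
  · rw [if_neg hα, if_neg (fun h : EvenF α ∧ EvenF β => hα h.1), mul_zero, mul_zero, zero_mul]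

end Pool.Agent.Helper495.NN
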