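import Mathlib
import Pool.Agent.Helper495.NN.Defs

open scoped BigOperators

namespace Pool.Agent.Helper495.NN




theorem walk_card {W Q : Type} (v : ℕ → W) (ε : ℕ → Q) (ends : Q → Sym2 W)
    (h : ∀ k, ends (ε k) = s(v k, v (k + 1))) (n : ℕ) :
    (v '' Set.Iic n).ncard ≤ (ε '' Set.Iio n).ncard + 1 := by
  induction n with
  | zero =>
    have : (Set.Iic 0 : Set ℕ) = {0} := by ext x; simp
    rw [this, Set.image_singleton, Set.ncard_singleton]
    omega
  | succ n ih =>
    have h1 : (Set.Iic (n + 1) : Set ℕ) = insert (n + 1) (Set.Iic n) := by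
      ext x; simp only [Set.mem_Iic, Set.mem_insert_iff]; omega
    have h2 : (Set.Iio (n + 1) : Set ℕ) = insert n (Set.Iio n) := by
      ext x; simp only [Set.mem_Iio, Set.mem_insert_iff]; omega
    have f1 : (v '' Set.Iic n).Finite := (Set.finite_Iic n).image v
    have f2 : (ε '' Set.Iio n).Finite := (Set.finite_Iio n).image ε
    rw [h1, h2, Set.image_insert_eq, Set.image_insert_eq]
    by_cases hv : v (n + 1) ∈ v '' Set.Iic n
    · rw [Set.insert_eq_of_mem hv]
      have : (ε '' Set.Iio n).ncard ≤ (insert (ε n) (ε '' Set.Iio n)).ncard :=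
        Set.ncard_le_ncard (Set.subset_insert _ _) (f2.insert _)
      omega
    · have he : ε n ∉ ε '' Set.Iio n := by
        rintro ⟨j, hj, hje⟩
        have hj' : j < n := hj
        have h3 : s(v j, v (j + 1)) = s(v n, v (n + 1)) := by
          rw [← h j, ← h n, hje]
        have h4 : v (n + 1) ∈ s(v j, v (j + 1)) := by
          rw [h3]; exact Sym2.mem_mk_right _ _
        rw [Sym2.mem_iff] at h4
        rcases h4 with h4 | h4
        · exact hv ⟨j, by simp only [Set.mem_Iic]; omega, h4.symm⟩
        · exact hv ⟨j + 1, by simp only [Set.mem_Iic]; omega, h4.symm⟩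
      rw [Set.ncard_insert_of_notMem hv f1, Set.ncard_insert_of_notMem he f2]
      omega


theorem conn {p : ℕ} {P R R' : Type} (g : Pos p → P) (l : Fin (p + 1) → R) (m : Fin (p + 1) → R') :
    im g + im l + im m ≤ im (fun x : Pos p => (g x, l (e1 x))) + im (fun x : Pos p => (g x, m x.1)) + 1 := by
  classical
  let v : ℕ → P ⊕ (R ⊕ R') := fun k =>
    if k % 4 = 0 then Sum.inl (g ((Fin.ofNat (p + 1) (k / 4)), false))
    else if k % 4 = 1 then Sum.inr (Sum.inr (m (Fin.ofNat (p + 1) (k / 4))))
    else if k % 4 = 2 then Sum.inl (g ((Fin.ofNat (p + 1) (k / 4)), true))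
    else Sum.inr (Sum.inl (l (Fin.ofNat (p + 1) (k / 4))))
  let ε : ℕ → (P × R) ⊕ (P × R') := fun k =>
    if k % 4 = 0 then Sum.inr (g ((Fin.ofNat (p + 1) (k / 4)), false), m (Fin.ofNat (p + 1) (k / 4)))
    else if k % 4 = 1 then Sum.inr (g ((Fin.ofNat (p + 1) (k / 4)), true), m (Fin.ofNat (p + 1) (k / 4)))
    else if k % 4 = 2 then Sum.inl (g ((Fin.ofNat (p + 1) (k / 4)), true), l (Fin.ofNat (p + 1) (k / 4)))
    else Sum.inl (g ((Fin.ofNat (p + 1) (k / 4 + 1)), false), l (Fin.ofNat (p + 1) (k / 4)))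
  let ends : (P × R) ⊕ (P × R') → Sym2 (P ⊕ (R ⊕ R')) := fun q =>
    match q with
    | Sum.inl a => s(Sum.inl a.1, Sum.inr (Sum.inl a.2))
    | Sum.inr a => s(Sum.inl a.1, Sum.inr (Sum.inr a.2))
  have hends : ∀ k, ends (ε k) = s(v k, v (k + 1)) := by
    intro k
    have hk : k % 4 < 4 := Nat.mod_lt _ (by norm_num)
    have hc : k % 4 = 0 ∨ k % 4 = 1 ∨ k % 4 = 2 ∨ k % 4 = 3 := by omega
    rcases hc with hc | hc | hc | hc
    · have a1 : (k + 1) % 4 = 1 := by omega
      have a2 : (k + 1) / 4 = k / 4 := by omega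
      simp only [v, ε, ends, hc, a1, a2, if_true, if_false, one_ne_zero]
    · have a1 : (k + 1) % 4 = 2 := by omega
      have a2 : (k + 1) / 4 = k / 4 := by omega
      simp only [v, ε, ends, hc, a1, a2, if_true, if_false, one_ne_zero]
      rw [if_neg (by norm_num), if_neg (by norm_num)]
      exact Sym2.eq_swap
    · have a1 : (k + 1) % 4 = 3 := by omega
      have a2 : (k + 1) / 4 = k / 4 := by omega
      simp only [v, ε, ends, hc, a1, a2]
      norm_num
    · have a1 : (k + 1) % 4 = 0 := by omega
      have a2 : (k + 1) / 4 = k / 4 + 1 := by omega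
      simp only [v, ε, ends, hc, a1, a2]
      norm_num
  have key := walk_card v ε ends hends (4 * p + 3)
  have fin1 : (v '' Set.Iic (4 * p + 3)).Finite := (Set.finite_Iic _).image v
  -- lower bound
  have hcast : ∀ t : Fin (p + 1), Fin.ofNat (p + 1) t.val = t := fun t =>
    Fin.ext (by simp [Fin.ofNat, Nat.mod_eq_of_lt t.2])
  have hadd : ∀ a : ℕ, Fin.ofNat (p + 1) (a + 1) - 1 = Fin.ofNat (p + 1) a := fun a => by
    rw [sub_eq_iff_eq_add]
    apply Fin.ext
    simp [Fin.ofNat, Fin.val_add]
  have low : im g + im l + im m ≤ (v '' Set.Iic (4 * p + 3)).ncard := by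
    have hsub : (Sum.inl '' Set.range g) ∪ ((fun x => Sum.inr (Sum.inl x)) '' Set.range l) ∪
        ((fun x => Sum.inr (Sum.inr x)) '' Set.range m) ⊆ v '' Set.Iic (4 * p + 3) := by
      rintro x ((⟨_, ⟨⟨t, s⟩, rfl⟩, rfl⟩ | ⟨_, ⟨t, rfl⟩, rfl⟩) | ⟨_, ⟨t, rfl⟩, rfl⟩)
      · have ht := t.2
        cases s
        · refine ⟨4 * t.val, by simp only [Set.mem_Iic]; omega, ?_⟩
          have a1 : (4 * t.val) % 4 = 0 := by omega
          have a2 : (4 * t.val) / 4 = t.val := by omega
          simp only [v, a1, a2, if_true, hcast]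
        · refine ⟨4 * t.val + 2, by simp only [Set.mem_Iic]; omega, ?_⟩
          have a1 : (4 * t.val + 2) % 4 = 2 := by omega
          have a2 : (4 * t.val + 2) / 4 = t.val := by omega
          simp only [v, a1, a2, hcast]
          norm_num
      · have ht := t.2
        refine ⟨4 * t.val + 3, by simp only [Set.mem_Iic]; omega, ?_⟩
        have a1 : (4 * t.val + 3) % 4 = 3 := by omega
        have a2 : (4 * t.val + 3) / 4 = t.val := by omega
        simp only [v, a1, a2, hcast]
        norm_num
      · have ht := t.2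
        refine ⟨4 * t.val + 1, by simp only [Set.mem_Iic]; omega, ?_⟩
        have a1 : (4 * t.val + 1) % 4 = 1 := by omega
        have a2 : (4 * t.val + 1) / 4 = t.val := by omega
        simp only [v, a1, a2, hcast]
        norm_num
    have hle := Set.ncard_le_ncard hsub fin1
    have fg : (Set.range g).Finite := Set.finite_range g
    have fl : (Set.range l).Finite := Set.finite_range l
    have fm : (Set.range m).Finite := Set.finite_range m
    rw [Set.ncard_union_eq (by
        rw [Set.disjoint_left]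
        rintro x (⟨_, _, rfl⟩ | ⟨_, _, rfl⟩) ⟨_, _, h⟩
        · cases h
        · cases h) ((fg.image _).union (fl.image _)) (fm.image _),
      Set.ncard_union_eq (by
        rw [Set.disjoint_left]
        rintro x ⟨_, _, rfl⟩ ⟨_, _, h⟩
        cases h) (fg.image _) (fl.image _),
      Set.ncard_image_of_injective _ Sum.inl_injective,
      Set.ncard_image_of_injective _ (fun a b h => Sum.inl_injective (Sum.inr_injective h)),
      Set.ncard_image_of_injective _ (fun a b h => Sum.inr_injective (Sum.inr_injective h))] at hle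
    exact hle
  -- upper bound
  have up : (ε '' Set.Iio (4 * p + 3)).ncard ≤
      im (fun x : Pos p => (g x, l (e1 x))) + im (fun x : Pos p => (g x, m x.1)) := by
    have hsub : ε '' Set.Iio (4 * p + 3) ⊆
        (Sum.inl '' Set.range (fun x : Pos p => (g x, l (e1 x)))) ∪
        (Sum.inr '' Set.range (fun x : Pos p => (g x, m x.1))) := by
      rintro _ ⟨k, _, rfl⟩
      have hc : k % 4 = 0 ∨ k % 4 = 1 ∨ k % 4 = 2 ∨ k % 4 = 3 := by omega
      rcases hc with hc | hc | hc | hc
      · right
        refine ⟨_, ⟨((Fin.ofNat (p + 1) (k / 4)), false), rfl⟩, ?_⟩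
        simp only [ε, hc, if_true]
      · right
        refine ⟨_, ⟨((Fin.ofNat (p + 1) (k / 4)), true), rfl⟩, ?_⟩
        simp only [ε, hc]
        norm_num
      · left
        refine ⟨_, ⟨((Fin.ofNat (p + 1) (k / 4)), true), rfl⟩, ?_⟩
        simp only [ε, hc, e1]
        norm_num
      · left
        refine ⟨_, ⟨((Fin.ofNat (p + 1) (k / 4 + 1)), false), rfl⟩, ?_⟩
        simp only [ε, hc, e1, hadd]
        norm_num
    have f1 : (Set.range (fun x : Pos p => (g x, l (e1 x)))).Finite := Set.finite_range _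
    have f2 : (Set.range (fun x : Pos p => (g x, m x.1))).Finite := Set.finite_range _
    have hle := Set.ncard_le_ncard hsub ((f1.image _).union (f2.image _))
    refine hle.trans ((Set.ncard_union_le _ _).trans ?_)
    rw [Set.ncard_image_of_injective _ Sum.inl_injective, Set.ncard_image_of_injective _ Sum.inr_injective]
    exact le_refl _
  omega

end Pool.Agent.Helper495.NN
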