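import Mathlib
import Pool.Agent.Helper495.NN.Defs

open scoped BigOperators

namespace Pool.Agent.Helper495.NN







theorem ctn_sum_prod {ι κ : Type} [Fintype ι] [DecidableEq ι] [Fintype κ] (g : ι → κ → ℝ) :
    ∑ f : ι → κ, ∏ i, g i (f i) = ∏ i, ∑ j, g i j := by
  rw [Finset.prod_univ_sum, Fintype.piFinset_univ]

open Classical in
theorem ctn_char {T X : Type} [Fintype T] [DecidableEq T] [Fintype X] (φ : X → T) :
    ∑ G : T → Bool, ∏ x, sgn (G (φ x)) = if EvenF φ then (2:ℝ) ^ Fintype.card T else 0 := by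
  have h1 : ∀ G : T → Bool, ∏ x, sgn (G (φ x)) = ∏ t, sgn (G t) ^ (Nat.card {x // φ x = t}) := by
    intro G
    rw [← Fintype.prod_fiberwise' φ (fun t => sgn (G t))]
    refine Finset.prod_congr rfl fun t _ => ?_
    rw [Finset.prod_const, Finset.card_univ, Nat.card_eq_fintype_card]
  simp_rw [h1]
  rw [ctn_sum_prod (fun (t : T) (b : Bool) => sgn b ^ (Nat.card {x // φ x = t}))]
  have h2 : ∀ t, ∑ b : Bool, sgn b ^ (Nat.card {x // φ x = t}) =
      if Even (Nat.card {x // φ x = t}) then (2:ℝ) else 0 := by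
    intro t
    have s1 : sgn true = 1 := rfl
    have s2 : sgn false = -1 := rfl
    rw [Fintype.sum_bool, s1, s2, one_pow]
    by_cases h : Even (Nat.card {x // φ x = t})
    · rw [if_pos h, h.neg_one_pow]; norm_num
    · rw [if_neg h, (Nat.not_even_iff_odd.1 h).neg_one_pow]; norm_num
  simp_rw [h2]
  by_cases h : EvenF φ
  · rw [if_pos h, Finset.prod_congr rfl (fun t _ => if_pos (h t)), Finset.prod_const,
      Finset.card_univ]
  · rw [if_neg h]
    unfold EvenF at h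
    push Not at h
    obtain ⟨t, ht⟩ := h
    exact Finset.prod_eq_zero (Finset.mem_univ t) (if_neg ht)

theorem ctn_walk {N : ℕ} (M : Matrix (Fin N) (Fin N) ℝ) (k : ℕ) (φ : Fin N → Fin N → ℝ) :
    ∑ f : Fin (k + 1) → Fin N, (∏ t : Fin k, M (f t.castSucc) (f t.succ)) *
      φ (f 0) (f (Fin.last k)) = ∑ i, ∑ j, (M ^ k) i j * φ i j := by
  induction k generalizing φ with
  | zero =>
    rw [← Equiv.sum_comp (Equiv.funUnique (Fin 1) (Fin N)).symm]
    simp [Matrix.one_apply]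
  | succ k ih =>
    rw [← Equiv.sum_comp (Fin.snocEquiv (fun _ : Fin (k + 2) => Fin N)), Fintype.sum_prod_type,
      Finset.sum_comm]
    have h1 : ∀ f' : Fin (k + 1) → Fin N, ∑ x : Fin N,
        (∏ t : Fin (k + 1), M ((Fin.snocEquiv (fun _ : Fin (k + 2) => Fin N)) (x, f') t.castSucc)
          ((Fin.snocEquiv (fun _ : Fin (k + 2) => Fin N)) (x, f') t.succ)) *
          φ ((Fin.snocEquiv (fun _ : Fin (k + 2) => Fin N)) (x, f') 0)
            ((Fin.snocEquiv (fun _ : Fin (k + 2) => Fin N)) (x, f') (Fin.last (k + 1))) =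
        (∏ t : Fin k, M (f' t.castSucc) (f' t.succ)) *
          ∑ x, M (f' (Fin.last k)) x * φ (f' 0) x := by
      intro f'
      rw [Finset.mul_sum]
      refine Finset.sum_congr rfl fun x _ => ?_
      have a1 : ∀ t : Fin (k + 1), (Fin.snocEquiv (fun _ : Fin (k + 2) => Fin N)) (x, f')
          t.castSucc = f' t := fun t => by
        show (Fin.snoc f' x : Fin (k + 2) → Fin N) t.castSucc = f' t
        exact Fin.snoc_castSucc (α := fun _ => Fin N) x f' t
      have a2 : (Fin.snocEquiv (fun _ : Fin (k + 2) => Fin N)) (x, f') (Fin.last (k + 1)) = x := by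
        show (Fin.snoc f' x : Fin (k + 2) → Fin N) (Fin.last (k + 1)) = x
        exact Fin.snoc_last (α := fun _ => Fin N) x f'
      have a3 : (Fin.snocEquiv (fun _ : Fin (k + 2) => Fin N)) (x, f') 0 = f' 0 := by
        rw [← Fin.castSucc_zero, a1]
      rw [a2, a3, Fin.prod_univ_castSucc]
      simp only [a1, Fin.succ_last, a2, Fin.succ_castSucc]
      ring
    rw [Finset.sum_congr rfl (fun f' _ => h1 f'), ih (fun i j => ∑ x, M j x * φ i x)]
    refine Finset.sum_congr rfl fun i _ => ?_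
    simp only [pow_succ, Matrix.mul_apply, Finset.mul_sum, Finset.sum_mul]
    rw [Finset.sum_comm]
    exact Finset.sum_congr rfl fun x _ => Finset.sum_congr rfl fun j _ => by ring

theorem ctn_cyc {N : ℕ} (M : Matrix (Fin N) (Fin N) ℝ) (p : ℕ) :
    ∑ f : Fin (p + 1) → Fin N, ∏ t : Fin (p + 1), M (f t) (f (t + 1)) = (M ^ (p + 1)).trace := by
  have h1 : ∀ f : Fin (p + 1) → Fin N, ∏ t : Fin (p + 1), M (f t) (f (t + 1)) =
      (∏ t : Fin p, M (f t.castSucc) (f t.succ)) * M (f (Fin.last p)) (f 0) := by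
    intro f
    rw [Fin.prod_univ_castSucc]
    simp only [Fin.coeSucc_eq_succ, Fin.last_add_one]
  rw [Finset.sum_congr rfl (fun f _ => h1 f), ctn_walk M p (fun i j => M j i), pow_succ,
    Matrix.trace]
  simp only [Matrix.diag_apply, Matrix.mul_apply]

theorem ctn_trace {N : ℕ} (X : Matrix (Fin N) (Fin N) ℝ) :
    |X.trace| ≤ N * ‖Matrix.toEuclideanCLM (𝕜 := ℝ) X‖ := by
  have h1 : ∀ i, |X i i| ≤ ‖Matrix.toEuclideanCLM (𝕜 := ℝ) X‖ := by
    intro i
    have e1 : (Matrix.toEuclideanCLM (𝕜 := ℝ) X (EuclideanSpace.single i (1:ℝ))) i = X i i := by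
      rw [Matrix.ofLp_toEuclideanCLM]
      simp [Matrix.mulVec, dotProduct]
    rw [← e1, ← Real.norm_eq_abs]
    refine (PiLp.norm_apply_le _ i).trans ?_
    refine ((Matrix.toEuclideanCLM (𝕜 := ℝ) X).le_opNorm _).trans ?_
    simp
  calc |X.trace| = |∑ i, X i i| := rfl
    _ ≤ ∑ i, |X i i| := Finset.abs_sum_le_sum_abs _ _
    _ ≤ ∑ _i : Fin N, ‖Matrix.toEuclideanCLM (𝕜 := ℝ) X‖ := Finset.sum_le_sum fun i _ => h1 i
    _ = _ := by simp

/-- the sign matrix times its transpose -/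
noncomputable def ctnA {N : ℕ} (G : Fin N → Fin N → Bool) : Matrix (Fin N) (Fin N) ℝ :=
  Matrix.of (fun i j => sgn (G i j)) * (Matrix.of (fun i j => sgn (G i j))).transpose

theorem ctnA_apply {N : ℕ} (G : Fin N → Fin N → Bool) (i j : Fin N) :
    ctnA G i j = ∑ k, sgn (G i k) * sgn (G j k) := by
  rw [ctnA, Matrix.mul_apply]
  rfl

theorem ctn_part1 {N p : ℕ} (G : Fin N → Fin N → Bool) (g : Pos p → Fin N) :
    ∑ l : Fin (p + 1) → Fin N, ∏ x, sgn (G (g x) (l (e1 x))) =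
      ∏ t, ctnA G (g (t, true)) (g (t + 1, false)) := by
  have h1 : ∀ l : Fin (p + 1) → Fin N, ∏ x, sgn (G (g x) (l (e1 x))) =
      ∏ t, (sgn (G (g (t, true)) (l t)) * sgn (G (g (t + 1, false)) (l t))) := by
    intro l
    rw [Fintype.prod_prod_type]
    simp only [Fintype.prod_bool]
    rw [Finset.prod_mul_distrib, Finset.prod_mul_distrib]
    congr 1
    rw [← Equiv.prod_comp (Equiv.addRight (1 : Fin (p + 1)))]
    refine Finset.prod_congr rfl fun t _ => ?_
    have : e1 ((Equiv.addRight (1 : Fin (p + 1))) t, false) = t := by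
      show (t + 1) - 1 = t
      exact add_sub_cancel_right t 1
    rw [this]
    rfl
  rw [Finset.sum_congr rfl (fun l _ => h1 l),
    ctn_sum_prod (fun t j => sgn (G (g (t, true)) j) * sgn (G (g (t + 1, false)) j))]
  exact Finset.prod_congr rfl fun t _ => (ctnA_apply G _ _).symm

theorem ctn_part2 {N p : ℕ} (G : Fin N → Fin N → Bool) (g : Pos p → Fin N) :
    ∑ m : Fin (p + 1) → Fin N, ∏ x : Pos p, sgn (G (g x) (m x.1)) =
      ∏ t, ctnA G (g (t, false)) (g (t, true)) := by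
  have h1 : ∀ m : Fin (p + 1) → Fin N, ∏ x : Pos p, sgn (G (g x) (m x.1)) =
      ∏ t, (sgn (G (g (t, false)) (m t)) * sgn (G (g (t, true)) (m t))) := by
    intro m
    rw [Fintype.prod_prod_type]
    simp only [Fintype.prod_bool]
    exact Finset.prod_congr rfl fun t _ => mul_comm _ _
  rw [Finset.sum_congr rfl (fun l _ => h1 l),
    ctn_sum_prod (fun t j => sgn (G (g (t, false)) j) * sgn (G (g (t, true)) j))]
  exact Finset.prod_congr rfl fun t _ => (ctnA_apply G _ _).symm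

/-- splitting of the positions -/
def ctnEquiv (N p : ℕ) : ((Fin (p + 1) → Fin N) × (Fin (p + 1) → Fin N)) ≃ (Pos p → Fin N) where
  toFun fh := fun x => if x.2 then fh.2 x.1 else fh.1 x.1
  invFun g := (fun t => g (t, false), fun t => g (t, true))
  left_inv fh := by simp
  right_inv g := by
    funext x
    obtain ⟨t, b⟩ := x
    cases b <;> simp

theorem ctn_key {N p : ℕ} (G1 G2 : Fin N → Fin N → Bool) :
    ∑ w : (Pos p → Fin N) × (Fin (p + 1) → Fin N) × (Fin (p + 1) → Fin N),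
      (∏ x, sgn (G1 (w.1 x) (w.2.1 (e1 x)))) * (∏ x, sgn (G2 (w.1 x) (w.2.2 x.1))) =
      ((ctnA G2 * ctnA G1) ^ (p + 1)).trace := by
  rw [Fintype.sum_prod_type]
  have h1 : ∀ g : Pos p → Fin N, ∑ lm : (Fin (p + 1) → Fin N) × (Fin (p + 1) → Fin N),
      (∏ x, sgn (G1 (g x) (lm.1 (e1 x)))) * (∏ x, sgn (G2 (g x) (lm.2 x.1))) =
      (∏ t, ctnA G1 (g (t, true)) (g (t + 1, false))) *
        ∏ t, ctnA G2 (g (t, false)) (g (t, true)) := by
    intro g
    rw [← ctn_part1, ← ctn_part2, Finset.sum_mul_sum, Fintype.sum_prod_type]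
  rw [Finset.sum_congr rfl (fun g _ => h1 g), ← Equiv.sum_comp (ctnEquiv N p),
    Fintype.sum_prod_type, ← ctn_cyc]
  refine Finset.sum_congr rfl fun f _ => ?_
  have h2 : ∀ h : Fin (p + 1) → Fin N,
      (∏ t, ctnA G1 ((ctnEquiv N p) (f, h) (t, true)) ((ctnEquiv N p) (f, h) (t + 1, false))) *
        ∏ t, ctnA G2 ((ctnEquiv N p) (f, h) (t, false)) ((ctnEquiv N p) (f, h) (t, true)) =
      ∏ t, (ctnA G2 (f t) (h t) * ctnA G1 (h t) (f (t + 1))) := by
    intro h
    rw [Finset.prod_mul_distrib, mul_comm]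
    rfl
  rw [Finset.sum_congr rfl (fun h _ => h2 h),
    ctn_sum_prod (fun t j => ctnA G2 (f t) j * ctnA G1 j (f (t + 1)))]
  exact Finset.prod_congr rfl fun t _ => (Matrix.mul_apply).symm

theorem ctn_normA {N : ℕ} (G : Fin N → Fin N → Bool) :
    ‖Matrix.toEuclideanCLM (𝕜 := ℝ) (ctnA G)‖ ≤ ‖signOp G‖ ^ 2 := by
  have e : Matrix.toEuclideanCLM (𝕜 := ℝ) (ctnA G) = signOp G * star (signOp G) := by
    unfold signOp
    rw [← map_star, ← map_mul]
    congr 1
  rw [e]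
  refine (norm_mul_le _ _).trans ?_
  rw [ContinuousLinearMap.star_eq_adjoint, LinearIsometryEquiv.norm_map, sq]

theorem ctn_bound {N p : ℕ} (G1 G2 : Fin N → Fin N → Bool) :
    ((ctnA G2 * ctnA G1) ^ (p + 1)).trace ≤
      N * (‖signOp G1‖ ^ (2 * (p + 1)) * ‖signOp G2‖ ^ (2 * (p + 1))) := by
  refine (le_abs_self _).trans ((ctn_trace _).trans ?_)
  gcongr
  rw [map_pow, map_mul]
  refine (norm_pow_le' _ (Nat.succ_pos p)).trans ?_
  rw [pow_mul, pow_mul, ← mul_pow]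
  gcongr
  refine (norm_mul_le _ _).trans ?_
  rw [mul_comm]
  gcongr
  · exact ctn_normA G1
  · exact ctn_normA G2


theorem count_to_norm (p : ℕ) :
    (Nat.card {w : (Pos p → Fin (2 * (p + 1))) × (Fin (p + 1) → Fin (2 * (p + 1))) × (Fin (p + 1) → Fin (2 * (p + 1))) //
      EvenF (fun x => (w.1 x, w.2.1 (e1 x))) ∧ EvenF (fun x => (w.1 x, w.2.2 x.1))} : ℝ)
      ≤ (2 * ((p : ℝ) + 1)) * (avg (fun G : Fin (2 * (p + 1)) → Fin (2 * (p + 1)) → Bool => ‖signOp G‖ ^ (2 * (p + 1)))) ^ 2 := by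
  classical
  obtain ⟨N, hN⟩ : ∃ N, N = 2 * (p + 1) := ⟨_, rfl⟩
  have hN' : (2 * ((p : ℝ) + 1)) = (N : ℝ) := by rw [hN]; push_cast; ring
  rw [hN', ← hN]
  have hK : (Fintype.card (Fin N → Fin N → Bool) : ℝ) = (2:ℝ) ^ Fintype.card (Fin N × Fin N) := by
    rw [← Fintype.card_congr (Equiv.curry (Fin N) (Fin N) Bool)]
    simp
  have hK0 : (0:ℝ) < (Fintype.card (Fin N → Fin N → Bool) : ℝ) := by rw [hK]; positivity
  have hchar : ∀ φ : Pos p → Fin N × Fin N, (∑ G : Fin N → Fin N → Bool,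
      ∏ x, sgn (G (φ x).1 (φ x).2)) = if EvenF φ then (Fintype.card (Fin N → Fin N → Bool) : ℝ) else 0 := by
    intro φ
    rw [hK, ← ctn_char φ, ← Equiv.sum_comp (Equiv.curry (Fin N) (Fin N) Bool)]
    rfl
  have hcard : (Nat.card {w : (Pos p → Fin N) × (Fin (p + 1) → Fin N) × (Fin (p + 1) → Fin N) //
      EvenF (fun x => (w.1 x, w.2.1 (e1 x))) ∧ EvenF (fun x => (w.1 x, w.2.2 x.1))} : ℝ) =
      ∑ w : (Pos p → Fin N) × (Fin (p + 1) → Fin N) × (Fin (p + 1) → Fin N),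
        (if EvenF (fun x => (w.1 x, w.2.1 (e1 x))) ∧ EvenF (fun x => (w.1 x, w.2.2 x.1))
          then (1:ℝ) else 0) := by
    rw [Nat.card_eq_fintype_card, Fintype.card_subtype, Finset.sum_boole]
  have hmul : (Nat.card {w : (Pos p → Fin N) × (Fin (p + 1) → Fin N) × (Fin (p + 1) → Fin N) //
      EvenF (fun x => (w.1 x, w.2.1 (e1 x))) ∧ EvenF (fun x => (w.1 x, w.2.2 x.1))} : ℝ) *
      (Fintype.card (Fin N → Fin N → Bool) : ℝ) ^ 2 =
      ∑ G1 : Fin N → Fin N → Bool, ∑ G2 : Fin N → Fin N → Bool,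
        ((ctnA G2 * ctnA G1) ^ (p + 1)).trace := by
    rw [hcard, Finset.sum_mul]
    have h1 : ∀ w : (Pos p → Fin N) × (Fin (p + 1) → Fin N) × (Fin (p + 1) → Fin N),
        (if EvenF (fun x => (w.1 x, w.2.1 (e1 x))) ∧ EvenF (fun x => (w.1 x, w.2.2 x.1))
          then (1:ℝ) else 0) * (Fintype.card (Fin N → Fin N → Bool) : ℝ) ^ 2 =
        ∑ G1 : Fin N → Fin N → Bool, ∑ G2 : Fin N → Fin N → Bool,
          (∏ x, sgn (G1 (w.1 x) (w.2.1 (e1 x)))) * (∏ x, sgn (G2 (w.1 x) (w.2.2 x.1))) := by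
      intro w
      rw [← Finset.sum_mul_sum]
      have c1 := hchar (fun x => (w.1 x, w.2.1 (e1 x)))
      have c2 := hchar (fun x => (w.1 x, w.2.2 x.1))
      simp only at c1 c2
      rw [c1, c2]
      by_cases a1 : EvenF (fun x => (w.1 x, w.2.1 (e1 x)))
      · by_cases a2 : EvenF (fun x => (w.1 x, w.2.2 x.1))
        · simp only [a1, a2, and_self, if_true]; ring
        · simp [a2]
      · simp [a1]
    rw [Finset.sum_congr rfl (fun w _ => h1 w), Finset.sum_comm]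
    refine Finset.sum_congr rfl fun G1 _ => ?_
    rw [Finset.sum_comm]
    exact Finset.sum_congr rfl fun G2 _ => ctn_key G1 G2
  have hle : ∑ G1 : Fin N → Fin N → Bool, ∑ G2 : Fin N → Fin N → Bool,
        ((ctnA G2 * ctnA G1) ^ (p + 1)).trace ≤
      N * ((∑ G : Fin N → Fin N → Bool, ‖signOp G‖ ^ (2 * (p + 1))) ^ 2) := by
    rw [sq, Finset.sum_mul_sum, Finset.mul_sum]
    refine Finset.sum_le_sum fun G1 _ => ?_
    rw [Finset.mul_sum]
    exact Finset.sum_le_sum fun G2 _ => ctn_bound G1 G2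
  rw [← hmul] at hle
  unfold avg
  rw [div_pow, ← mul_div_assoc, le_div_iff₀ (by positivity)]
  rw [hN] at hle ⊢
  exact hle

end Pool.Agent.Helper495.NN
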