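import Mathlib
import Pool.Agent.Helper495.NN.Defs

open scoped BigOperators

namespace Pool.Agent.Helper495.NN





theorem net_sum (M : ℕ) : ∑ t ∈ Finset.Icc (-(M : ℤ)) M, ((1 : ℝ) / 2) ^ t.natAbs ≤ 4 := by
  classical
  let φ : ℤ → Bool × ℕ := fun t => (decide (0 ≤ t), t.natAbs)
  have hinj : Function.Injective φ := by
    intro a b hab
    have h1 : decide (0 ≤ a) = decide (0 ≤ b) := congrArg Prod.fst hab
    have h2 : a.natAbs = b.natAbs := congrArg Prod.snd hab
    rw [decide_eq_decide] at h1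
    omega
  have e1 : ∑ t ∈ Finset.Icc (-(M : ℤ)) M, ((1 : ℝ) / 2) ^ t.natAbs =
      ∑ x ∈ (Finset.Icc (-(M : ℤ)) M).image φ, ((1 : ℝ) / 2) ^ x.2 := by
    rw [Finset.sum_image hinj.injOn]
  have hsub : (Finset.Icc (-(M : ℤ)) M).image φ ⊆
      (Finset.univ : Finset Bool) ×ˢ Finset.range (M + 1) := by
    intro x hx
    obtain ⟨t, ht, rfl⟩ := Finset.mem_image.1 hx
    rw [Finset.mem_Icc] at ht
    refine Finset.mem_product.2 ⟨Finset.mem_univ _, Finset.mem_range.2 ?_⟩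
    change t.natAbs < M + 1
    omega
  rw [e1]
  refine (Finset.sum_le_sum_of_subset_of_nonneg hsub fun _ _ _ => by positivity).trans ?_
  rw [Finset.sum_product, Fintype.sum_bool]
  have := sum_geometric_two_le (M + 1)
  simp only
  linarith

theorem net_card : ∃ K : ℕ, 1 ≤ K ∧ ∀ N : ℕ, {z : Fin N → ℤ | ∑ j, (z j) ^ 2 ≤ 4 * (N : ℤ)}.Finite ∧
    Set.ncard {z : Fin N → ℤ | ∑ j, (z j) ^ 2 ≤ 4 * (N : ℤ)} ≤ K ^ N := by
  classical
  refine ⟨64, by norm_num, fun N => ?_⟩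
  have habs : ∀ a : ℤ, (a.natAbs : ℤ) ≤ a ^ 2 := by
    intro a
    have h1 : ((a.natAbs : ℤ)) ^ 2 = a ^ 2 := Int.natAbs_sq a
    have h2 : (0 : ℤ) ≤ a.natAbs := Int.natCast_nonneg _
    rw [← h1]
    rcases h2.lt_or_eq with h3 | h3
    · nlinarith
    · rw [← h3]
      norm_num
  have hsq : {z : Fin N → ℤ | ∑ j, (z j) ^ 2 ≤ 4 * (N : ℤ)} =
      ((Fintype.piFinset fun _ : Fin N => Finset.Icc (-((4 * N : ℕ) : ℤ)) ((4 * N : ℕ) : ℤ)).filter
        fun z => ∑ j, (z j) ^ 2 ≤ 4 * (N : ℤ) : Finset (Fin N → ℤ)) := by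
    ext z
    simp only [Set.mem_ofPred_eq, Finset.coe_filter, Fintype.mem_piFinset, Finset.mem_Icc]
    constructor
    · intro h
      refine ⟨fun j => ?_, h⟩
      have h1 : (z j) ^ 2 ≤ ∑ j, (z j) ^ 2 :=
        Finset.single_le_sum (f := fun j => (z j) ^ 2) (fun _ _ => sq_nonneg _) (Finset.mem_univ j)
      have h2 := habs (z j)
      push_cast
      constructor <;> omega
    · exact fun h => h.2
  rw [hsq]
  refine ⟨Finset.finite_toSet _, ?_⟩
  rw [Set.ncard_coe_finset]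
  have key : (((Fintype.piFinset fun _ : Fin N =>
      Finset.Icc (-((4 * N : ℕ) : ℤ)) ((4 * N : ℕ) : ℤ)).filter
        fun z => ∑ j, (z j) ^ 2 ≤ 4 * (N : ℤ)).card : ℝ) ≤ 64 ^ N := by
    calc (((Fintype.piFinset fun _ : Fin N =>
          Finset.Icc (-((4 * N : ℕ) : ℤ)) ((4 * N : ℕ) : ℤ)).filter
            fun z => ∑ j, (z j) ^ 2 ≤ 4 * (N : ℤ)).card : ℝ)
        = ∑ z ∈ (Fintype.piFinset fun _ : Fin N =>
          Finset.Icc (-((4 * N : ℕ) : ℤ)) ((4 * N : ℕ) : ℤ)).filter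
            fun z => ∑ j, (z j) ^ 2 ≤ 4 * (N : ℤ), (1 : ℝ) := by
          rw [Finset.sum_const, nsmul_eq_mul, mul_one]
      _ ≤ ∑ z ∈ (Fintype.piFinset fun _ : Fin N =>
          Finset.Icc (-((4 * N : ℕ) : ℤ)) ((4 * N : ℕ) : ℤ)).filter
            fun z => ∑ j, (z j) ^ 2 ≤ 4 * (N : ℤ),
              (16 : ℝ) ^ N * ∏ j, ((1 : ℝ) / 2) ^ (z j).natAbs := by
          refine Finset.sum_le_sum fun z hz => ?_
          have hz2 := (Finset.mem_filter.1 hz).2
          have h1 : ∑ j, (z j).natAbs ≤ 4 * N := by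
            have h2 : ((∑ j, (z j).natAbs : ℕ) : ℤ) ≤ 4 * (N : ℤ) := by
              push_cast
              refine le_trans (Finset.sum_le_sum fun j _ => ?_) hz2
              have := habs (z j)
              push_cast at this
              exact this
            exact_mod_cast h2
          rw [Finset.prod_pow_eq_pow_sum]
          have h3 : ((1 : ℝ) / 2) ^ (4 * N) ≤ ((1 : ℝ) / 2) ^ (∑ j, (z j).natAbs) :=
            pow_le_pow_of_le_one (by norm_num) (by norm_num) h1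
          calc (1 : ℝ) = 16 ^ N * ((1 : ℝ) / 2) ^ (4 * N) := by
                rw [pow_mul, ← mul_pow]
                norm_num
            _ ≤ _ := mul_le_mul_of_nonneg_left h3 (by positivity)
      _ ≤ ∑ z ∈ (Fintype.piFinset fun _ : Fin N =>
          Finset.Icc (-((4 * N : ℕ) : ℤ)) ((4 * N : ℕ) : ℤ)),
              (16 : ℝ) ^ N * ∏ j, ((1 : ℝ) / 2) ^ (z j).natAbs :=
          Finset.sum_le_sum_of_subset_of_nonneg (Finset.filter_subset _ _)
            fun _ _ _ => by positivity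
      _ = 16 ^ N * ∏ j : Fin N, ∑ t ∈ Finset.Icc (-((4 * N : ℕ) : ℤ)) ((4 * N : ℕ) : ℤ),
              ((1 : ℝ) / 2) ^ t.natAbs := by
          rw [← Finset.mul_sum, Finset.prod_univ_sum]
      _ ≤ 16 ^ N * 4 ^ N := by
          refine mul_le_mul_of_nonneg_left ?_ (by positivity)
          rw [Finset.prod_const, Finset.card_univ, Fintype.card_fin]
          exact pow_le_pow_left₀ (Finset.sum_nonneg fun _ _ => by positivity) (net_sum _) N
      _ = 64 ^ N := by rw [← mul_pow]; norm_num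
  exact_mod_cast key

end Pool.Agent.Helper495.NN
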