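import Mathlib
import Pool.Agent.Helper495.NN.Defs

open scoped BigOperators

namespace Pool.Agent.Helper495.NN





theorem net_point {N : ℕ} {F : Type} [NormedAddCommGroup F] [NormedSpace ℝ F] (hN : 0 < N) (T : E N →L[ℝ] F) :
    ∃ z : Fin N → ℤ, ∑ j, (z j) ^ 2 ≤ 4 * (N : ℤ) ∧
      (N : ℝ) * ‖T‖ ^ 2 ≤ ‖T (WithLp.toLp 2 (fun j => (z j : ℝ)))‖ ^ 2 := by
  classical
  have : Nonempty (Fin N) := ⟨⟨0, hN⟩⟩
  have hne : (Metric.sphere (0 : E N) 1).Nonempty := NormedSpace.sphere_nonempty.mpr zero_le_one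
  obtain ⟨x, hx, hmax⟩ := (isCompact_sphere (0 : E N) 1).exists_isMaxOn hne
    (T.continuous.norm.continuousOn)
  have hx1 : ‖x‖ = 1 := by simpa using hx
  have hTx : ‖T‖ ≤ ‖T x‖ := by
    apply ContinuousLinearMap.opNorm_le_of_unit_norm (norm_nonneg _)
    intro z hz
    exact hmax (by simpa using hz)
  set s := Real.sqrt N with hs
  have hs0 : 0 ≤ s := Real.sqrt_nonneg _
  have hs2 : s ^ 2 = N := Real.sq_sqrt (Nat.cast_nonneg N)
  set w : E N := (2 * s) • x with hw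
  have hwn : ‖w‖ ^ 2 = 4 * N := by
    rw [hw, norm_smul, hx1, Real.norm_of_nonneg (by positivity), mul_one, mul_pow, hs2]
    norm_num
  have hwn' : ∑ j, (w j) ^ 2 = 4 * N := by
    rw [← hwn, EuclideanSpace.norm_sq_eq]
    simp
  set z : Fin N → ℤ := fun j => if 0 ≤ w j then ⌊w j⌋ else -⌊-(w j)⌋ with hz
  have hz1 : ∀ j, ((z j : ℤ) : ℝ) ^ 2 ≤ (w j) ^ 2 ∧ (w j - z j) ^ 2 ≤ 1 := by
    intro j
    simp only [hz]
    split_ifs with h
    · have h1 := Int.floor_le (w j)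
      have h2 := Int.lt_floor_add_one (w j)
      have h3 : (0 : ℝ) ≤ (⌊w j⌋ : ℝ) := by exact_mod_cast Int.floor_nonneg.mpr h
      constructor
      · nlinarith
      · nlinarith
    · rw [not_le] at h
      have h1 := Int.floor_le (-(w j))
      have h2 := Int.lt_floor_add_one (-(w j))
      have h3 : (0 : ℝ) ≤ (⌊-(w j)⌋ : ℝ) := by exact_mod_cast Int.floor_nonneg.mpr (by linarith)
      push_cast
      constructor
      · nlinarith
      · nlinarith
  refine ⟨z, ?_, ?_⟩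
  · have h1 : ((∑ j, (z j) ^ 2 : ℤ) : ℝ) ≤ 4 * N := by
      push_cast
      rw [← hwn']
      exact Finset.sum_le_sum fun j _ => (hz1 j).1
    exact_mod_cast h1
  · set v : E N := WithLp.toLp 2 (fun j => (z j : ℝ)) with hv
    have hd : ‖w - v‖ ^ 2 ≤ N := by
      rw [EuclideanSpace.norm_sq_eq]
      calc ∑ j, ‖(w - v) j‖ ^ 2 ≤ ∑ j : Fin N, (1 : ℝ) := by
            apply Finset.sum_le_sum
            intro j _
            have := (hz1 j).2
            simpa [hv] using this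
        _ = N := by simp
    have hd2 : ‖w - v‖ ≤ s := Real.le_sqrt_of_sq_le hd
    have h1 : ‖T w‖ = 2 * s * ‖T x‖ := by
      rw [hw, map_smul, norm_smul, Real.norm_of_nonneg (by positivity)]
    have h2 : ‖T (w - v)‖ ≤ ‖T‖ * s := (T.le_opNorm _).trans (by gcongr)
    have h3 : ‖T w‖ ≤ ‖T v‖ + ‖T (w - v)‖ := by
      have : T w = T v + T (w - v) := by rw [← map_add]; congr 1; abel
      rw [this]
      exact norm_add_le _ _
    have h4 : s * ‖T‖ ≤ ‖T v‖ := by
      have : 2 * s * ‖T‖ ≤ 2 * s * ‖T x‖ := by gcongr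
      nlinarith
    calc (N : ℝ) * ‖T‖ ^ 2 = (s * ‖T‖) ^ 2 := by rw [mul_pow, hs2]
      _ ≤ ‖T v‖ ^ 2 := by
        have : 0 ≤ s * ‖T‖ := by positivity
        gcongr


end Pool.Agent.Helper495.NN
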