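import Mathlib
import Pool.Agent.Helper495.NN.Defs

open scoped BigOperators

namespace Pool.Agent.Helper495.NN





theorem rad_mom_exp1 {n : ℕ} (θ : ℝ) (z : Fin n → ℝ) :
    ∑ g : Fin n → Bool, Real.exp (θ * ∑ j, sgn (g j) * z j) = ∏ j, (Real.exp (θ * z j) + Real.exp (-(θ * z j))) := by
  have h : ∀ g : Fin n → Bool, Real.exp (θ * ∑ j, sgn (g j) * z j) = ∏ j, Real.exp (θ * (sgn (g j) * z j)) := by
    intro g
    rw [Finset.mul_sum, Real.exp_sum]
  simp only [h]
  have h2 : ∏ j, (Real.exp (θ * z j) + Real.exp (-(θ * z j))) = ∏ j : Fin n, ∑ b : Bool, Real.exp (θ * (sgn b * z j)) := by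
    apply Finset.prod_congr rfl
    intro j _
    simp [sgn]
  rw [h2, Finset.prod_univ_sum (fun _ => Finset.univ) (fun j (b : Bool) => Real.exp (θ * (sgn b * z j))), Fintype.piFinset_univ]

theorem rad_mom_exp2 {n : ℕ} (θ : ℝ) (z : Fin n → ℝ) (R : ℝ) (hz : ∑ j, z j ^ 2 ≤ R) :
    ∑ g : Fin n → Bool, Real.exp (θ * ∑ j, sgn (g j) * z j) ≤ (Fintype.card (Fin n → Bool) : ℝ) * Real.exp (θ ^ 2 * R / 2) := by
  rw [rad_mom_exp1]
  have h1 : ∀ j, Real.exp (θ * z j) + Real.exp (-(θ * z j)) ≤ 2 * Real.exp ((θ * z j) ^ 2 / 2) := by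
    intro j
    have := Real.cosh_le_exp_half_sq (θ * z j)
    rw [Real.cosh_eq] at this
    linarith
  calc ∏ j, (Real.exp (θ * z j) + Real.exp (-(θ * z j))) ≤ ∏ j, (2 * Real.exp ((θ * z j) ^ 2 / 2)) := by
        apply Finset.prod_le_prod
        · intro j _; positivity
        · intro j _; exact h1 j
    _ = 2 ^ n * Real.exp (∑ j, (θ * z j) ^ 2 / 2) := by
        rw [Finset.prod_mul_distrib, Real.exp_sum]; simp
    _ ≤ (Fintype.card (Fin n → Bool) : ℝ) * Real.exp (θ ^ 2 * R / 2) := by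
        have hc : (Fintype.card (Fin n → Bool) : ℝ) = 2 ^ n := by simp
        rw [hc]
        apply mul_le_mul_of_nonneg_left _ (by positivity)
        apply Real.exp_le_exp.2
        have : ∑ j, (θ * z j) ^ 2 / 2 = θ ^ 2 * (∑ j, z j ^ 2) / 2 := by
          rw [Finset.mul_sum, Finset.sum_div]
          apply Finset.sum_congr rfl
          intro j _; ring
        rw [this]
        have := mul_le_mul_of_nonneg_left hz (sq_nonneg θ)
        linarith

theorem rad_mom_fac (s : ℕ) : ((2 * s).factorial : ℝ) ≤ (s.factorial : ℝ) * (2 * s : ℝ) ^ s := by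
  have h1 := Nat.factorial_mul_ascFactorial s s
  have h2 := Nat.ascFactorial_le_pow_add s s
  have : (2 * s).factorial ≤ s.factorial * (2 * s) ^ s := by
    rw [two_mul, ← h1]
    exact Nat.mul_le_mul_left _ h2
  exact_mod_cast this

theorem rad_mom_one {n : ℕ} (z : Fin n → ℝ) (R : ℝ) (hR : 0 < R) (hz : ∑ j, z j ^ 2 ≤ R) (s : ℕ) :
    ∑ g : Fin n → Bool, (1 / (64 * R) * (∑ j, sgn (g j) * z j) ^ 2) ^ s / (s.factorial : ℝ)
      ≤ (Fintype.card (Fin n → Bool) : ℝ) * (2 * (1 / 2) ^ s) := by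
  rcases Nat.eq_zero_or_pos s with hs | hs
  · subst hs
    simp
  have hs' : (0:ℝ) < s := by exact_mod_cast hs
  set θ : ℝ := Real.sqrt (2 * s / R) with hθ
  have hθ2 : θ ^ 2 = 2 * s / R := Real.sq_sqrt (by positivity)
  have hθ0 : 0 ≤ θ := Real.sqrt_nonneg _
  have hpt : ∀ y : ℝ, (2 * s / R) ^ s * (y ^ 2) ^ s ≤ ((2 * s).factorial : ℝ) * (Real.exp (θ * y) + Real.exp ((-θ) * y)) := by
    intro y
    have h1 := Real.pow_div_factorial_le_exp (θ * |y|) (by positivity) (2 * s)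
    have h2 : (θ * |y|) ^ (2 * s) = (2 * s / R) ^ s * (y ^ 2) ^ s := by
      rw [pow_mul, mul_pow, sq_abs, hθ2, mul_pow]
    rw [h2, div_le_iff₀ (by positivity)] at h1
    have h3 : Real.exp (θ * |y|) ≤ Real.exp (θ * y) + Real.exp ((-θ) * y) := by
      rcases abs_cases y with h | h
      · rw [h.1]
        have := Real.exp_pos ((-θ) * y)
        linarith
      · rw [h.1]
        have := Real.exp_pos (θ * y)
        have h4 : θ * -y = (-θ) * y := by ring
        rw [h4]; linarith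
    have h5 : (0:ℝ) ≤ ((2 * s).factorial : ℝ) := by positivity
    nlinarith [mul_le_mul_of_nonneg_left h3 h5]
  have hsum : (2 * s / R) ^ s * ∑ g : Fin n → Bool, ((∑ j, sgn (g j) * z j) ^ 2) ^ s ≤
      ((2 * s).factorial : ℝ) * (2 * ((Fintype.card (Fin n → Bool) : ℝ) * Real.exp s)) := by
    rw [Finset.mul_sum]
    calc ∑ g : Fin n → Bool, (2 * s / R) ^ s * ((∑ j, sgn (g j) * z j) ^ 2) ^ s
        ≤ ∑ g : Fin n → Bool, ((2 * s).factorial : ℝ) * (Real.exp (θ * (∑ j, sgn (g j) * z j)) + Real.exp ((-θ) * (∑ j, sgn (g j) * z j))) :=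
          Finset.sum_le_sum fun g _ => hpt _
      _ = ((2 * s).factorial : ℝ) * ((∑ g : Fin n → Bool, Real.exp (θ * (∑ j, sgn (g j) * z j))) + (∑ g : Fin n → Bool, Real.exp ((-θ) * (∑ j, sgn (g j) * z j)))) := by
          rw [← Finset.mul_sum, Finset.sum_add_distrib]
      _ ≤ _ := by
          apply mul_le_mul_of_nonneg_left _ (by positivity)
          have e1 := rad_mom_exp2 θ z R hz
          have e2 := rad_mom_exp2 (-θ) z R hz
          have h6 : θ ^ 2 * R / 2 = s := by rw [hθ2]; field_simp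
          have h7 : (-θ) ^ 2 * R / 2 = s := by rw [neg_sq, h6]
          rw [h6] at e1
          rw [h7] at e2
          linarith
  have hexp : Real.exp (s:ℝ) ≤ 4 ^ s := by
    have : Real.exp (s:ℝ) = (Real.exp 1) ^ s := by rw [← Real.exp_nat_mul]; simp
    rw [this]
    apply pow_le_pow_left₀ (Real.exp_pos _).le
    have := Real.exp_one_lt_d9
    linarith
  have hfac := rad_mom_fac s
  have hM : ∑ g : Fin n → Bool, ((∑ j, sgn (g j) * z j) ^ 2) ^ s ≤
      (s.factorial : ℝ) * R ^ s * (2 * ((Fintype.card (Fin n → Bool) : ℝ) * 4 ^ s)) := by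
    have hpos : (0:ℝ) < (2 * s / R) ^ s := by positivity
    have h8 : (2 * s / R) ^ s * ∑ g : Fin n → Bool, ((∑ j, sgn (g j) * z j) ^ 2) ^ s ≤
        (2 * s / R) ^ s * ((s.factorial : ℝ) * R ^ s * (2 * ((Fintype.card (Fin n → Bool) : ℝ) * 4 ^ s))) := by
      refine hsum.trans ?_
      have h9 : (2 * s / R) ^ s * ((s.factorial : ℝ) * R ^ s * (2 * ((Fintype.card (Fin n → Bool) : ℝ) * 4 ^ s)))
          = ((s.factorial : ℝ) * (2 * s : ℝ) ^ s) * (2 * ((Fintype.card (Fin n → Bool) : ℝ) * 4 ^ s)) := by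
        rw [div_pow]; field_simp
      rw [h9]
      apply mul_le_mul hfac _ (by positivity) (by positivity)
      apply mul_le_mul_of_nonneg_left _ (by norm_num)
      apply mul_le_mul_of_nonneg_left hexp (by positivity)
    exact le_of_mul_le_mul_left h8 hpos
  have hE : ∑ g : Fin n → Bool, (1 / (64 * R) * (∑ j, sgn (g j) * z j) ^ 2) ^ s / (s.factorial : ℝ)
      = (1 / (64 * R)) ^ s / (s.factorial : ℝ) * ∑ g : Fin n → Bool, ((∑ j, sgn (g j) * z j) ^ 2) ^ s := by
    rw [Finset.mul_sum]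
    apply Finset.sum_congr rfl
    intro g _
    rw [mul_pow]; ring
  rw [hE]
  calc (1 / (64 * R)) ^ s / (s.factorial : ℝ) * ∑ g : Fin n → Bool, ((∑ j, sgn (g j) * z j) ^ 2) ^ s
      ≤ (1 / (64 * R)) ^ s / (s.factorial : ℝ) * ((s.factorial : ℝ) * R ^ s * (2 * ((Fintype.card (Fin n → Bool) : ℝ) * 4 ^ s))) :=
        mul_le_mul_of_nonneg_left hM (by positivity)
    _ = (Fintype.card (Fin n → Bool) : ℝ) * (2 * ((1 / 64) ^ s * 4 ^ s)) := by
        have : (1 / (64 * R)) ^ s = (1/64) ^ s / R ^ s := by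
          rw [← div_pow]; congr 1; field_simp
        rw [this]
        have hf : (s.factorial : ℝ) ≠ 0 := by positivity
        field_simp
    _ ≤ (Fintype.card (Fin n → Bool) : ℝ) * (2 * (1 / 2) ^ s) := by
        apply mul_le_mul_of_nonneg_left _ (by positivity)
        apply mul_le_mul_of_nonneg_left _ (by norm_num)
        rw [← mul_pow]
        apply pow_le_pow_left₀ (by norm_num)
        norm_num

theorem rad_mom_row {n : ℕ} (z : Fin n → ℝ) (R : ℝ) (hR : 0 < R) (hz : ∑ j, z j ^ 2 ≤ R) :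
    ∑ g : Fin n → Bool, Real.exp (1 / (64 * R) * (∑ j, sgn (g j) * z j) ^ 2)
      ≤ (Fintype.card (Fin n → Bool) : ℝ) * 4 := by
  have h1 : ∀ x : ℝ, HasSum (fun s : ℕ => x ^ s / (s.factorial : ℝ)) (Real.exp x) := by
    intro x
    have := NormedSpace.expSeries_div_hasSum_exp (𝔸 := ℝ) x
    rw [← Real.exp_eq_exp_ℝ] at this
    exact this
  have h2 : HasSum (fun s : ℕ => ∑ g : Fin n → Bool, (1 / (64 * R) * (∑ j, sgn (g j) * z j) ^ 2) ^ s / (s.factorial : ℝ))
      (∑ g : Fin n → Bool, Real.exp (1 / (64 * R) * (∑ j, sgn (g j) * z j) ^ 2)) :=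
    hasSum_sum fun g _ => h1 _
  have h3 : HasSum (fun s : ℕ => (Fintype.card (Fin n → Bool) : ℝ) * (2 * (1 / 2 : ℝ) ^ s)) ((Fintype.card (Fin n → Bool) : ℝ) * (2 * 2)) :=
    (hasSum_geometric_two.mul_left 2).mul_left _
  have h4 := hasSum_le (fun s => rad_mom_one z R hR hz s) h2 h3
  linarith


theorem rad_mom (N P : ℕ) (z : Fin N → ℝ) (R : ℝ) (hR : 0 < R) (hz : ∑ j, z j ^ 2 ≤ R) :
    avg (fun G : Fin N → Fin N → Bool => (∑ i, (∑ j, sgn (G i j) * z j) ^ 2) ^ P)
      ≤ (P.factorial : ℝ) * (64 * R) ^ P * 4 ^ N := by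
  unfold avg
  have hcard : (0:ℝ) < (Fintype.card (Fin N → Fin N → Bool) : ℝ) := by
    have : 0 < Fintype.card (Fin N → Fin N → Bool) := Fintype.card_pos
    exact_mod_cast this
  rw [div_le_iff₀ hcard]
  have hpt : ∀ G : Fin N → Fin N → Bool, (∑ i, (∑ j, sgn (G i j) * z j) ^ 2) ^ P ≤
      (P.factorial : ℝ) * (64 * R) ^ P * ∏ i, Real.exp (1 / (64 * R) * (∑ j, sgn (G i j) * z j) ^ 2) := by
    intro G
    have h1 := Real.pow_div_factorial_le_exp (1 / (64 * R) * ∑ i, (∑ j, sgn (G i j) * z j) ^ 2) (by positivity) P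
    rw [div_le_iff₀ (by positivity), mul_pow, Finset.mul_sum, Real.exp_sum] at h1
    have h2 : (0:ℝ) < (64 * R) ^ P := by positivity
    have h3 := mul_le_mul_of_nonneg_left h1 h2.le
    have h4 : (64 * R) ^ P * ((1 / (64 * R)) ^ P * (∑ i, (∑ j, sgn (G i j) * z j) ^ 2) ^ P) = (∑ i, (∑ j, sgn (G i j) * z j) ^ 2) ^ P := by
      rw [← mul_assoc, ← mul_pow]
      have : (64 * R) * (1 / (64 * R)) = 1 := by field_simp
      rw [this]; simp
    rw [h4] at h3
    linarith
  have hprod : ∑ G : Fin N → Fin N → Bool, ∏ i, Real.exp (1 / (64 * R) * (∑ j, sgn (G i j) * z j) ^ 2)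
      = ∏ _i : Fin N, ∑ g : Fin N → Bool, Real.exp (1 / (64 * R) * (∑ j, sgn (g j) * z j) ^ 2) := by
    rw [Finset.prod_univ_sum (fun _ => Finset.univ) (fun _ (g : Fin N → Bool) => Real.exp (1 / (64 * R) * (∑ j, sgn (g j) * z j) ^ 2)), Fintype.piFinset_univ]
  calc ∑ G : Fin N → Fin N → Bool, (∑ i, (∑ j, sgn (G i j) * z j) ^ 2) ^ P
      ≤ ∑ G : Fin N → Fin N → Bool, (P.factorial : ℝ) * (64 * R) ^ P * ∏ i, Real.exp (1 / (64 * R) * (∑ j, sgn (G i j) * z j) ^ 2) :=
        Finset.sum_le_sum fun G _ => hpt G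
    _ = (P.factorial : ℝ) * (64 * R) ^ P * ∏ _i : Fin N, ∑ g : Fin N → Bool, Real.exp (1 / (64 * R) * (∑ j, sgn (g j) * z j) ^ 2) := by
        rw [← Finset.mul_sum, hprod]
    _ ≤ (P.factorial : ℝ) * (64 * R) ^ P * ∏ _i : Fin N, ((Fintype.card (Fin N → Bool) : ℝ) * 4) := by
        apply mul_le_mul_of_nonneg_left _ (by positivity)
        apply Finset.prod_le_prod
        · intro i _; positivity
        · intro i _; exact rad_mom_row z R hR hz
    _ = (P.factorial : ℝ) * (64 * R) ^ P * 4 ^ N * (Fintype.card (Fin N → Fin N → Bool) : ℝ) := by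
        rw [Finset.prod_const, mul_pow]
        have : (Fintype.card (Fin N → Fin N → Bool) : ℝ) = (Fintype.card (Fin N → Bool) : ℝ) ^ N := by
          rw [Fintype.card_fun (β := Fin N → Bool)]; simp
        rw [this]; simp; ring

end Pool.Agent.Helper495.NN
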