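import Mathlib
import Pool.Agent.Helper495.NN.Defs
import Pool.Agent.Helper495.NN.NetPoint
import Pool.Agent.Helper495.NN.NetCard
import Pool.Agent.Helper495.NN.RadMom

open scoped BigOperators

namespace Pool.Agent.Helper495.NN
















theorem sn_norm {N : ℕ} (G : Fin N → Fin N → Bool) (z : Fin N → ℤ) :
    ‖signOp G (WithLp.toLp 2 (fun j => (z j : ℝ)))‖ ^ 2 =
      ∑ i, (∑ j, sgn (G i j) * (z j : ℝ)) ^ 2 := by
  rw [EuclideanSpace.norm_sq_eq]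
  refine Finset.sum_congr rfl fun i _ => ?_
  rw [Real.norm_eq_abs, sq_abs]
  rfl

theorem sn_avg_mono {T : Type} [Fintype T] (f g : T → ℝ) (h : ∀ x, f x ≤ g x) : avg f ≤ avg g := by
  unfold avg
  exact div_le_div_of_nonneg_right (Finset.sum_le_sum fun x _ => h x) (Nat.cast_nonneg _)

theorem sn_avg_sum {T S : Type} [Fintype T] (Z : Finset S) (f : S → T → ℝ) (c : ℝ) :
    avg (fun x => ∑ z ∈ Z, f z x / c) = (∑ z ∈ Z, avg (f z)) / c := by
  unfold avg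
  rw [Finset.sum_comm, Finset.sum_div, Finset.sum_div]
  refine Finset.sum_congr rfl fun z _ => ?_
  rw [← Finset.sum_div, div_right_comm]


theorem sign_norm : ∃ K : ℝ, 1 ≤ K ∧ ∀ p : ℕ,
    avg (fun G : Fin (2 * (p + 1)) → Fin (2 * (p + 1)) → Bool => ‖signOp G‖ ^ (2 * (p + 1)))
      ≤ K ^ (p + 1) * ((p : ℝ) + 1) ^ (p + 1) := by
  obtain ⟨K, hK1, hK⟩ := net_card
  have hK1' : (1 : ℝ) ≤ K := by exact_mod_cast hK1
  refine ⟨(K : ℝ) ^ 2 * 4096, ?_, ?_⟩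
  · have : (1 : ℝ) ≤ (K : ℝ) ^ 2 := one_le_pow₀ hK1'
    linarith
  intro p
  obtain ⟨P, hP⟩ : ∃ P, P = p + 1 := ⟨_, rfl⟩
  have hPp : ((p : ℝ) + 1) = P := by rw [hP]; push_cast; rfl
  rw [hPp, ← hP]
  have hP0 : 0 < P := by omega
  obtain ⟨N, hN⟩ : ∃ N, N = 2 * P := ⟨_, rfl⟩
  have key : avg (fun G : Fin N → Fin N → Bool => ‖signOp G‖ ^ N) ≤
      ((K : ℝ) ^ 2 * 4096) ^ P * (P : ℝ) ^ P := by
    have hN0 : 0 < N := by omega
    have hNr : (0 : ℝ) < N := by exact_mod_cast hN0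
    have hPr : (0 : ℝ) < P := by exact_mod_cast hP0
    obtain ⟨hfin, hcard⟩ := hK N
    have h1 : ∀ G : Fin N → Fin N → Bool, ‖signOp G‖ ^ N ≤
        ∑ z ∈ hfin.toFinset, (∑ i, (∑ j, sgn (G i j) * (z j : ℝ)) ^ 2) ^ P / (N : ℝ) ^ P := by
      intro G
      obtain ⟨z, hz, hz2⟩ := net_point hN0 (signOp G)
      rw [sn_norm] at hz2
      have e1 : ‖signOp G‖ ^ N = (‖signOp G‖ ^ 2) ^ P := by rw [← pow_mul, ← hN]
      have e2 : ‖signOp G‖ ^ 2 ≤ (∑ i, (∑ j, sgn (G i j) * (z j : ℝ)) ^ 2) / N := by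
        rw [le_div_iff₀ hNr]
        linarith
      have e3 : (‖signOp G‖ ^ 2) ^ P ≤
          (∑ i, (∑ j, sgn (G i j) * (z j : ℝ)) ^ 2) ^ P / (N : ℝ) ^ P := by
        rw [← div_pow]
        exact pow_le_pow_left₀ (sq_nonneg _) e2 P
      rw [e1]
      refine e3.trans ?_
      refine Finset.single_le_sum
        (f := fun z : Fin N → ℤ => (∑ i, (∑ j, sgn (G i j) * (z j : ℝ)) ^ 2) ^ P / (N : ℝ) ^ P)
        (fun z _ => ?_) (hfin.mem_toFinset.2 hz)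
      have : 0 ≤ ∑ i, (∑ j, sgn (G i j) * (z j : ℝ)) ^ 2 := Finset.sum_nonneg fun i _ => sq_nonneg _
      positivity
    refine (sn_avg_mono _ _ h1).trans ?_
    rw [sn_avg_sum hfin.toFinset (fun (z : Fin N → ℤ) (G : Fin N → Fin N → Bool) =>
      (∑ i, (∑ j, sgn (G i j) * (z j : ℝ)) ^ 2) ^ P) ((N : ℝ) ^ P)]
    have h2 : ∀ z ∈ hfin.toFinset, avg (fun G : Fin N → Fin N → Bool =>
        (∑ i, (∑ j, sgn (G i j) * (z j : ℝ)) ^ 2) ^ P) ≤
        (P.factorial : ℝ) * (64 * (4 * N)) ^ P * 4 ^ N := by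
      intro z hz
      have hz' : ∑ j, (z j) ^ 2 ≤ 4 * (N : ℤ) := hfin.mem_toFinset.1 hz
      refine rad_mom N P (fun j => (z j : ℝ)) (4 * N) (by positivity) ?_
      exact_mod_cast hz'
    have h3 : ∑ z ∈ hfin.toFinset, avg (fun G : Fin N → Fin N → Bool =>
        (∑ i, (∑ j, sgn (G i j) * (z j : ℝ)) ^ 2) ^ P) ≤
        (K : ℝ) ^ N * ((P.factorial : ℝ) * (64 * (4 * N)) ^ P * 4 ^ N) := by
      refine (Finset.sum_le_sum h2).trans ?_
      rw [Finset.sum_const, nsmul_eq_mul]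
      refine mul_le_mul_of_nonneg_right ?_ (by positivity)
      rw [← Set.ncard_eq_toFinset_card _ hfin]
      exact_mod_cast hcard
    have hfac : (P.factorial : ℝ) ≤ (P : ℝ) ^ P := by exact_mod_cast Nat.factorial_le_pow P
    have hNP : (0 : ℝ) < (N : ℝ) ^ P := by positivity
    rw [div_le_iff₀ hNP]
    refine h3.trans ?_
    have e4 : (64 * (4 * (N : ℝ))) ^ P = 256 ^ P * (N : ℝ) ^ P := by
      rw [← mul_pow]; congr 1; ring
    have e5 : (4 : ℝ) ^ N = 16 ^ P := by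
      rw [hN, pow_mul]; norm_num
    have e6 : (K : ℝ) ^ N = ((K : ℝ) ^ 2) ^ P := by rw [hN, pow_mul]
    rw [e4, e5, e6, mul_pow, show (4096 : ℝ) = 256 * 16 by norm_num, mul_pow]
    have e7 : 0 ≤ ((K : ℝ) ^ 2) ^ P * 256 ^ P * (N : ℝ) ^ P * 16 ^ P := by positivity
    nlinarith [mul_le_mul_of_nonneg_left hfac e7]
  subst hN
  exact key

end Pool.Agent.Helper495.NN
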