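import Mathlib
import Pool.Agent.Helper495.NN.Defs
import Pool.Agent.Helper495.NN.CountToNorm
import Pool.Agent.Helper495.NN.SignNorm

open scoped BigOperators

namespace Pool.Agent.Helper495.NN














theorem count_even : ∃ K : ℝ, 1 ≤ K ∧ ∀ p : ℕ,
    (Nat.card {w : (Pos p → Fin (2 * (p + 1))) × (Fin (p + 1) → Fin (2 * (p + 1))) × (Fin (p + 1) → Fin (2 * (p + 1))) //
      EvenF (fun x => (w.1 x, w.2.1 (e1 x))) ∧ EvenF (fun x => (w.1 x, w.2.2 x.1))} : ℝ)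
      ≤ K ^ (p + 1) * ((p : ℝ) + 1) ^ (2 * (p + 1) + 1) := by
  obtain ⟨K, hK, h⟩ := sign_norm
  refine ⟨2 * K ^ 2, by nlinarith, fun p => ?_⟩
  refine (count_to_norm p).trans ?_
  have h1 := h p
  have h0 : 0 ≤ avg (fun G : Fin (2 * (p + 1)) → Fin (2 * (p + 1)) → Bool => ‖signOp G‖ ^ (2 * (p + 1))) := by
    unfold avg; positivity
  have h2 := pow_le_pow_left₀ h0 h1 2
  have hp : (0:ℝ) ≤ 2 * ((p : ℝ) + 1) := by positivity
  refine (mul_le_mul_of_nonneg_left h2 hp).trans ?_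
  have h3 : (2:ℝ) ≤ 2 ^ (p + 1) := by
    calc (2:ℝ) = 2 ^ 1 := by norm_num
      _ ≤ 2 ^ (p + 1) := pow_le_pow_right₀ (by norm_num) (by omega)
  have hK0 : 0 ≤ (K ^ 2) ^ (p + 1) * ((p : ℝ) + 1) ^ (2 * (p + 1) + 1) := by positivity
  calc 2 * ((p : ℝ) + 1) * (K ^ (p + 1) * ((p : ℝ) + 1) ^ (p + 1)) ^ 2
      = 2 * ((K ^ 2) ^ (p + 1) * ((p : ℝ) + 1) ^ (2 * (p + 1) + 1)) := by ring
    _ ≤ 2 ^ (p + 1) * ((K ^ 2) ^ (p + 1) * ((p : ℝ) + 1) ^ (2 * (p + 1) + 1)) :=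
        mul_le_mul_of_nonneg_right h3 hK0
    _ = _ := by ring

end Pool.Agent.Helper495.NN
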