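import Mathlib
import Pool.Agent.Helper495.NN.Defs

open scoped BigOperators

namespace Pool.Agent.Helper495.NN




/-- functions with a given kernel are embeddings of the quotient -/
def kcEquiv {X U : Type} (R : Setoid X) : {f : X → U // Setoid.ker f = R} ≃ (Quotient R ↪ U) where
  toFun f := ⟨Quotient.lift f.1 (fun a b h => by
      have h1 : (Setoid.ker f.1).r a b := by rw [f.2]; exact h
      exact h1), by
    intro p q
    refine Quotient.inductionOn₂ p q fun a b h => ?_
    apply Quotient.sound
    have h1 : (Setoid.ker f.1).r a b := h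
    rw [f.2] at h1
    exact h1⟩
  invFun e := ⟨fun x => e (Quotient.mk R x), by
    ext a b
    constructor
    · intro h
      exact Quotient.exact (e.injective h)
    · intro h
      exact congrArg e (Quotient.sound h)⟩
  left_inv f := by
    apply Subtype.ext
    rfl
  right_inv e := by
    ext p
    refine Quotient.inductionOn p fun a => rfl

theorem kc_im {X U : Type} [Fintype X] (f : X → U) :
    im f = Nat.card (Quotient (Setoid.ker f)) :=
  Nat.card_congr (Setoid.quotientKerEquivRange f).symm

theorem kc_sum {X U : Type} [Fintype X] [DecidableEq X] [Fintype U] [Fintype (Setoid X)] (a : ℝ)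
    (φ : (X → X → Prop) → ℝ) :
    ∑ f : X → U, a ^ (im f) * φ (fun x y => f x = f y) =
      ∑ R : Setoid X, ((Fintype.card U).descFactorial (Nat.card (Quotient R)) : ℝ) *
        (a ^ (Nat.card (Quotient R)) * φ R.r) := by
  classical
  rw [← Finset.sum_fiberwise Finset.univ (fun f : X → U => Setoid.ker f)]
  refine Finset.sum_congr rfl fun R _ => ?_
  have h1 : ∀ f ∈ Finset.univ.filter (fun f : X → U => Setoid.ker f = R),
      a ^ (im f) * φ (fun x y => f x = f y) = a ^ (Nat.card (Quotient R)) * φ R.r := by
    intro f hf
    have hf' := (Finset.mem_filter.1 hf).2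
    rw [kc_im, ← hf']
    rfl
  rw [Finset.sum_congr rfl h1, Finset.sum_const, nsmul_eq_mul]
  congr 2
  rw [← Fintype.card_subtype, Fintype.card_congr (kcEquiv R), Fintype.card_embedding_eq,
    Nat.card_eq_fintype_card]


theorem kernel_compare {X T : Type} [Fintype X] [DecidableEq X] [Fintype T] [Nonempty T] (P : ℕ) (hP : 0 < P)
    (φ : (X → X → Prop) → ℝ) (hφ : ∀ R, 0 ≤ φ R)
    (hφ2 : ∀ f : X → X, P < im f → φ (fun x y => f x = f y) = 0) :
    ∑ f : X → T, (1 / (Fintype.card T : ℝ)) ^ (im f) * φ (fun x y => f x = f y)
      ≤ ∑ f : X → Fin (2 * P), (1 / (P : ℝ)) ^ (im f) * φ (fun x y => f x = f y) := by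
  classical
  haveI : Finite (Setoid X) := Finite.of_injective (fun R : Setoid X => R.r) (fun R S h => by
    ext a b
    exact iff_of_eq (congrFun (congrFun h a) b))
  haveI := Fintype.ofFinite (Setoid X)
  rw [kc_sum, kc_sum]
  refine Finset.sum_le_sum fun R _ => ?_
  obtain ⟨c, hc⟩ : ∃ c, c = Nat.card (Quotient R) := ⟨_, rfl⟩
  rw [← hc, Fintype.card_fin]
  rcases Nat.lt_or_ge P c with h | h
  · have h1 : φ R.r = 0 := by
      have hk : Setoid.ker (fun x : X => (Quotient.mk R x).out) = R := by
        ext a b
        constructor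
        · intro h2
          have h3 : (Quotient.mk R a).out = (Quotient.mk R b).out := h2
          have h4 := congrArg (Quotient.mk R) h3
          rw [Quotient.out_eq, Quotient.out_eq] at h4
          exact Quotient.exact h4
        · intro h2
          have h3 : Quotient.mk R a = Quotient.mk R b := Quotient.sound h2
          show (Quotient.mk R a).out = (Quotient.mk R b).out
          rw [h3]
      have h2 := hφ2 (fun x : X => (Quotient.mk R x).out) (by
        rw [kc_im, hk, ← hc]
        exact h)
      have h3 : R.r = (fun x y => (Quotient.mk R x).out = (Quotient.mk R y).out) := by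
        funext a b
        have h4 : (Setoid.ker (fun x : X => (Quotient.mk R x).out)).r a b = R.r a b := by rw [hk]
        exact h4.symm
      rw [h3]
      exact h2
    rw [h1]
    simp
  · have hT : (0 : ℝ) < Fintype.card T := by exact_mod_cast Fintype.card_pos
    have hP' : (0 : ℝ) < P := by exact_mod_cast hP
    have h1 : (((Fintype.card T).descFactorial c : ℕ) : ℝ) ≤ (Fintype.card T : ℝ) ^ c := by
      exact_mod_cast Nat.descFactorial_le_pow _ _
    have h2 : (P : ℝ) ^ c ≤ (((2 * P).descFactorial c : ℕ) : ℝ) := by
      have h3 := Nat.pow_sub_le_descFactorial (2 * P) c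
      have h4 : P ^ c ≤ (2 * P + 1 - c) ^ c := Nat.pow_le_pow_left (by omega) c
      exact_mod_cast h4.trans h3
    have h5 := hφ R.r
    rw [← mul_assoc, ← mul_assoc]
    apply mul_le_mul_of_nonneg_right _ h5
    have h6 : (((Fintype.card T).descFactorial c : ℕ) : ℝ) * (1 / (Fintype.card T : ℝ)) ^ c ≤ 1 := by
      rw [one_div, inv_pow, ← div_eq_mul_inv, div_le_one (by positivity)]
      exact h1
    have h7 : 1 ≤ (((2 * P).descFactorial c : ℕ) : ℝ) * (1 / (P : ℝ)) ^ c := by
      rw [one_div, inv_pow, ← div_eq_mul_inv, one_le_div (by positivity)]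
      exact h2
    exact h6.trans h7

end Pool.Agent.Helper495.NN
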