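import Mathlib
import Pool.Agent.Helper495.NN.Defs

open scoped BigOperators

namespace Pool.Agent.Helper495.NN





theorem weight_le (P V q q' E1 E2 : ℕ) (s ζ b r : ℝ) (hP : 1 ≤ P) (hs : 0 < s) (hs1 : s ≤ 1)
    (hζ1 : P / s ≤ ζ) (hζ2 : ζ ≤ 2 * (P / s)) (hb : r / (s * P) ≤ b) (hr : (P : ℝ) ≤ r)
    (h1 : V ≤ E1) (h2 : V ≤ E2) (h3 : E1 ≤ P) (h4 : E2 ≤ P) (h5 : V + q + q' ≤ E1 + E2 + 1) :
    (1 / b) ^ (E1 + E2) * (ζ * b) ^ V * r ^ (q + q') ≤ r * 2 ^ P * (P : ℝ) ^ (V + q + q') / P := by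
  have hP' : (1 : ℝ) ≤ P := by exact_mod_cast hP
  have hP0 : (0 : ℝ) < P := by linarith
  have hr0 : 0 < r := by linarith
  have hb0 : 0 < b := lt_of_lt_of_le (by positivity) hb
  have hζ0 : 0 ≤ ζ := le_trans (by positivity) hζ1
  have hb' : 1 / b ≤ s * P / r := by
    have := one_div_le_one_div_of_le (by positivity) hb
    rwa [one_div_div] at this
  obtain ⟨d, hd⟩ : ∃ d, E1 + E2 = 2 * V + d := ⟨E1 + E2 - 2 * V, by omega⟩
  obtain ⟨m, hm⟩ : ∃ m, V + d + 1 = q + q' + m := ⟨V + d + 1 - (q + q'), by omega⟩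
  have hVP : V ≤ P := h1.trans h3
  rw [hd]
  have e1 : (1 / b) ^ (2 * V + d) * (ζ * b) ^ V = (1 / b) ^ (V + d) * ζ ^ V := by
    have h : (1 / b) ^ V * (ζ * b) ^ V = ζ ^ V := by
      rw [← mul_pow]
      congr 1
      field_simp
    calc (1 / b) ^ (2 * V + d) * (ζ * b) ^ V
        = (1 / b) ^ (V + d) * ((1 / b) ^ V * (ζ * b) ^ V) := by ring
      _ = (1 / b) ^ (V + d) * ζ ^ V := by rw [h]
  rw [e1]
  have e2 : (1 / b) ^ (V + d) ≤ (s * P / r) ^ (V + d) :=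
    pow_le_pow_left₀ (by positivity) hb' _
  have e3 : ζ ^ V ≤ (2 * (P / s)) ^ V := pow_le_pow_left₀ hζ0 hζ2 _
  have e4 : (s * P / r) ^ (V + d) * (2 * (P / s)) ^ V =
      s ^ d * 2 ^ V * (P : ℝ) ^ (2 * V + d) / r ^ (V + d) := by
    rw [div_pow, mul_pow, mul_pow, div_pow, pow_add s V d]
    field_simp
    ring
  have e5 : s ^ d * 2 ^ V * (P : ℝ) ^ (2 * V + d) / r ^ (V + d) ≤
      2 ^ P * (P : ℝ) ^ (2 * V + d) / r ^ (V + d) := by
    have h1 : s ^ d ≤ 1 := pow_le_one₀ hs.le hs1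
    have h2 : (2 : ℝ) ^ V ≤ 2 ^ P := pow_le_pow_right₀ (by norm_num) hVP
    have h3 : s ^ d * 2 ^ V ≤ 1 * 2 ^ P := mul_le_mul h1 h2 (by positivity) (by norm_num)
    rw [one_mul] at h3
    exact div_le_div_of_nonneg_right (mul_le_mul_of_nonneg_right h3 (by positivity))
      (by positivity)
  have e6 : (P : ℝ) ^ (2 * V + d) / r ^ (V + d) * r ^ (q + q') ≤
      r * (P : ℝ) ^ (V + q + q') / P := by
    rw [div_mul_eq_mul_div, div_le_div_iff₀ (by positivity) (by positivity)]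
    have a1 : (P : ℝ) ^ (2 * V + d) * r ^ (q + q') * P =
        ((P : ℝ) ^ (V + q + q') * r ^ (q + q')) * (P : ℝ) ^ m := by
      have : (P : ℝ) ^ (2 * V + d) * P = (P : ℝ) ^ (V + q + q') * (P : ℝ) ^ m := by
        rw [← pow_succ, ← pow_add]
        congr 1
        omega
      calc (P : ℝ) ^ (2 * V + d) * r ^ (q + q') * P
          = ((P : ℝ) ^ (2 * V + d) * P) * r ^ (q + q') := by ring
        _ = _ := by rw [this]; ring
    have a2 : r * (P : ℝ) ^ (V + q + q') * r ^ (V + d) =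
        ((P : ℝ) ^ (V + q + q') * r ^ (q + q')) * r ^ m := by
      have : r * r ^ (V + d) = r ^ (q + q') * r ^ m := by
        rw [← pow_succ', ← pow_add, hm]
      calc r * (P : ℝ) ^ (V + q + q') * r ^ (V + d)
          = (P : ℝ) ^ (V + q + q') * (r * r ^ (V + d)) := by ring
        _ = _ := by rw [this]; ring
    rw [a1, a2]
    exact mul_le_mul_of_nonneg_left (pow_le_pow_left₀ hP0.le hr m) (by positivity)
  calc (1 / b) ^ (V + d) * ζ ^ V * r ^ (q + q')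
      ≤ ((s * P / r) ^ (V + d) * (2 * (P / s)) ^ V) * r ^ (q + q') := by
        refine mul_le_mul_of_nonneg_right ?_ (by positivity)
        exact mul_le_mul e2 e3 (by positivity) (by positivity)
    _ ≤ (2 ^ P * (P : ℝ) ^ (2 * V + d) / r ^ (V + d)) * r ^ (q + q') := by
        rw [e4]
        exact mul_le_mul_of_nonneg_right e5 (by positivity)
    _ = 2 ^ P * ((P : ℝ) ^ (2 * V + d) / r ^ (V + d) * r ^ (q + q')) := by ring
    _ ≤ 2 ^ P * (r * (P : ℝ) ^ (V + q + q') / P) := mul_le_mul_of_nonneg_left e6 (by positivity)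
    _ = r * 2 ^ P * (P : ℝ) ^ (V + q + q') / P := by ring

end Pool.Agent.Helper495.NN
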