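import Mathlib
import Pool.Agent.Helper495.NN.Defs

open scoped BigOperators

namespace Pool.Agent.Helper495.NN




theorem wl_im_eq {X T : Type} [Fintype X] [DecidableEq T] (f : X → T) :
    im f = (Finset.univ.image f).card := by
  classical
  unfold im
  rw [Nat.card_coe_set_eq, ← Set.image_univ, ← Finset.coe_univ, ← Finset.coe_image,
    Set.ncard_coe_finset]

theorem wl_fib {X T : Type} [Fintype X] [DecidableEq T] (f : X → T) (t : T) :
    Nat.card {x : X // f x = t} = (Finset.univ.filter (fun x => f x = t)).card := by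
  rw [Nat.card_eq_fintype_card, Fintype.card_subtype]

theorem wl_finer_im {X S T : Type} [Fintype X] (f : X → S) (g : X → T) (h : Finer f g) :
    im g ≤ im f := by
  classical
  rcases isEmpty_or_nonempty X with hX | hX
  · rw [wl_im_eq, wl_im_eq]
    simp
  · rw [wl_im_eq, wl_im_eq]
    have hk : ∀ x, g (Function.invFun f (f x)) = g x := by
      intro x
      apply h
      exact Function.invFun_eq ⟨x, rfl⟩
    have : (Finset.univ.image g) = (Finset.univ.image f).image (fun s => g (Function.invFun f s)) := by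
      rw [Finset.image_image]
      refine Finset.image_congr fun x _ => ?_
      exact (hk x).symm
    rw [this]
    exact Finset.card_image_le

theorem wl_even_im {X T : Type} [Fintype X] (f : X → T) (h : EvenF f) :
    2 * im f ≤ Fintype.card X := by
  classical
  rw [wl_im_eq, ← Finset.card_univ]
  refine Finset.mul_card_image_le_card Finset.univ 2 ?_
  intro a ha
  obtain ⟨x, -, rfl⟩ := Finset.mem_image.mp ha
  have h1 := h (f x)
  rw [wl_fib] at h1
  have h2 : 0 < (Finset.univ.filter (fun y => f y = f x)).card := Finset.card_pos.mpr ⟨x, by simp⟩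
  obtain ⟨k, hk⟩ := h1
  omega

theorem wl_even_of {X S T : Type} [Fintype X] (f : X → S) (g : X → T) (h : Finer f g)
    (hf : EvenF f) : EvenF g := by
  classical
  intro t
  rw [wl_fib]
  rw [Finset.card_eq_sum_card_image f]
  refine Finset.even_sum _ fun a ha => ?_
  obtain ⟨x, hx, rfl⟩ := Finset.mem_image.mp ha
  have h1 := hf (f x)
  rw [wl_fib] at h1
  have hx' : g x = t := (Finset.mem_filter.mp hx).2
  have e : Finset.filter (fun y => f y = f x) (Finset.univ.filter (fun y => g y = t)) =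
      Finset.univ.filter (fun y => f y = f x) := by
    ext y
    simp only [Finset.mem_filter, Finset.mem_univ, true_and]
    constructor
    · exact fun hh => hh.2
    · exact fun hh => ⟨(h y x hh).trans hx', hh⟩
  rw [e]
  exact h1

/-- values on the class of `x` -/
noncomputable def wlV {X S : Type} [Fintype X] {L : ℕ} (κ : X → S) (α : X → Fin L) (x : X) : Finset (Fin L) := by
  classical exact Finset.univ.filter (fun a => ∃ x', κ x' = κ x ∧ α x' = a)

theorem mem_wlV {X S : Type} [Fintype X] {L : ℕ} (κ : X → S) (α : X → Fin L) (x : X) (a : Fin L) :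
    a ∈ wlV κ α x ↔ ∃ x', κ x' = κ x ∧ α x' = a := by
  unfold wlV
  simp

/-- rank of the value at `x` -/
noncomputable def wlr {X S : Type} [Fintype X] {L : ℕ} (κ : X → S) (α : X → Fin L) (x : X) : ℕ :=
  ((wlV κ α x).filter (fun a => a < α x)).card

theorem wlV_congr {X S : Type} [Fintype X] {L : ℕ} (κ : X → S) (α : X → Fin L) (x x' : X)
    (h : κ x = κ x') : wlV κ α x = wlV κ α x' := by
  ext a
  rw [mem_wlV, mem_wlV, h]

theorem wlr_lt {X S : Type} [Fintype X] {L : ℕ} (κ : X → S) (α : X → Fin L) (x x' : X)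
    (h : κ x = κ x') (h2 : α x < α x') : wlr κ α x < wlr κ α x' := by
  unfold wlr
  refine Finset.card_lt_card ?_
  rw [Finset.ssubset_iff_of_subset]
  · refine ⟨α x, ?_, ?_⟩
    · rw [Finset.mem_filter, mem_wlV]
      exact ⟨⟨x, h, rfl⟩, h2⟩
    · rw [Finset.mem_filter]
      exact fun hh => lt_irrefl _ hh.2
  · intro a ha
    rw [Finset.mem_filter] at ha ⊢
    rw [← wlV_congr κ α x x' h]
    exact ⟨ha.1, ha.2.trans h2⟩

theorem wlr_inj {X S : Type} [Fintype X] {L : ℕ} (κ : X → S) (α : X → Fin L) (x x' : X)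
    (h : κ x = κ x') (h2 : wlr κ α x = wlr κ α x') : α x = α x' := by
  rcases lt_trichotomy (α x) (α x') with h3 | h3 | h3
  · exact absurd (wlr_lt κ α x x' h h3) (by omega)
  · exact h3
  · exact absurd (wlr_lt κ α x' x h.symm h3) (by omega)

theorem wlr_lt_V {X S : Type} [Fintype X] {L : ℕ} (κ : X → S) (α : X → Fin L) (x : X) :
    wlr κ α x + 1 ≤ (wlV κ α x).card := by
  unfold wlr
  refine Nat.succ_le_of_lt (Finset.card_lt_card ?_)
  rw [Finset.ssubset_iff_of_subset (Finset.filter_subset _ _)]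
  refine ⟨α x, (mem_wlV _ _ _ _).mpr ⟨x, rfl, rfl⟩, ?_⟩
  rw [Finset.mem_filter]
  exact fun hh => lt_irrefl _ hh.2

theorem wlV_card {X S : Type} [Fintype X] {L : ℕ} (κ : X → S) (α : X → Fin L) (h : Finer α κ) (x : X) :
    (wlV κ α x).card + im κ ≤ im α + 1 := by
  classical
  rw [wl_im_eq, wl_im_eq]
  set I := Finset.univ.image α with hI
  haveI : Nonempty X := ⟨x⟩
  have hk : ∀ y, κ (Function.invFun α (α y)) = κ y := by
    intro y
    apply h
    exact Function.invFun_eq ⟨y, rfl⟩
  have hVI : wlV κ α x ⊆ I := by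
    intro a ha
    obtain ⟨x', -, h2⟩ := (mem_wlV _ _ _ _).mp ha
    rw [hI, Finset.mem_image]
    exact ⟨x', Finset.mem_univ _, h2⟩
  have h1 : Finset.univ.image κ ⊆ insert (κ x) ((I \ wlV κ α x).image (fun s => κ (Function.invFun α s))) := by
    intro t ht
    obtain ⟨y, -, rfl⟩ := Finset.mem_image.mp ht
    rw [Finset.mem_insert]
    by_cases hy : κ y = κ x
    · exact Or.inl hy
    · right
      rw [Finset.mem_image]
      refine ⟨α y, ?_, hk y⟩
      rw [Finset.mem_sdiff]
      refine ⟨Finset.mem_image_of_mem _ (Finset.mem_univ _), ?_⟩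
      rw [mem_wlV]
      rintro ⟨x', h3, h4⟩
      exact hy ((h x' y h4).symm.trans h3)
  have h2 := Finset.card_le_card h1
  have h3 := Finset.card_insert_le (κ x) ((I \ wlV κ α x).image (fun s => κ (Function.invFun α s)))
  have h4 : ((I \ wlV κ α x).image (fun s => κ (Function.invFun α s))).card ≤ (I \ wlV κ α x).card :=
    Finset.card_image_le
  have h5 : (I \ wlV κ α x).card = I.card - (wlV κ α x).card := Finset.card_sdiff_of_subset hVI
  have h6 := Finset.card_le_card hVI
  omega

theorem wl_count {X S : Type} [Fintype X] [Nonempty X] [DecidableEq X] {L : ℕ} (κ : X → S) (J : ℕ)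
    (A : Finset (X → Fin L)) (hA : ∀ α ∈ A, Finer α κ ∧ im α = im κ + J) :
    A.card ≤ L ^ (im κ + J) * (J + 1) ^ (Fintype.card X) := by
  classical
  rcases Nat.eq_zero_or_pos L with rfl | hL
  · have : A = ∅ := by
      apply Finset.eq_empty_of_forall_notMem
      intro α _
      exact (α (Classical.arbitrary X)).elim0
    rw [this]
    simp
  have hrk : ∀ α ∈ A, ∀ x, wlr κ α x < J + 1 := by
    intro α hα x
    have h1 := wlr_lt_V κ α x
    have h2 := wlV_card κ α (hA α hα).1 x
    have h3 := (hA α hα).2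
    omega
  let G : (X → Fin L) → (X → Fin (J + 1)) := fun α x => ⟨min J (wlr κ α x), by omega⟩
  have hG : ∀ α ∈ A, ∀ x, (G α x : ℕ) = wlr κ α x := by
    intro α hα x
    have := hrk α hα x
    show min J (wlr κ α x) = wlr κ α x
    omega
  have h1 := Finset.card_le_mul_card_image (f := G) A (L ^ (im κ + J)) (by
    intro g hg
    obtain ⟨α₀, hα₀, hg₀⟩ := Finset.mem_image.mp hg
    let pr : X → S × Fin (J + 1) := fun x => (κ x, g x)
    have hpr : im pr ≤ im κ + J := by
      rw [← (hA α₀ hα₀).2]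
      refine wl_finer_im α₀ pr ?_
      intro x y hxy
      have hk : κ x = κ y := (hA α₀ hα₀).1 x y hxy
      have : g x = g y := by
        rw [← hg₀]
        apply Fin.ext
        rw [hG α₀ hα₀, hG α₀ hα₀]
        unfold wlr
        rw [wlV_congr κ α₀ x y hk, hxy]
      show (κ x, g x) = (κ y, g y)
      rw [hk, this]
    let R := Finset.univ.image pr
    have hR : ∀ r : R, ∃ x, pr x = r.1 := by
      intro r
      obtain ⟨x, -, hx⟩ := Finset.mem_image.mp r.2
      exact ⟨x, hx⟩
    choose c hc using hR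
    have hcard : (Finset.univ : Finset (R → Fin L)).card = L ^ im pr := by
      rw [Finset.card_univ, Fintype.card_fun, Fintype.card_fin, Fintype.card_coe, wl_im_eq]
    calc (A.filter (fun α => G α = g)).card ≤ (Finset.univ : Finset (R → Fin L)).card := by
          refine Finset.card_le_card_of_injOn (fun α r => α (c r)) (fun _ _ => Finset.mem_coe.mpr (Finset.mem_univ _)) ?_
          intro α hα β hβ hab
          rw [Finset.mem_coe, Finset.mem_filter] at hα hβ
          funext x
          have hxR : pr x ∈ R := Finset.mem_image_of_mem _ (Finset.mem_univ _)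
          have h2 := congrFun hab ⟨pr x, hxR⟩
          simp only at h2
          have h3 := hc ⟨pr x, hxR⟩
          have h3' : (κ (c ⟨pr x, hxR⟩), g (c ⟨pr x, hxR⟩)) = (κ x, g x) := h3
          rw [Prod.mk.injEq] at h3'
          have h4 : α (c ⟨pr x, hxR⟩) = α x := by
            refine wlr_inj κ α _ _ h3'.1 ?_
            rw [← hG α hα.1, ← hG α hα.1, hα.2, h3'.2]
          have h5 : β (c ⟨pr x, hxR⟩) = β x := by
            refine wlr_inj κ β _ _ h3'.1 ?_
            rw [← hG β hβ.1, ← hG β hβ.1, hβ.2, h3'.2]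
          rw [← h4, ← h5, h2]
      _ = L ^ im pr := hcard
      _ ≤ L ^ (im κ + J) := Nat.pow_le_pow_right hL hpr)
  refine h1.trans (Nat.mul_le_mul_left _ ?_)
  refine (Finset.card_le_univ _).trans (le_of_eq ?_)
  rw [Fintype.card_fun, Fintype.card_fin]

theorem wl_exp (J : ℕ) : ((J : ℝ) + 1) ^ 2 ≤ 4 * Real.exp ((J : ℝ) / 2) := by
  have h1 : Real.exp ((J : ℝ) / 2) = Real.exp (((J : ℝ) + 1) / 4 - 1) ^ 2 * Real.exp (3 / 2) := by
    rw [← Real.exp_nat_mul, ← Real.exp_add]
    congr 1
    push_cast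
    ring
  have h2 : ((J : ℝ) + 1) / 4 ≤ Real.exp (((J : ℝ) + 1) / 4 - 1) := by
    have := Real.add_one_le_exp (((J : ℝ) + 1) / 4 - 1)
    linarith
  have h3 : (4 : ℝ) ≤ Real.exp (3 / 2) := by
    have e1 : Real.exp (3 / 2) = Real.exp 1 * Real.exp (1 / 2) := by
      rw [← Real.exp_add]; norm_num
    have e2 := Real.exp_one_gt_d9
    have e3 := Real.add_one_le_exp (1 / 2 : ℝ)
    rw [e1]
    nlinarith
  have h4 : (((J : ℝ) + 1) / 4) ^ 2 ≤ Real.exp (((J : ℝ) + 1) / 4 - 1) ^ 2 :=
    pow_le_pow_left₀ (by positivity) h2 2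
  have h5 : 0 ≤ (((J : ℝ) + 1) / 4) ^ 2 := by positivity
  rw [h1]
  nlinarith [mul_le_mul h4 h3 (by norm_num) (by positivity)]

theorem wl_num (P J : ℕ) (hJ : J ≤ P) (b : ℝ) (hb2 : Real.exp ((P : ℝ) / 2) / 2 ≤ b) :
    ((J : ℝ) + 1) ^ (2 * P) * (1 / b) ^ J ≤ 8 ^ P := by
  have hb : 0 < b := lt_of_lt_of_le (by positivity) hb2
  have h1 : 1 / b ≤ 2 * Real.exp (-((P : ℝ) / 2)) := by
    rw [div_le_iff₀ hb]
    have h2 : 2 * Real.exp (-((P : ℝ) / 2)) * (Real.exp ((P : ℝ) / 2) / 2) = 1 := by
      rw [Real.exp_neg]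
      have := Real.exp_ne_zero ((P : ℝ) / 2)
      field_simp
    calc (1 : ℝ) = 2 * Real.exp (-((P : ℝ) / 2)) * (Real.exp ((P : ℝ) / 2) / 2) := h2.symm
      _ ≤ _ := mul_le_mul_of_nonneg_left hb2 (by positivity)
  have h2 : (1 / b) ^ J ≤ (2 * Real.exp (-((P : ℝ) / 2))) ^ J :=
    pow_le_pow_left₀ (by positivity) h1 J
  have h3 : (2 * Real.exp (-((P : ℝ) / 2))) ^ J = 2 ^ J * Real.exp (-((J : ℝ) / 2)) ^ P := by
    rw [mul_pow, ← Real.exp_nat_mul, ← Real.exp_nat_mul]
    congr 2
    ring
  have h4 : ((J : ℝ) + 1) ^ 2 * Real.exp (-((J : ℝ) / 2)) ≤ 4 := by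
    rw [Real.exp_neg, ← div_eq_mul_inv, div_le_iff₀ (Real.exp_pos _)]
    exact wl_exp J
  calc ((J : ℝ) + 1) ^ (2 * P) * (1 / b) ^ J
      ≤ ((J : ℝ) + 1) ^ (2 * P) * (2 ^ J * Real.exp (-((J : ℝ) / 2)) ^ P) := by
        rw [← h3]
        exact mul_le_mul_of_nonneg_left h2 (by positivity)
    _ = 2 ^ J * (((J : ℝ) + 1) ^ 2 * Real.exp (-((J : ℝ) / 2))) ^ P := by
        rw [mul_pow, pow_mul]; ring
    _ ≤ 2 ^ P * 4 ^ P := by
        refine mul_le_mul (pow_le_pow_right₀ (by norm_num) hJ) (pow_le_pow_left₀ (by positivity) h4 P)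
          (by positivity) (by positivity)
    _ = 8 ^ P := by rw [← mul_pow]; norm_num


theorem wt_le {X S : Type} [Fintype X] (p L : ℕ) (hX : Fintype.card X = 2 * (p + 1)) (y b : ℝ)
    (hy : 0 < y) (hb : L * y ≤ 1 / b) (hb2 : Real.exp (((p : ℝ) + 1) / 2) / 2 ≤ b) (κ : X → S)
    [Decidable (EvenF κ)] :
    wt L y κ ≤ if EvenF κ then ((p : ℝ) + 1) * 8 ^ (p + 1) * (1 / b) ^ (im κ) else 0 := by
  classical
  have hXn : Nonempty X := by
    rw [← Fintype.card_pos_iff, hX]; omega
  have hwt : wt L y κ = ∑ α ∈ (Finset.univ : Finset (X → Fin L)).filter (fun α => EvenF α ∧ Finer α κ),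
      y ^ im α := by
    unfold wt
    rw [Finset.sum_filter]
  rw [hwt]
  set A := (Finset.univ : Finset (X → Fin L)).filter (fun α => EvenF α ∧ Finer α κ) with hA
  have hAm : ∀ α ∈ A, EvenF α ∧ Finer α κ := fun α hα => (Finset.mem_filter.mp hα).2
  split
  · have hq : 1 ≤ im κ := by
      rw [wl_im_eq]
      exact Finset.card_pos.mpr (Finset.univ_nonempty.image _)
    have hmaps : ∀ α ∈ A, im α - im κ ∈ Finset.range (p + 1) := by
      intro α hα
      have h1 := wl_even_im α (hAm α hα).1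
      rw [Finset.mem_range]
      omega
    rw [← Finset.sum_fiberwise_of_maps_to hmaps]
    have hbpos : 0 < b := lt_of_lt_of_le (by positivity) hb2
    have hterm : ∀ J ∈ Finset.range (p + 1),
        ∑ α ∈ A.filter (fun α => im α - im κ = J), y ^ im α ≤ 8 ^ (p + 1) * (1 / b) ^ im κ := by
      intro J hJ
      have hJ' := Finset.mem_range.mp hJ
      have hB : ∀ α ∈ A.filter (fun α => im α - im κ = J), Finer α κ ∧ im α = im κ + J := by
        intro α hα
        rw [Finset.mem_filter] at hα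
        have h1 := hAm α hα.1
        have h2 := wl_finer_im α κ h1.2
        exact ⟨h1.2, by omega⟩
      have hc := wl_count κ J _ hB
      have hs : ∑ α ∈ A.filter (fun α => im α - im κ = J), y ^ im α =
          ((A.filter (fun α => im α - im κ = J)).card : ℝ) * y ^ (im κ + J) := by
        rw [Finset.sum_congr rfl (fun α hα => by rw [(hB α hα).2]), Finset.sum_const, nsmul_eq_mul]
      rw [hs]
      have hc' : ((A.filter (fun α => im α - im κ = J)).card : ℝ) ≤
          (L : ℝ) ^ (im κ + J) * ((J : ℝ) + 1) ^ (2 * (p + 1)) := by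
        rw [hX] at hc
        exact_mod_cast hc
      have hnum := wl_num (p + 1) J hJ'.le b (by push_cast; exact hb2)
      calc _ ≤ (L : ℝ) ^ (im κ + J) * ((J : ℝ) + 1) ^ (2 * (p + 1)) * y ^ (im κ + J) :=
            mul_le_mul_of_nonneg_right hc' (by positivity)
        _ = ((J : ℝ) + 1) ^ (2 * (p + 1)) * (L * y) ^ (im κ + J) := by rw [mul_pow]; ring
        _ ≤ ((J : ℝ) + 1) ^ (2 * (p + 1)) * (1 / b) ^ (im κ + J) := by
            refine mul_le_mul_of_nonneg_left (pow_le_pow_left₀ (by positivity) hb _) (by positivity)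
        _ = (((J : ℝ) + 1) ^ (2 * (p + 1)) * (1 / b) ^ J) * (1 / b) ^ im κ := by rw [pow_add]; ring
        _ ≤ _ := mul_le_mul_of_nonneg_right hnum (by positivity)
    refine (Finset.sum_le_sum hterm).trans (le_of_eq ?_)
    rw [Finset.sum_const, Finset.card_range, nsmul_eq_mul]
    push_cast
    ring
  · rename_i hne
    have : A = ∅ := by
      apply Finset.eq_empty_of_forall_notMem
      intro α hα
      have h1 := hAm α hα
      exact hne (wl_even_of α κ h1.2 h1.1)
    rw [this]
    simp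

end Pool.Agent.Helper495.NN
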