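import Mathlib
import Pool.Agent.Helper495.NN.Defs
import Pool.Agent.Helper495.NN.WtLe
import Pool.Agent.Helper495.NN.Conn
import Pool.Agent.Helper495.NN.KernelCompare
import Pool.Agent.Helper495.NN.WeightLe
import Pool.Agent.Helper495.NN.CountEven

open scoped BigOperators

namespace Pool.Agent.Helper495.NN




















/-- number of classes of a relation -/
noncomputable def imR {X : Type} (R : X → X → Prop) : ℕ := Nat.card (Set.range (fun x : X => R x))

theorem im_eq_imR {X T : Type} [Fintype X] (f : X → T) : im f = imR (fun x y => f x = f y) := by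
  unfold im imR
  refine Nat.card_congr (Equiv.ofBijective
    (fun t : Set.range f => (⟨fun y => t.1 = f y, by
      obtain ⟨t, x, rfl⟩ := t
      exact ⟨x, rfl⟩⟩ : Set.range (fun x : X => fun y => f x = f y))) ⟨?_, ?_⟩)
  · rintro ⟨_, x, rfl⟩ ⟨_, x', rfl⟩ h
    have h1 := congrFun (Subtype.ext_iff.mp h) x'
    simp only [eq_iff_iff, iff_true] at h1
    exact Subtype.ext h1
  · rintro ⟨_, x, rfl⟩
    exact ⟨⟨f x, x, rfl⟩, rfl⟩

/-- evenness of the common refinement, in terms of the kernels -/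
def kev {X : Type} (R Q : X → X → Prop) : Prop := ∀ x : X, Even (Nat.card {y : X // R y x ∧ Q y x})

theorem evenF_iff {X S T : Type} [Fintype X] (f : X → S) (h : X → T) :
    EvenF (fun x => (f x, h x)) ↔ kev (fun x y => f x = f y) (fun x y => h x = h y) := by
  constructor
  · intro H x
    have := H (f x, h x)
    simpa [Prod.ext_iff] using this
  · rintro H ⟨s, t⟩
    by_cases hx : ∃ x, f x = s ∧ h x = t
    · obtain ⟨x, rfl, rfl⟩ := hx
      have := H x
      simpa [Prod.ext_iff] using this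
    · have : IsEmpty {x : X // (f x, h x) = (s, t)} := by
        refine ⟨fun x => hx ⟨x.1, ?_⟩⟩
        have := x.2
        simpa [Prod.ext_iff] using this
      rw [Nat.card_of_isEmpty]
      exact Even.zero

theorem even_im_le {X S : Type} [Fintype X] (P : ℕ) (hX : Fintype.card X = 2 * P) (κ : X → S)
    (h : EvenF κ) : im κ ≤ P := by
  classical
  unfold im
  rw [Nat.card_eq_fintype_card]
  have h1 : 2 * Fintype.card (Set.range κ) ≤ Fintype.card X := by
    have h2 : Fintype.card X = ∑ t : Set.range κ, Fintype.card {x : X // (⟨κ x, Set.mem_range_self x⟩ : Set.range κ) = t} := by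
      rw [← Fintype.card_sigma]
      exact Fintype.card_congr (Equiv.sigmaFiberEquiv (fun x : X => (⟨κ x, Set.mem_range_self x⟩ : Set.range κ))).symm
    rw [h2]
    have h3 : ∀ t : Set.range κ, 2 ≤ Fintype.card {x : X // (⟨κ x, Set.mem_range_self x⟩ : Set.range κ) = t} := by
      rintro ⟨t, x, rfl⟩
      have h4 : Even (Fintype.card {y : X // (⟨κ y, Set.mem_range_self y⟩ : Set.range κ) = ⟨κ x, x, rfl⟩}) := by
        have := h (κ x)
        rw [Nat.card_eq_fintype_card] at this
        have h5 : Fintype.card {y : X // (⟨κ y, Set.mem_range_self y⟩ : Set.range κ) = ⟨κ x, x, rfl⟩} = Fintype.card {y : X // κ y = κ x} := by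
          refine Fintype.card_congr (Equiv.subtypeEquivRight ?_)
          intro y
          simp [Subtype.ext_iff]
        rw [h5]
        exact this
      have h6 : 0 < Fintype.card {y : X // (⟨κ y, Set.mem_range_self y⟩ : Set.range κ) = ⟨κ x, x, rfl⟩} :=
        Fintype.card_pos_iff.mpr ⟨⟨x, rfl⟩⟩
      obtain ⟨a, ha⟩ := h4
      omega
    calc 2 * Fintype.card (Set.range κ) = ∑ t : Set.range κ, 2 := by
          simp [mul_comm]
      _ ≤ _ := Finset.sum_le_sum (fun t _ => h3 t)
  omega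

theorem im_le_card {X S : Type} [Fintype X] (f : X → S) : im f ≤ Fintype.card X := by
  classical
  unfold im
  rw [Nat.card_eq_fintype_card]
  exact Fintype.card_range_le f

theorem im_fst_le {X S T : Type} [Fintype X] (f : X → S) (h : X → T) : im f ≤ im (fun x => (f x, h x)) := by
  classical
  unfold im
  rw [Nat.card_eq_fintype_card, Nat.card_eq_fintype_card]
  refine Fintype.card_le_of_surjective
    (fun t : Set.range (fun x => (f x, h x)) => (⟨t.1.1, by
      obtain ⟨t, x, rfl⟩ := t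
      exact ⟨x, rfl⟩⟩ : Set.range f)) ?_
  rintro ⟨_, x, rfl⟩
  exact ⟨⟨(f x, h x), x, rfl⟩, rfl⟩

/-- indicator -/
noncomputable def ind (q : Prop) : ℝ := by classical exact if q then 1 else 0

theorem ind_pos {q : Prop} (h : q) : ind q = 1 := by unfold ind; exact if_pos h
theorem ind_neg {q : Prop} (h : ¬ q) : ind q = 0 := by unfold ind; exact if_neg h

theorem step {X T : Type} [Fintype X] [DecidableEq X] [Fintype T] [Nonempty T] (P : ℕ) (hP : 0 < P)
    (ψ : (X → X → Prop) → Prop)
    (hψ : ∀ f : X → X, P < im f → ¬ ψ (fun x y => f x = f y)) :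
    ∑ f : X → T, (1 / (Fintype.card T : ℝ)) ^ (im f) * (P : ℝ) ^ (im f) * ind (ψ (fun x y => f x = f y))
      ≤ ∑ f : X → Fin (2 * P), ind (ψ (fun x y => f x = f y)) := by
  have hP0 : (P : ℝ) ≠ 0 := by positivity
  have key := kernel_compare (X := X) (T := T) P hP (fun R => (P : ℝ) ^ (imR R) * ind (ψ R))
    (fun R => by
      rcases Classical.em (ψ R) with h | h
      · rw [ind_pos h]; positivity
      · rw [ind_neg h]; simp)
    (fun f hf => by rw [ind_neg (hψ f hf)]; simp)
  calc _ = ∑ f : X → T, (1 / (Fintype.card T : ℝ)) ^ (im f) *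
        ((P : ℝ) ^ (imR (fun x y => f x = f y)) * ind (ψ (fun x y => f x = f y))) := by
        refine Finset.sum_congr rfl (fun f _ => ?_)
        rw [← im_eq_imR f, mul_assoc]
    _ ≤ _ := key
    _ = _ := by
        refine Finset.sum_congr rfl (fun f _ => ?_)
        rw [← im_eq_imR f, ← mul_assoc, ← mul_pow, one_div_mul_cancel hP0, one_pow, one_mul]

/-- evenness of the two coupled walks in terms of the kernels -/
def Wt {p : ℕ} (Rg : Pos p → Pos p → Prop) (Rl Rm : Fin (p + 1) → Fin (p + 1) → Prop) : Prop :=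
  kev Rg (fun x y => Rl (e1 x) (e1 y)) ∧ kev Rg (fun x y => Rm x.1 y.1)

/-- the indicator of the coupled evenness -/
noncomputable def II {p : ℕ} {T1 T2 T3 : Type} (g : Pos p → T1) (l : Fin (p + 1) → T2) (m : Fin (p + 1) → T3) : ℝ :=
  ind (Wt (fun x y => g x = g y) (fun x y => l x = l y) (fun x y => m x = m y))


theorem total_le : ∃ K : ℝ, 1 ≤ K ∧ ∀ (p n r ζ b L : ℕ) (s : ℝ), 0 < n → 0 < ζ → 0 < b → 0 < s → s ≤ 1 →
    ((p : ℝ) + 1) / s ≤ ζ → (ζ : ℝ) ≤ 2 * (((p : ℝ) + 1) / s) → (r : ℝ) / (s * ((p : ℝ) + 1)) ≤ b →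
    p + 1 ≤ r → L = n * ζ → Real.exp (((p : ℝ) + 1) / 2) / 2 ≤ b →
    ∑ g : Pos p → Fin ζ × Fin b, ∑ l : Fin (p + 1) → Fin r, ∑ m : Fin (p + 1) → Fin r,
        wt L (1 / ((n : ℝ) * Fintype.card (Fin ζ × Fin b))) (fun x => (g x, l (e1 x)))
          * wt L (1 / ((n : ℝ) * Fintype.card (Fin ζ × Fin b))) (fun x => (g x, m x.1))
      ≤ r * (K * ((p : ℝ) + 1) ^ 2) ^ (p + 1) := by
  classical
  obtain ⟨K0, hK0, hcount⟩ := count_even
  refine ⟨512 * K0, by linarith, ?_⟩
  intro p n r ζ b L s hn hζ hb hs hs1 h1 h2 h3 hpr hL hexp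
  have hcard : Fintype.card (Fin ζ × Fin b) = ζ * b := by simp
  have hn' : (0 : ℝ) < n := by exact_mod_cast hn
  have hζ' : (0 : ℝ) < ζ := by exact_mod_cast hζ
  have hb' : (0 : ℝ) < b := by exact_mod_cast hb
  have hr' : (0 : ℝ) < r := by
    have : 0 < r := by omega
    exact_mod_cast this
  have hP' : (0 : ℝ) < (p : ℝ) + 1 := by positivity
  have hPc : ((p + 1 : ℕ) : ℝ) = (p : ℝ) + 1 := by push_cast; ring
  have hX : Fintype.card (Pos p) = 2 * (p + 1) := by
    simp [Pos, Fintype.card_prod, mul_comm]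
  set k : ℝ := (ζ : ℝ) * b with hk
  have hk' : 0 < k := by positivity
  have hkc : ((Fintype.card (Fin ζ × Fin b) : ℕ) : ℝ) = k := by rw [hcard, hk]; push_cast; ring
  -- the indicator
  have hWiff : ∀ {T1 T2 T3 : Type} (g : Pos p → T1) (l : Fin (p+1) → T2) (m : Fin (p+1) → T3),
      (EvenF (fun x => (g x, l (e1 x))) ∧ EvenF (fun x => (g x, m x.1))) ↔
        Wt (fun x y => g x = g y) (fun x y => l x = l y) (fun x y => m x = m y) := by
    intro T1 T2 T3 g l m
    rw [evenF_iff g (fun x => l (e1 x)), evenF_iff g (fun x : Pos p => m x.1)]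
    rfl
  set C : ℝ := (((p : ℝ) + 1) * 8 ^ (p + 1)) ^ 2 * (r * 2 ^ (p + 1) / ((p : ℝ) + 1)) with hC
  have hC0 : 0 ≤ C := by positivity
  -- termwise bound
  have hterm : ∀ (g : Pos p → Fin ζ × Fin b) (l m : Fin (p + 1) → Fin r),
      wt L (1 / ((n : ℝ) * Fintype.card (Fin ζ × Fin b))) (fun x => (g x, l (e1 x)))
          * wt L (1 / ((n : ℝ) * Fintype.card (Fin ζ × Fin b))) (fun x => (g x, m x.1))
      ≤ C * (((1 / k) ^ (im g) * ((p + 1 : ℕ) : ℝ) ^ (im g)) * (((1 / (r : ℝ)) ^ (im l) * ((p + 1 : ℕ) : ℝ) ^ (im l)) *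
        (((1 / (r : ℝ)) ^ (im m) * ((p + 1 : ℕ) : ℝ) ^ (im m)) *
          ind (Wt (fun x y => g x = g y) (fun x y => l x = l y) (fun x y => m x = m y))))) := by
    intro g l m
    rw [hkc]
    have hy : 0 < 1 / ((n : ℝ) * k) := by positivity
    have hLy : (L : ℝ) * (1 / ((n : ℝ) * k)) ≤ 1 / b := by
      rw [hL, hk]
      push_cast
      apply le_of_eq
      field_simp
    have hw1 := wt_le p L hX (1 / ((n : ℝ) * k)) b hy hLy hexp (fun x => (g x, l (e1 x)))
    have hw2 := wt_le p L hX (1 / ((n : ℝ) * k)) b hy hLy hexp (fun x => (g x, m x.1))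
    have hnn : ∀ {S : Type} (κ : Pos p → S), 0 ≤ wt L (1 / ((n : ℝ) * k)) κ := by
      intro S κ
      unfold wt
      refine Finset.sum_nonneg (fun α _ => ?_)
      split_ifs <;> positivity
    rcases Classical.em (EvenF (fun x => (g x, l (e1 x))) ∧ EvenF (fun x : Pos p => (g x, m x.1))) with hE | hE
    · rw [ind_pos ((hWiff g l m).1 hE)]
      rw [if_pos hE.1] at hw1
      rw [if_pos hE.2] at hw2
      have e1' := even_im_le (p + 1) hX _ hE.1
      have e2' := even_im_le (p + 1) hX _ hE.2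
      have hwl := weight_le (p + 1) (im g) (im l) (im m) (im (fun x : Pos p => (g x, l (e1 x))))
        (im (fun x : Pos p => (g x, m x.1))) s ζ b r (by omega) hs hs1 (by rw [hPc]; exact h1) (by rw [hPc]; exact h2)
        (by rw [hPc]; exact h3) (by exact_mod_cast hpr) (im_fst_le g _) (im_fst_le g _) e1' e2' (conn g l m)
      calc _ ≤ (((p : ℝ) + 1) * 8 ^ (p + 1) * (1 / b) ^ (im (fun x : Pos p => (g x, l (e1 x))))) *
            (((p : ℝ) + 1) * 8 ^ (p + 1) * (1 / b) ^ (im (fun x : Pos p => (g x, m x.1)))) :=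
            mul_le_mul hw1 hw2 (hnn _) (by positivity)
        _ = (((p : ℝ) + 1) * 8 ^ (p + 1)) ^ 2 * ((1 / b : ℝ) ^ (im (fun x : Pos p => (g x, l (e1 x))) + im (fun x : Pos p => (g x, m x.1)))) := by
            rw [pow_add]; ring
        _ = (((p : ℝ) + 1) * 8 ^ (p + 1)) ^ 2 * (((1 / b : ℝ) ^ (im (fun x : Pos p => (g x, l (e1 x))) + im (fun x : Pos p => (g x, m x.1)))
              * (ζ * b) ^ (im g) * r ^ (im l + im m)) * ((1 / k) ^ (im g) * (1 / (r : ℝ)) ^ (im l) * (1 / (r : ℝ)) ^ (im m))) := by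
            have q1 : ((ζ : ℝ) * b) ^ (im g) * (1 / k) ^ (im g) = 1 := by
              rw [← mul_pow, ← hk, mul_one_div_cancel hk'.ne', one_pow]
            have q2 : (r : ℝ) ^ (im l + im m) * ((1 / (r : ℝ)) ^ (im l) * (1 / (r : ℝ)) ^ (im m)) = 1 := by
              rw [← pow_add, ← mul_pow, mul_one_div_cancel hr'.ne', one_pow]
            have : (((1 / b : ℝ) ^ (im (fun x : Pos p => (g x, l (e1 x))) + im (fun x : Pos p => (g x, m x.1)))
              * (ζ * b) ^ (im g) * r ^ (im l + im m)) * ((1 / k) ^ (im g) * (1 / (r : ℝ)) ^ (im l) * (1 / (r : ℝ)) ^ (im m)))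
              = (1 / b : ℝ) ^ (im (fun x : Pos p => (g x, l (e1 x))) + im (fun x : Pos p => (g x, m x.1))) *
                (((ζ : ℝ) * b) ^ (im g) * (1 / k) ^ (im g)) * ((r : ℝ) ^ (im l + im m) * ((1 / (r : ℝ)) ^ (im l) * (1 / (r : ℝ)) ^ (im m))) := by
              ring
            rw [this, q1, q2]
            ring
        _ ≤ (((p : ℝ) + 1) * 8 ^ (p + 1)) ^ 2 * ((r * 2 ^ (p + 1) * ((p + 1 : ℕ) : ℝ) ^ (im g + im l + im m) / ((p + 1 : ℕ) : ℝ))
              * ((1 / k) ^ (im g) * (1 / (r : ℝ)) ^ (im l) * (1 / (r : ℝ)) ^ (im m))) := by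
            apply mul_le_mul_of_nonneg_left _ (by positivity)
            exact mul_le_mul_of_nonneg_right hwl (by positivity)
        _ = _ := by
            rw [hC, hPc, pow_add, pow_add]
            ring
    · rw [ind_neg (fun h => hE ((hWiff g l m).2 h))]
      simp only [mul_zero]
      rw [not_and_or] at hE
      rcases hE with hE | hE
      · rw [if_neg hE] at hw1
        have : wt L (1 / ((n : ℝ) * k)) (fun x => (g x, l (e1 x))) = 0 := le_antisymm hw1 (hnn _)
        rw [this, zero_mul]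
      · rw [if_neg hE] at hw2
        have : wt L (1 / ((n : ℝ) * k)) (fun x : Pos p => (g x, m x.1)) = 0 := le_antisymm hw2 (hnn _)
        rw [this, mul_zero]
  have : Nonempty (Fin ζ × Fin b) := ⟨(⟨0, hζ⟩, ⟨0, hb⟩)⟩
  have : Nonempty (Fin r) := ⟨⟨0, by omega⟩⟩
  set ag : (Pos p → Fin ζ × Fin b) → ℝ := fun g => (1 / k) ^ (im g) * ((p + 1 : ℕ) : ℝ) ^ (im g) with hag
  set bl : (Fin (p + 1) → Fin r) → ℝ := fun l => (1 / (r : ℝ)) ^ (im l) * ((p + 1 : ℕ) : ℝ) ^ (im l) with hbl
  have hag0 : ∀ g, 0 ≤ ag g := fun g => by rw [hag]; positivity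
  have hbl0 : ∀ l, 0 ≤ bl l := fun l => by rw [hbl]; positivity
  -- steps
  have sg : ∀ {T2 T3 : Type} (l : Fin (p + 1) → T2) (m : Fin (p + 1) → T3),
      ∑ g : Pos p → Fin ζ × Fin b, ag g * II g l m ≤ ∑ g : Pos p → Fin (2 * (p + 1)), II g l m := by
    intro T2 T3 l m
    have := step (X := Pos p) (T := Fin ζ × Fin b) (p + 1) (by omega)
      (fun R => Wt R (fun x y => l x = l y) (fun x y => m x = m y))
      (by
        intro f hf hW
        have h4 : EvenF (fun x => (f x, l (e1 x))) := (evenF_iff f (fun x => l (e1 x))).2 hW.1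
        have h5 := even_im_le (p + 1) hX _ h4
        have h6 := im_fst_le f (fun x => l (e1 x))
        omega)
    rw [hkc] at this
    exact this
  have sl : ∀ {T1 T3 : Type} (g : Pos p → T1) (m : Fin (p + 1) → T3),
      ∑ l : Fin (p + 1) → Fin r, bl l * II g l m ≤ ∑ l : Fin (p + 1) → Fin (2 * (p + 1)), II g l m := by
    intro T1 T3 g m
    have := step (X := Fin (p + 1)) (T := Fin r) (p + 1) (by omega)
      (fun R => Wt (fun x y => g x = g y) R (fun x y => m x = m y))
      (by
        intro f hf hW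
        have h5 := im_le_card f
        simp at h5
        omega)
    rw [Fintype.card_fin] at this
    exact this
  have sm : ∀ {T1 T2 : Type} (g : Pos p → T1) (l : Fin (p + 1) → T2),
      ∑ m : Fin (p + 1) → Fin r, bl m * II g l m ≤ ∑ m : Fin (p + 1) → Fin (2 * (p + 1)), II g l m := by
    intro T1 T2 g l
    have := step (X := Fin (p + 1)) (T := Fin r) (p + 1) (by omega)
      (fun R => Wt (fun x y => g x = g y) (fun x y => l x = l y) R)
      (by
        intro f hf hW
        have h5 := im_le_card f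
        simp at h5
        omega)
    rw [Fintype.card_fin] at this
    exact this
  have hcnt : ∑ g : Pos p → Fin (2 * (p + 1)), ∑ l : Fin (p + 1) → Fin (2 * (p + 1)), ∑ m : Fin (p + 1) → Fin (2 * (p + 1)),
      II g l m ≤ K0 ^ (p + 1) * ((p : ℝ) + 1) ^ (2 * (p + 1) + 1) := by
    refine le_trans (le_of_eq ?_) (hcount p)
    rw [Nat.card_eq_fintype_card, Fintype.card_subtype, Finset.card_filter, Nat.cast_sum, Fintype.sum_prod_type]
    refine Finset.sum_congr rfl (fun g _ => ?_)
    rw [Fintype.sum_prod_type]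
    refine Finset.sum_congr rfl (fun l _ => Finset.sum_congr rfl (fun m _ => ?_))
    rcases Classical.em (EvenF (fun x => (g x, l (e1 x))) ∧ EvenF (fun x : Pos p => (g x, m x.1))) with hE | hE
    · unfold II
      rw [ind_pos ((hWiff g l m).1 hE), if_pos hE]
      simp
    · unfold II
      rw [ind_neg (fun h => hE ((hWiff g l m).2 h)), if_neg hE]
      simp
  calc _ ≤ ∑ g : Pos p → Fin ζ × Fin b, ∑ l : Fin (p + 1) → Fin r, ∑ m : Fin (p + 1) → Fin r,
        C * (ag g * (bl l * (bl m * II g l m))) :=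
        Finset.sum_le_sum (fun g _ => Finset.sum_le_sum (fun l _ => Finset.sum_le_sum (fun m _ => hterm g l m)))
    _ = C * ∑ l : Fin (p + 1) → Fin r, bl l * ∑ m : Fin (p + 1) → Fin r, bl m *
          ∑ g : Pos p → Fin ζ × Fin b, ag g * II g l m := by
        rw [Finset.sum_comm, Finset.mul_sum]
        refine Finset.sum_congr rfl (fun l _ => ?_)
        rw [Finset.sum_comm, Finset.mul_sum, Finset.mul_sum]
        refine Finset.sum_congr rfl (fun m _ => ?_)
        rw [Finset.mul_sum, Finset.mul_sum, Finset.mul_sum]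
        refine Finset.sum_congr rfl (fun g _ => ?_)
        ring
    _ ≤ C * ∑ l : Fin (p + 1) → Fin r, bl l * ∑ m : Fin (p + 1) → Fin r, bl m *
          ∑ g : Pos p → Fin (2 * (p + 1)), II g l m := by
        refine mul_le_mul_of_nonneg_left (Finset.sum_le_sum (fun l _ => mul_le_mul_of_nonneg_left
          (Finset.sum_le_sum (fun m _ => mul_le_mul_of_nonneg_left (sg l m) (hbl0 m))) (hbl0 l))) hC0
    _ = C * ∑ g : Pos p → Fin (2 * (p + 1)), ∑ m : Fin (p + 1) → Fin r, bl m *
          ∑ l : Fin (p + 1) → Fin r, bl l * II g l m := by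
        congr 1
        calc _ = ∑ l : Fin (p + 1) → Fin r, ∑ m : Fin (p + 1) → Fin r, ∑ g : Pos p → Fin (2 * (p + 1)),
              bl l * (bl m * II g l m) := by
              simp_rw [Finset.mul_sum]
          _ = ∑ l : Fin (p + 1) → Fin r, ∑ g : Pos p → Fin (2 * (p + 1)), ∑ m : Fin (p + 1) → Fin r,
              bl l * (bl m * II g l m) := Finset.sum_congr rfl (fun l _ => Finset.sum_comm)
          _ = ∑ g : Pos p → Fin (2 * (p + 1)), ∑ l : Fin (p + 1) → Fin r, ∑ m : Fin (p + 1) → Fin r,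
              bl l * (bl m * II g l m) := Finset.sum_comm
          _ = ∑ g : Pos p → Fin (2 * (p + 1)), ∑ m : Fin (p + 1) → Fin r, ∑ l : Fin (p + 1) → Fin r,
              bl l * (bl m * II g l m) := Finset.sum_congr rfl (fun g _ => Finset.sum_comm)
          _ = _ := by
              refine Finset.sum_congr rfl (fun g _ => Finset.sum_congr rfl (fun m _ => ?_))
              rw [Finset.mul_sum]
              refine Finset.sum_congr rfl (fun l _ => ?_)
              ring
    _ ≤ C * ∑ g : Pos p → Fin (2 * (p + 1)), ∑ m : Fin (p + 1) → Fin r, bl m *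
          ∑ l : Fin (p + 1) → Fin (2 * (p + 1)), II g l m := by
        refine mul_le_mul_of_nonneg_left (Finset.sum_le_sum (fun g _ => Finset.sum_le_sum (fun m _ =>
          mul_le_mul_of_nonneg_left (sl g m) (hbl0 m)))) hC0
    _ = C * ∑ g : Pos p → Fin (2 * (p + 1)), ∑ l : Fin (p + 1) → Fin (2 * (p + 1)),
          ∑ m : Fin (p + 1) → Fin r, bl m * II g l m := by
        congr 1
        refine Finset.sum_congr rfl (fun g _ => ?_)
        rw [Finset.sum_comm]
        refine Finset.sum_congr rfl (fun m _ => ?_)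
        rw [Finset.mul_sum]
    _ ≤ C * ∑ g : Pos p → Fin (2 * (p + 1)), ∑ l : Fin (p + 1) → Fin (2 * (p + 1)),
          ∑ m : Fin (p + 1) → Fin (2 * (p + 1)), II g l m := by
        refine mul_le_mul_of_nonneg_left (Finset.sum_le_sum (fun g _ => Finset.sum_le_sum (fun l _ => sm g l))) hC0
    _ ≤ C * (K0 ^ (p + 1) * ((p : ℝ) + 1) ^ (2 * (p + 1) + 1)) := mul_le_mul_of_nonneg_left hcnt hC0
    _ ≤ _ := by
        have h4 : ((p : ℝ) + 1) ^ 2 ≤ 4 ^ (p + 1) := by
          have h5 : (p : ℝ) + 1 ≤ 2 ^ (p + 1) := by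
            have := (Nat.lt_two_pow_self (n := p + 1)).le
            exact_mod_cast this
          calc ((p : ℝ) + 1) ^ 2 ≤ ((2 : ℝ) ^ (p + 1)) ^ 2 := pow_le_pow_left₀ (by positivity) h5 2
            _ = 4 ^ (p + 1) := by rw [← pow_mul, mul_comm, pow_mul]; norm_num
        have h6 : C * (K0 ^ (p + 1) * ((p : ℝ) + 1) ^ (2 * (p + 1) + 1))
            = (r * (128 : ℝ) ^ (p + 1) * K0 ^ (p + 1) * ((p : ℝ) + 1) ^ (2 * (p + 1))) * ((p : ℝ) + 1) ^ 2 := by
          rw [hC, show (128 : ℝ) = 8 ^ 2 * 2 by norm_num, mul_pow (8 ^ 2 : ℝ) 2, ← pow_mul, pow_succ ((p : ℝ) + 1) (2 * (p + 1))]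
          field_simp
          ring
        rw [h6]
        calc _ ≤ (r * (128 : ℝ) ^ (p + 1) * K0 ^ (p + 1) * ((p : ℝ) + 1) ^ (2 * (p + 1))) * 4 ^ (p + 1) := by
              apply mul_le_mul_of_nonneg_left h4
              have : (0 : ℝ) ≤ K0 := by linarith
              positivity
          _ = _ := by
              rw [mul_pow, mul_pow, ← pow_mul, show (512 : ℝ) = 128 * 4 by norm_num, mul_pow (128 : ℝ) 4]
              ring

end Pool.Agent.Helper495.NN
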