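import Mathlib
import Pool.Agent.Helper495.NN.Defs
import Pool.Agent.Helper495.NN.JensenAtoms
import Pool.Agent.Helper495.NN.MomentLe
import Pool.Agent.Helper495.NN.TotalLe
import Pool.Agent.Helper495.NN.Decouple
import Pool.Agent.Helper495.NN.Indep

open scoped BigOperators

namespace Pool.Agent.Helper495.NN




















theorem avg_mono_16008 {T : Type} [Fintype T] {f g : T → ℝ} (h : ∀ x, f x ≤ g x) :
    avg f ≤ avg g := by
  unfold avg
  exact div_le_div_of_nonneg_right (Finset.sum_le_sum fun x _ => h x) (Nat.cast_nonneg _)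

theorem avg_mul_16008 {T : Type} [Fintype T] (a : ℝ) (f : T → ℝ) :
    avg (fun x => a * f x) = a * avg f := by
  unfold avg
  rw [← Finset.mul_sum, mul_div_assoc]

theorem avg_comm_16008 {T T' : Type} [Fintype T] [Fintype T'] (f : T → T' → ℝ) :
    avg (fun x => avg (fun y => f x y)) = avg (fun y => avg (fun x => f x y)) := by
  unfold avg
  rw [← Finset.sum_div, ← Finset.sum_div, Finset.sum_comm, div_div, div_div, mul_comm]

theorem avg_le_16008 {T : Type} [Fintype T] [Nonempty T] {f : T → ℝ} {C : ℝ}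
    (h : ∀ x, f x ≤ C) : avg f ≤ C := by
  unfold avg
  have hc : (0 : ℝ) < Fintype.card T := by exact_mod_cast Fintype.card_pos
  rw [div_le_iff₀ hc]
  calc ∑ x, f x ≤ ∑ _x : T, C := Finset.sum_le_sum fun x _ => h x
    _ = C * Fintype.card T := by
      rw [Finset.sum_const, Finset.card_univ, nsmul_eq_mul, mul_comm]

theorem Bop_apply_16008 {P : Type} [Fintype P] {r : ℕ} (Z Z' : P → E r) (y : E r) :
    Bop Z Z' y = ∑ q, (inner ℝ (Z' q) y) • Z q := by
  unfold Bop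
  rw [ContinuousLinearMap.sum_apply]
  apply Finset.sum_congr rfl
  intro q _
  simp

theorem Bop_add_left_16008 {P : Type} [Fintype P] {r : ℕ} (Z1 Z2 Z' : P → E r) :
    Bop (Z1 + Z2) Z' = Bop Z1 Z' + Bop Z2 Z' := by
  ext1 y
  rw [ContinuousLinearMap.add_apply, Bop_apply_16008, Bop_apply_16008, Bop_apply_16008,
    ← Finset.sum_add_distrib]
  apply Finset.sum_congr rfl
  intro q _
  rw [Pi.add_apply, smul_add]

theorem Bop_smul_left_16008 {P : Type} [Fintype P] {r : ℕ} (a : ℝ) (Z Z' : P → E r) :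
    Bop (a • Z) Z' = a • Bop Z Z' := by
  ext1 y
  rw [ContinuousLinearMap.smul_apply, Bop_apply_16008, Bop_apply_16008, Finset.smul_sum]
  apply Finset.sum_congr rfl
  intro q _
  rw [Pi.smul_apply, smul_comm]

theorem Bop_add_right_16008 {P : Type} [Fintype P] {r : ℕ} (Z Z1 Z2 : P → E r) :
    Bop Z (Z1 + Z2) = Bop Z Z1 + Bop Z Z2 := by
  ext1 y
  rw [ContinuousLinearMap.add_apply, Bop_apply_16008, Bop_apply_16008, Bop_apply_16008,
    ← Finset.sum_add_distrib]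
  apply Finset.sum_congr rfl
  intro q _
  rw [Pi.add_apply, inner_add_left, add_smul]

theorem Bop_smul_right_16008 {P : Type} [Fintype P] {r : ℕ} (a : ℝ) (Z Z' : P → E r) :
    Bop Z (a • Z') = a • Bop Z Z' := by
  ext1 y
  rw [ContinuousLinearMap.smul_apply, Bop_apply_16008, Bop_apply_16008, Finset.smul_sum]
  apply Finset.sum_congr rfl
  intro q _
  rw [Pi.smul_apply, real_inner_smul_left, mul_smul]

theorem conv_left_16008 {P : Type} [Fintype P] {r : ℕ} (Z' : P → E r) (m : ℕ) :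
    ConvexOn ℝ Set.univ (fun Z : P → E r => ‖Bop Z Z'‖ ^ m) := by
  have h : ConvexOn ℝ Set.univ (fun Z : P → E r => ‖Bop Z Z'‖) := by
    refine ⟨convex_univ, ?_⟩
    intro Z1 _ Z2 _ a b ha hb _
    simp only
    rw [Bop_add_left_16008, Bop_smul_left_16008, Bop_smul_left_16008]
    refine (norm_add_le _ _).trans ?_
    rw [norm_smul, norm_smul, Real.norm_of_nonneg ha, Real.norm_of_nonneg hb]
    rfl
  exact h.pow (fun _ _ => norm_nonneg _) m

theorem conv_right_16008 {P : Type} [Fintype P] {r : ℕ} (Z : P → E r) (m : ℕ) :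
    ConvexOn ℝ Set.univ (fun Z' : P → E r => ‖Bop Z Z'‖ ^ m) := by
  have h : ConvexOn ℝ Set.univ (fun Z' : P → E r => ‖Bop Z Z'‖) := by
    refine ⟨convex_univ, ?_⟩
    intro Z1 _ Z2 _ a b ha hb _
    simp only
    rw [Bop_add_right_16008, Bop_smul_right_16008, Bop_smul_right_16008]
    refine (norm_add_le _ _).trans ?_
    rw [norm_smul, norm_smul, Real.norm_of_nonneg ha, Real.norm_of_nonneg hb]
    rfl
  exact h.pow (fun _ _ => norm_nonneg _) m

theorem c_bound_16008 (N : ℕ) (hN : 0 < N) :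
    (1 : ℝ) / 2 ≤ 1 - (1 - 1 / (N : ℝ)) ^ N := by
  have h1 : (1 - 1 / (N : ℝ)) ^ N ≤ Real.exp (-1) :=
    Real.one_sub_div_pow_le_exp_neg (by exact_mod_cast hN)
  have h2 : Real.exp (-1) ≤ 1 / 2 := by
    rw [Real.exp_neg, ← one_div]
    apply one_div_le_one_div_of_le (by norm_num)
    have := Real.add_one_le_exp (1 : ℝ)
    linarith
  linarith


theorem avg_norm : ∃ K : ℝ, 1 ≤ K ∧ ∀ (p n r ζ b : ℕ) (s : ℝ), 0 < n → 0 < ζ → 0 < b → 0 < s → s ≤ 1 →
    ((p : ℝ) + 1) / s ≤ ζ → (ζ : ℝ) ≤ 2 * (((p : ℝ) + 1) / s) → (r : ℝ) / (s * ((p : ℝ) + 1)) ≤ b →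
    p + 1 ≤ r → Real.exp (((p : ℝ) + 1) / 2) / 2 ≤ b →
    ∀ u : Fin n → E r, (∀ y : E r, ∑ i, (inner ℝ (u i) y) ^ 2 ≤ ‖y‖ ^ 2) →
    avg (fun ω : Fin n → Fin ζ → Bool × Fin b =>
      ‖(1 / (ζ : ℝ)) • Bop (Zst ω u) (Zst ω u) - Bop u u‖ ^ (2 * (p + 1)))
      ≤ r * (K * s ^ 2) ^ (p + 1) := by
  obtain ⟨K, hK1, hK⟩ := total_le
  refine ⟨256 * K, by linarith, ?_⟩
  intro p n r ζ b s hn hζ hb hs hs1 h1 h2 h3 h4 h5 u hu
  have hne : Nonempty (Fin ζ × Fin b) := ⟨(⟨0, hζ⟩, ⟨0, hb⟩)⟩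
  have hζR : (0 : ℝ) < ζ := by exact_mod_cast hζ
  set m : ℕ := 2 * (p + 1) with hm
  set c : ℝ := 1 - (1 - 1 / ((n * ζ : ℕ) : ℝ)) ^ (n * ζ) with hc
  have hc2 : 1 / 2 ≤ c := c_bound_16008 (n * ζ) (Nat.mul_pos hn hζ)
  have hc4 : 1 / 4 ≤ c ^ 2 := by nlinarith
  set Tot : ℝ := r * (K * ((p : ℝ) + 1) ^ 2) ^ (p + 1) with hTot
  -- the bound for fixed χ
  have hχ : ∀ χ : Fin n → Bool, avg (fun ω : Fin n → Fin ζ → Bool × Fin b =>
      ‖(4 / (ζ : ℝ)) • Bop (Zst ω (fun i => if χ i then u i else 0))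
        (Zst ω (fun i => if χ i then 0 else u i))‖ ^ m) ≤ (16 / (ζ : ℝ)) ^ m * Tot := by
    intro χ
    set u1 : Fin n → E r := fun i => if χ i then u i else 0 with hu1
    set u2 : Fin n → E r := fun i => if χ i then 0 else u i with hu2
    have hfr1 : ∀ y : E r, ∑ i, (inner ℝ (u1 i) y) ^ 2 ≤ ‖y‖ ^ 2 := by
      intro y
      refine le_trans (Finset.sum_le_sum fun i _ => ?_) (hu y)
      rw [hu1]
      simp only
      split_ifs
      · exact le_rfl
      · rw [inner_zero_left, zero_pow two_ne_zero]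
        exact sq_nonneg _
    have hfr2 : ∀ y : E r, ∑ i, (inner ℝ (u2 i) y) ^ 2 ≤ ‖y‖ ^ 2 := by
      intro y
      refine le_trans (Finset.sum_le_sum fun i _ => ?_) (hu y)
      rw [hu2]
      simp only
      split_ifs
      · rw [inner_zero_left, zero_pow two_ne_zero]
        exact sq_nonneg _
      · exact le_rfl
    have hind := indep (n := n) (ζ := ζ) (b := b) (r := r) hb u χ
      (fun Z Z' => ‖(4 / (ζ : ℝ)) • Bop Z Z'‖ ^ m)
    rw [hind]
    have hpt : ∀ Z Z' : (Fin ζ × Fin b) → E r, ‖(4 / (ζ : ℝ)) • Bop Z Z'‖ ^ m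
        ≤ (16 / (ζ : ℝ)) ^ m * ‖Bop (c • Z) (c • Z')‖ ^ m := by
      intro Z Z'
      rw [← mul_pow]
      apply pow_le_pow_left₀ (norm_nonneg _)
      rw [norm_smul, Bop_smul_left_16008, Bop_smul_right_16008, smul_smul, norm_smul,
        Real.norm_of_nonneg (by positivity : (0 : ℝ) ≤ 4 / ζ),
        Real.norm_of_nonneg (mul_self_nonneg c)]
      have hB := norm_nonneg (Bop Z Z')
      have e1 : 16 / (ζ : ℝ) * (c * c * ‖Bop Z Z'‖) = (4 / (ζ : ℝ) * ‖Bop Z Z'‖) * (4 * c ^ 2) := by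
        ring
      rw [e1]
      have e2 : 0 ≤ 4 / (ζ : ℝ) * ‖Bop Z Z'‖ := by positivity
      nlinarith
    have step1 : avg (fun ω : Fin n → Fin ζ → Bool × Fin b =>
        avg (fun ω' : Fin n → Fin ζ → Bool × Fin b =>
          ‖(4 / (ζ : ℝ)) • Bop (Zst ω u1) (Zst ω' u2)‖ ^ m))
        ≤ (16 / (ζ : ℝ)) ^ m * avg (fun ω : Fin n → Fin ζ → Bool × Fin b =>
          avg (fun ω' : Fin n → Fin ζ → Bool × Fin b =>
            ‖Bop (c • Zst ω u1) (c • Zst ω' u2)‖ ^ m)) := by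
      rw [← avg_mul_16008]
      apply avg_mono_16008
      intro ω
      rw [← avg_mul_16008]
      apply avg_mono_16008
      intro ω'
      exact hpt _ _
    have step2 : avg (fun ω : Fin n → Fin ζ → Bool × Fin b =>
          avg (fun ω' : Fin n → Fin ζ → Bool × Fin b =>
            ‖Bop (c • Zst ω u1) (c • Zst ω' u2)‖ ^ m))
        ≤ avg (fun A : (Fin (n * ζ) → Fin n) × (Fin (n * ζ) → Fin ζ × Fin b) ×
            (Fin (n * ζ) → Bool) =>
          avg (fun ω' : Fin n → Fin ζ → Bool × Fin b =>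
            ‖Bop (XA A.1 A.2.1 A.2.2 u1) (c • Zst ω' u2)‖ ^ m)) := by
      rw [avg_comm_16008, avg_comm_16008 (T := (Fin (n * ζ) → Fin n) ×
        (Fin (n * ζ) → Fin ζ × Fin b) × (Fin (n * ζ) → Bool))]
      apply avg_mono_16008
      intro ω'
      exact jensen_atoms hn hζ hb u1 (fun Z => ‖Bop Z (c • Zst ω' u2)‖ ^ m)
        (conv_left_16008 _ m)
    have step3 : avg (fun A : (Fin (n * ζ) → Fin n) × (Fin (n * ζ) → Fin ζ × Fin b) ×
            (Fin (n * ζ) → Bool) =>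
          avg (fun ω' : Fin n → Fin ζ → Bool × Fin b =>
            ‖Bop (XA A.1 A.2.1 A.2.2 u1) (c • Zst ω' u2)‖ ^ m))
        ≤ avg (fun A : (Fin (n * ζ) → Fin n) × (Fin (n * ζ) → Fin ζ × Fin b) ×
            (Fin (n * ζ) → Bool) =>
          avg (fun B : (Fin (n * ζ) → Fin n) × (Fin (n * ζ) → Fin ζ × Fin b) ×
            (Fin (n * ζ) → Bool) =>
            ‖Bop (XA A.1 A.2.1 A.2.2 u1) (XA B.1 B.2.1 B.2.2 u2)‖ ^ m)) := by
      apply avg_mono_16008
      intro A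
      exact jensen_atoms hn hζ hb u2 (fun Z' => ‖Bop (XA A.1 A.2.1 A.2.2 u1) Z'‖ ^ m)
        (conv_right_16008 _ m)
    have step4 := moment_le (L := n * ζ) (p := p) (P := Fin ζ × Fin b) hn u1 u2 hfr1 hfr2
    have step5 := hK p n r ζ b (n * ζ) s hn hζ hb hs hs1 h1 h2 h3 h4 rfl h5
    have hpos : 0 ≤ (16 / (ζ : ℝ)) ^ m := by positivity
    exact step1.trans (mul_le_mul_of_nonneg_left
      (step2.trans (step3.trans (step4.trans step5))) hpos)
  -- averaging
  calc avg (fun ω : Fin n → Fin ζ → Bool × Fin b =>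
      ‖(1 / (ζ : ℝ)) • Bop (Zst ω u) (Zst ω u) - Bop u u‖ ^ m)
      ≤ avg (fun ω : Fin n → Fin ζ → Bool × Fin b => avg (fun χ : Fin n → Bool =>
        ‖(4 / (ζ : ℝ)) • Bop (Zst ω (fun i => if χ i then u i else 0))
          (Zst ω (fun i => if χ i then 0 else u i))‖ ^ m)) :=
        avg_mono_16008 fun ω => decouple hζ ω u p
    _ = avg (fun χ : Fin n → Bool => avg (fun ω : Fin n → Fin ζ → Bool × Fin b =>
        ‖(4 / (ζ : ℝ)) • Bop (Zst ω (fun i => if χ i then u i else 0))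
          (Zst ω (fun i => if χ i then 0 else u i))‖ ^ m)) := avg_comm_16008 _
    _ ≤ (16 / (ζ : ℝ)) ^ m * Tot := avg_le_16008 hχ
    _ ≤ r * (256 * K * s ^ 2) ^ (p + 1) := by
      rw [hTot, hm, pow_mul]
      have e1 : ((16 / (ζ : ℝ)) ^ 2) ^ (p + 1) * (r * (K * ((p : ℝ) + 1) ^ 2) ^ (p + 1))
          = r * (((16 / (ζ : ℝ)) ^ 2) * (K * ((p : ℝ) + 1) ^ 2)) ^ (p + 1) := by
        rw [mul_pow (((16 / (ζ : ℝ)) ^ 2))]
        ring
      rw [e1]
      have hp1 : (0 : ℝ) < (p : ℝ) + 1 := by positivity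
      have e2 : ((16 / (ζ : ℝ)) ^ 2) * (K * ((p : ℝ) + 1) ^ 2) ≤ 256 * K * s ^ 2 := by
        have e3 : ((p : ℝ) + 1) / ζ ≤ s := by
          rw [div_le_iff₀ hζR]
          rw [div_le_iff₀ hs] at h1
          linarith
        have e4 : (((p : ℝ) + 1) / ζ) ^ 2 ≤ s ^ 2 :=
          pow_le_pow_left₀ (by positivity) e3 2
        calc ((16 / (ζ : ℝ)) ^ 2) * (K * ((p : ℝ) + 1) ^ 2)
            = 256 * K * (((p : ℝ) + 1) / ζ) ^ 2 := by
              rw [div_pow, div_pow]; ring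
          _ ≤ 256 * K * s ^ 2 := by
              apply mul_le_mul_of_nonneg_left e4
              linarith
      apply mul_le_mul_of_nonneg_left _ (Nat.cast_nonneg r)
      apply pow_le_pow_left₀ _ e2
      have : 0 ≤ K := by linarith
      positivity

end Pool.Agent.Helper495.NN
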