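import Mathlib
import Pool.Agent.Helper495.NN.Defs

open scoped BigOperators

namespace Pool.Agent.Helper495.NN





theorem exists_frame {n r : ℕ} (V : Submodule ℝ (EuclideanSpace ℝ (Fin n))) (hV : Module.finrank ℝ V = r) :
    ∃ u : Fin n → E r, (∀ y : E r, ∑ i, (inner ℝ (u i) y) ^ 2 = ‖y‖ ^ 2) ∧
      ∀ x ∈ V, ∃ y : E r, ‖y‖ = ‖x‖ ∧ ∀ i, x i = inner ℝ (u i) y := by
  let f : OrthonormalBasis (Fin r) ℝ V := (stdOrthonormalBasis ℝ V).reindex (finCongr hV)
  let u : Fin n → E r := fun i =>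
    WithLp.toLp 2 (fun j => ((f j : V) : EuclideanSpace ℝ (Fin n)) i)
  have key : ∀ (y : E r) (i : Fin n),
      inner ℝ (u i) y = ((f.repr.symm y : V) : EuclideanSpace ℝ (Fin n)) i := by
    intro y i
    have h1 : f.repr.symm y = ∑ j, y j • f j := (f.sum_repr_symm y).symm
    rw [h1, PiLp.inner_apply]
    have h2 : ((∑ j, y j • f j : V) : EuclideanSpace ℝ (Fin n)) =
        ∑ j, y j • ((f j : V) : EuclideanSpace ℝ (Fin n)) := by
      rw [AddSubmonoidClass.coe_finsetSum]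
      rfl
    rw [h2]
    simp only [WithLp.ofLp_sum, Finset.sum_apply, WithLp.ofLp_smul, Pi.smul_apply, smul_eq_mul]
    refine Finset.sum_congr rfl fun j _ => ?_
    change inner ℝ (((f j : V) : EuclideanSpace ℝ (Fin n)) i) (y j) = _
    rw [real_inner_comm]
    simp [mul_comm]
  refine ⟨u, ?_, ?_⟩
  · intro y
    have h1 : ‖y‖ = ‖((f.repr.symm y : V) : EuclideanSpace ℝ (Fin n))‖ := by
      exact (LinearIsometryEquiv.norm_map f.repr.symm y).symm
    rw [h1, EuclideanSpace.real_norm_sq_eq]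
    exact Finset.sum_congr rfl fun i _ => by rw [key]
  · intro x hx
    refine ⟨f.repr ⟨x, hx⟩, ?_, ?_⟩
    · rw [LinearIsometryEquiv.norm_map]; rfl
    · intro i
      rw [key, LinearIsometryEquiv.symm_apply_apply]

end Pool.Agent.Helper495.NN
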