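import Mathlib
import Pool.Agent.Helper495.NN.Defs

open scoped BigOperators

namespace Pool.Agent.Helper495.NN








theorem Bop_inner {P : Type} [Fintype P] {r : ℕ} (Z Z' : P → E r) (y w : E r) :
    inner ℝ (Bop Z Z' y) w = ∑ q, inner ℝ (Z' q) y * inner ℝ (Z q) w := by
  unfold Bop
  rw [ContinuousLinearMap.sum_apply, sum_inner]
  refine Finset.sum_congr rfl fun q _ => ?_
  rw [ContinuousLinearMap.smulRight_apply, innerSL_apply_apply, real_inner_smul_left]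

theorem sketch_entry {n ζ b r : ℕ} (ω : Sample n ζ b) (u : Fin n → E r)
    (x : EuclideanSpace ℝ (Fin n)) (y : E r) (hx : ∀ i, x i = inner ℝ (u i) y) (q : Fin ζ × Fin b) :
    sketch ω x q = (1 / Real.sqrt ζ) * inner ℝ (Zst ω u q) y := by
  unfold sketch Zst stack
  simp only [Matrix.mulVec, dotProduct, Matrix.transpose_apply]
  rw [sum_inner, Finset.mul_sum]
  refine Finset.sum_congr rfl fun i _ => ?_
  rw [real_inner_smul_left, hx i]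
  split_ifs
  · ring
  · ring

theorem sketch_sq {n ζ b r : ℕ} (ω : Sample n ζ b) (u : Fin n → E r)
    (x : EuclideanSpace ℝ (Fin n)) (y : E r) (hx : ∀ i, x i = inner ℝ (u i) y) :
    ‖sketch ω x‖ ^ 2 = inner ℝ (((1 / (ζ : ℝ)) • Bop (Zst ω u) (Zst ω u)) y) y := by
  rw [EuclideanSpace.norm_sq_eq, ContinuousLinearMap.smul_apply, real_inner_smul_left, Bop_inner,
    Finset.mul_sum]
  refine Finset.sum_congr rfl fun q _ => ?_
  rw [sketch_entry ω u x y hx q, Real.norm_eq_abs, sq_abs, mul_pow, div_pow, one_pow,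
    Real.sq_sqrt (Nat.cast_nonneg ζ)]
  ring

theorem id_sq {n r : ℕ} (u : Fin n → E r)
    (hu : ∀ y : E r, ∑ i, (inner ℝ (u i) y) ^ 2 = ‖y‖ ^ 2) (y : E r) :
    inner ℝ (Bop u u y) y = ‖y‖ ^ 2 := by
  rw [Bop_inner, ← hu y]
  refine Finset.sum_congr rfl fun i _ => ?_
  ring

theorem le_of_sq_le_sq' {a b : ℝ} (hb : 0 ≤ b) (h : a ^ 2 ≤ b ^ 2) : a ≤ b := by
  exact (abs_le_of_sq_le_sq' h hb).2


theorem good_of_norm {n ζ b r : ℕ} (hζ : 0 < ζ) (ω : Sample n ζ b) (u : Fin n → E r)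
    (hu : ∀ y : E r, ∑ i, (inner ℝ (u i) y) ^ 2 = ‖y‖ ^ 2) (ε : ℝ) (hε : 0 < ε) (hε1 : ε < 1)
    (hN : ‖(1 / (ζ : ℝ)) • Bop (Zst ω u) (Zst ω u) - Bop u u‖ ≤ ε)
    (x : EuclideanSpace ℝ (Fin n)) (y : E r) (hy : ‖y‖ = ‖x‖) (hx : ∀ i, x i = inner ℝ (u i) y) :
    (1 - ε) * ‖x‖ ≤ ‖sketch ω x‖ ∧ ‖sketch ω x‖ ≤ (1 + ε) * ‖x‖ := by
  have h1 := sketch_sq ω u x y hx
  have h2 := id_sq u hu y
  have h3 : |‖sketch ω x‖ ^ 2 - ‖y‖ ^ 2| ≤ ε * ‖y‖ ^ 2 := by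
    rw [h1, ← h2, ← inner_sub_left, ← ContinuousLinearMap.sub_apply]
    rw [h2]
    calc |inner ℝ (((1 / (ζ : ℝ)) • Bop (Zst ω u) (Zst ω u) - Bop u u) y) y|
        ≤ ‖((1 / (ζ : ℝ)) • Bop (Zst ω u) (Zst ω u) - Bop u u) y‖ * ‖y‖ :=
          abs_real_inner_le_norm _ _
      _ ≤ (‖(1 / (ζ : ℝ)) • Bop (Zst ω u) (Zst ω u) - Bop u u‖ * ‖y‖) * ‖y‖ :=
          mul_le_mul_of_nonneg_right (ContinuousLinearMap.le_opNorm _ _) (norm_nonneg _)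
      _ ≤ (ε * ‖y‖) * ‖y‖ := by
          gcongr
      _ = ε * ‖y‖ ^ 2 := by ring
  rw [hy] at h3
  have h4 := abs_le.mp h3
  have hxn := norm_nonneg x
  have hsn := norm_nonneg (sketch ω x)
  have hx2 : 0 ≤ ‖x‖ ^ 2 := sq_nonneg _
  constructor
  · apply le_of_sq_le_sq' hsn
    nlinarith [mul_nonneg (mul_nonneg hε.le (sub_nonneg.mpr hε1.le)) hx2]
  · apply le_of_sq_le_sq' (by positivity)
    nlinarith [mul_nonneg hε.le hx2, mul_nonneg (mul_nonneg hε.le hε.le) hx2]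

end Pool.Agent.Helper495.NN
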