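import Mathlib
import Pool.Agent.Helper495.NN.Defs

open scoped BigOperators

namespace Pool.Agent.Helper495.NN








theorem markov {n ζ b : ℕ} (hb : 0 < b) (f : Sample n ζ b → ℝ) (hf : ∀ ω, 0 ≤ f ω) (ε δ : ℝ) (hε : 0 < ε)
    (k : ℕ) (h : avg (fun ω => f ω ^ k) ≤ δ * ε ^ k) (S : Set (Sample n ζ b))
    (hS : ∀ ω, f ω ≤ ε → ω ∈ S) : 1 - δ ≤ prob S := by
  classical
  haveI : Nonempty (Fin b) := ⟨⟨0, hb⟩⟩
  haveI : Nonempty (Sample n ζ b) := ⟨fun _ _ => (true, ⟨0, hb⟩)⟩
  have hN : (0 : ℝ) < (Fintype.card (Sample n ζ b) : ℝ) := by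
    exact_mod_cast Fintype.card_pos
  have hεk : (0 : ℝ) < ε ^ k := pow_pos hε k
  unfold avg at h
  rw [div_le_iff₀ hN] at h
  have h1 : ((Finset.univ.filter (fun ω : Sample n ζ b => ω ∉ S)).card : ℝ) * ε ^ k
      ≤ ∑ ω, f ω ^ k := by
    calc ((Finset.univ.filter (fun ω : Sample n ζ b => ω ∉ S)).card : ℝ) * ε ^ k
        = ∑ ω ∈ Finset.univ.filter (fun ω : Sample n ζ b => ω ∉ S), ε ^ k := by
          rw [Finset.sum_const, nsmul_eq_mul]
      _ ≤ ∑ ω ∈ Finset.univ.filter (fun ω : Sample n ζ b => ω ∉ S), f ω ^ k := by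
          apply Finset.sum_le_sum
          intro ω hω
          rw [Finset.mem_filter] at hω
          have h2 : ε < f ω := by
            by_contra h3
            exact hω.2 (hS ω (not_lt.1 h3))
          exact pow_le_pow_left₀ hε.le h2.le k
      _ ≤ ∑ ω, f ω ^ k := by
          apply Finset.sum_le_sum_of_subset_of_nonneg (Finset.filter_subset _ _)
          intro ω _ _
          exact pow_nonneg (hf ω) k
  have h2 : ((Finset.univ.filter (fun ω : Sample n ζ b => ω ∉ S)).card : ℝ)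
      ≤ δ * (Fintype.card (Sample n ζ b) : ℝ) := by
    have h3 := le_trans h1 h
    have h4 : ((Finset.univ.filter (fun ω : Sample n ζ b => ω ∉ S)).card : ℝ) * ε ^ k
        ≤ (δ * (Fintype.card (Sample n ζ b) : ℝ)) * ε ^ k := by
      calc _ ≤ δ * ε ^ k * (Fintype.card (Sample n ζ b) : ℝ) := h3
        _ = _ := by ring
    exact le_of_mul_le_mul_right h4 hεk
  have h5 : (Nat.card S : ℝ) = ((Finset.univ.filter (fun ω : Sample n ζ b => ω ∈ S)).card : ℝ) := by
    rw [Nat.card_eq_fintype_card, Fintype.card_subtype]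
  have h6 : ((Finset.univ.filter (fun ω : Sample n ζ b => ω ∈ S)).card : ℝ)
      + ((Finset.univ.filter (fun ω : Sample n ζ b => ω ∉ S)).card : ℝ)
      = (Fintype.card (Sample n ζ b) : ℝ) := by
    have := Finset.card_filter_add_card_filter_not (s := (Finset.univ : Finset (Sample n ζ b)))
      (fun ω => ω ∈ S)
    rw [← Nat.cast_add, this, Finset.card_univ]
  unfold prob
  rw [Nat.card_eq_fintype_card (α := Sample n ζ b), le_div_iff₀ hN, h5]
  nlinarith [h2, h6]

end Pool.Agent.Helper495.NN
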